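import Pool.Agent.H56.KN.Ex

/-!
Part SCL (done). Multihomogeneous polynomials and scaling.
-/

set_option autoImplicit false

namespace Pool.Agent.H56.KN

open MvPolynomial

variable {k : Type} [Field k]

theorem MHom.mul {σ β : Type} {bl : σ → β} {d e : β →₀ ℕ} {P Q : MvPolynomial σ k}
    (hP : MHom bl d P) (hQ : MHom bl e Q) : MHom bl (d + e) (P * Q) := by
  classical
  intro m hm
  obtain ⟨a, ha, b, hb, rfl⟩ := Finset.mem_add.1 (MvPolynomial.support_mul P Q hm)
  rw [Finsupp.mapDomain_add, hP a ha, hQ b hb]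

theorem MHom.add {σ β : Type} {bl : σ → β} {d : β →₀ ℕ} {P Q : MvPolynomial σ k}
    (hP : MHom bl d P) (hQ : MHom bl d Q) : MHom bl d (P + Q) := by
  classical
  intro m hm
  rcases Finset.mem_union.1 (MvPolynomial.support_add hm) with h | h
  · exact hP m h
  · exact hQ m h

theorem MHom.X {σ β : Type} (bl : σ → β) (s : σ) :
    MHom bl (Finsupp.single (bl s) 1) (MvPolynomial.X s : MvPolynomial σ k) := by
  intro m hm
  rw [MvPolynomial.support_X, Finset.mem_singleton] at hm
  rw [hm, Finsupp.mapDomain_single]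

theorem MHom.C {σ β : Type} (bl : σ → β) (c : k) : MHom bl 0 (MvPolynomial.C c) := by
  classical
  intro m hm
  have h1 : m = 0 := by
    rw [MvPolynomial.mem_support_iff, MvPolynomial.coeff_C] at hm
    by_contra h
    exact hm (if_neg (fun h' => h h'.symm))
  rw [h1, Finsupp.mapDomain_zero]

theorem MHom.zero {σ β : Type} (bl : σ → β) (d : β →₀ ℕ) : MHom bl d (0 : MvPolynomial σ k) := by
  intro m hm
  simp at hm

theorem MHom.C_mul {σ β : Type} {bl : σ → β} {d : β →₀ ℕ} {P : MvPolynomial σ k} (c : k)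
    (hP : MHom bl d P) : MHom bl d (MvPolynomial.C c * P) := by
  have := (MHom.C bl c).mul hP
  rwa [zero_add] at this

theorem MHom.sub {σ β : Type} {bl : σ → β} {d : β →₀ ℕ} {P Q : MvPolynomial σ k}
    (hP : MHom bl d P) (hQ : MHom bl d Q) : MHom bl d (P - Q) := by
  have e : P - Q = P + MvPolynomial.C (-1) * Q := by
    rw [map_neg, map_one]; ring
  rw [e]
  exact hP.add (hQ.C_mul (-1))

theorem MHom.pow {σ β : Type} {bl : σ → β} {d : β →₀ ℕ} {P : MvPolynomial σ k}
    (hP : MHom bl d P) (n : ℕ) : MHom bl (n • d) (P ^ n) := by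
  induction n with
  | zero =>
    rw [zero_smul, pow_zero]
    have := MHom.C bl (1 : k)
    rwa [map_one] at this
  | succ n ih =>
    rw [pow_succ, succ_nsmul]
    exact ih.mul hP

theorem SCL_sum {σ β ι : Type} {bl : σ → β} {d : β →₀ ℕ} (s : Finset ι)
    (P : ι → MvPolynomial σ k) (hP : ∀ i ∈ s, MHom bl d (P i)) : MHom bl d (∑ i ∈ s, P i) := by
  classical
  induction s using Finset.induction_on with
  | empty => rw [Finset.sum_empty]; exact MHom.zero bl d
  | insert a s ha ih =>
    rw [Finset.sum_insert ha]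
    exact (hP a (Finset.mem_insert_self a s)).add
      (ih (fun i hi => hP i (Finset.mem_insert_of_mem hi)))

theorem aeval_scale {σ β R : Type} [CommRing R] [Algebra k R] {bl : σ → β} {d : β →₀ ℕ}
    {P : MvPolynomial σ k} (hP : MHom bl d P) (c : β → R) (x : σ → R) :
    aeval (fun s => c (bl s) * x s) P = (d.prod fun b n => c b ^ n) * aeval x P := by
  classical
  rw [MvPolynomial.aeval_def, MvPolynomial.aeval_def, MvPolynomial.eval₂_eq,
    MvPolynomial.eval₂_eq, Finset.mul_sum]
  refine Finset.sum_congr rfl fun m hm => ?_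
  have h1 : ∏ i ∈ m.support, (c (bl i) * x i) ^ m i =
      (d.prod fun b n => c b ^ n) * ∏ i ∈ m.support, x i ^ m i := by
    simp_rw [mul_pow]
    rw [Finset.prod_mul_distrib, ← hP m hm,
      Finsupp.prod_mapDomain_index (fun b => pow_zero _) (fun b n n' => pow_add _ _ _)]
    rfl
  rw [h1]
  ring

theorem SCL_aeval_hom {σ A R : Type} [CommRing A] [Algebra k A] [CommRing R] [Algebra k R]
    (φ : A →ₐ[k] R) (y : σ → A) (P : MvPolynomial σ k) :
    aeval (fun s => φ (y s)) P = φ (aeval y P) :=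
  (MvPolynomial.comp_aeval_apply (f := y) φ P).symm

theorem spec_of_scale {σ β B M R' R : Type} [CommRing B] [Algebra k B] [CommRing M] [Algebra k M]
    [CommRing R'] [Algebra k R'] [CommRing R] [Algebra k R] {bl : σ → β} (φ : B →ₐ[k] M)
    (j : R' →ₐ[k] M) (hj : Function.Injective j) (ψ : R' →ₐ[k] R) (y : σ → B) (x' : σ → R')
    (c : β → M) (hx : ∀ s, j (x' s) = c (bl s) * φ (y s)) {d : β →₀ ℕ} {P : MvPolynomial σ k}
    (hP : MHom bl d P) (h0 : aeval y P = 0) : aeval (fun s => ψ (x' s)) P = 0 := by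
  have h1 : aeval x' P = 0 := by
    apply hj
    rw [map_zero, ← SCL_aeval_hom]
    have e : (fun s => j (x' s)) = fun s => c (bl s) * φ (y s) := funext hx
    rw [e, aeval_scale hP c (fun s => φ (y s)), SCL_aeval_hom φ y P, h0, map_zero, mul_zero]
  rw [SCL_aeval_hom ψ x' P, h1, map_zero]


end Pool.Agent.H56.KN
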