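import Pool.Agent.H56.KN.Ex
import Pool.Agent.H56.KN.SCL
import Pool.Agent.H56.KN.VAL

/-!
Part AFF. Affine description of the local ring. `O`, `ev` from `exists_LR`. `LR.ratio` gives
`y s / y (s0 (bl s)) ∈ O` with value `x s / x (s0 (bl s))`; applying `ev` to `hp` gives
`x s / x (s0 (bl s)) = aeval ζs (p s)`. `gen`: if `f Q(y) = P(y)` with `P`, `Q` multihomogeneous of degree `d`,
divide by `∏ y (s0 b) ^ d b` (`aeval_scale`, see `GEN_scale` in `Pool/Agent/H56/TC/GEN.lean`) and substitute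
`p`: `P' = bind₁ p P`, `Q' = bind₁ p Q`.
-/

set_option autoImplicit false

namespace Pool.Agent.H56.KN

open MvPolynomial

variable {k : Type} [Field k]

theorem AFF_scale {σ β R : Type} [Field R] [Algebra k R] {bl : σ → β} {d : β →₀ ℕ}
    {P : MvPolynomial σ k} (hP : MHom bl d P) (y : σ → R) (s0 : β → σ)
    (hne : ∀ b, y (s0 b) ≠ 0) :
    aeval y P = (d.prod fun b n => y (s0 b) ^ n) * aeval (fun s => y s / y (s0 (bl s))) P := by
  rw [← aeval_scale hP (fun b => y (s0 b)) (fun s => y s / y (s0 (bl s)))]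
  congr 2
  funext s
  rw [mul_div_cancel₀ _ (hne _)]

theorem AFF_prod_ne {σ β R : Type} [Field R] (d : β →₀ ℕ) (y : σ → R) (s0 : β → σ)
    (hne : ∀ b, y (s0 b) ≠ 0) : (d.prod fun b n => y (s0 b) ^ n) ≠ 0 := by
  rw [Finsupp.prod]
  exact Finset.prod_ne_zero_iff.2 fun b _ => pow_ne_zero _ (hne b)

theorem exists_AR {σ β K N : Type} [Field K] [Algebra k K] {bl : σ → β} {y : σ → K}
    {x : σ → k} (hx : x ∈ Var k bl y) (s0 : β → σ) (hs : ∀ b, bl (s0 b) = b)
    (h0 : ∀ b, x (s0 b) ≠ 0) (t : N → σ) (p : σ → MvPolynomial N k)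
    (hp : ∀ s, y s / y (s0 (bl s)) = aeval (fun n => y (t n) / y (s0 (bl (t n)))) (p s)) :
    ∃ (O : Subalgebra k K) (ev : O →ₐ[k] k), LR bl y x O ev ∧
      AR (fun n => y (t n) / y (s0 (bl (t n)))) (fun n => x (t n) / x (s0 (bl (t n)))) O ev := by
  obtain ⟨O, ev, hO⟩ := exists_LR hx
  refine ⟨O, ev, hO, ?_, ?_, ?_⟩
  · intro n
    exact hO.ratio hx (hs _).symm (h0 _)
  · exact hO.inv
  · intro f hf
    obtain ⟨d, P, Q, hP, hQ, hQx, hfe⟩ := (hO.mem f).1 hf
    have hyne : ∀ b, y (s0 b) ≠ 0 := by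
      intro b h
      apply h0 b
      have := hx.2 _ _ (MHom.X bl (s0 b)) (by rw [aeval_X]; exact h)
      rwa [aeval_X] at this
    -- values
    have hr : ∀ s : σ, ∃ hm : y s / y (s0 (bl s)) ∈ O,
        ev ⟨y s / y (s0 (bl s)), hm⟩ = x s / x (s0 (bl s)) :=
      fun s => hO.ratio hx (hs _).symm (h0 _)
    choose hm hv using hr
    let ζ' : N → O := fun n => ⟨y (t n) / y (s0 (bl (t n))), hm (t n)⟩
    have hval : ∀ s, aeval (fun n => x (t n) / x (s0 (bl (t n)))) (p s) =
        x s / x (s0 (bl s)) := by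
      intro s
      have h1 : (⟨y s / y (s0 (bl s)), hm s⟩ : O) = aeval ζ' (p s) := by
        apply Subtype.ext
        change y s / y (s0 (bl s)) = O.val (aeval ζ' (p s))
        rw [← SCL_aeval_hom O.val ζ' (p s)]
        exact hp s
      rw [← hv s, h1, ← SCL_aeval_hom ev ζ' (p s)]
      congr 2
      funext n
      exact (hv (t n)).symm
    have e1 : ∀ R : MvPolynomial σ k, aeval (fun n => x (t n) / x (s0 (bl (t n)))) (bind₁ p R) =
        aeval (fun s => x s / x (s0 (bl s))) R := by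
      intro R
      rw [aeval_bind₁]
      congr 2
      funext s
      exact hval s
    have e2 : ∀ R : MvPolynomial σ k, aeval (fun n => y (t n) / y (s0 (bl (t n)))) (bind₁ p R) =
        aeval (fun s => y s / y (s0 (bl s))) R := by
      intro R
      rw [aeval_bind₁]
      congr 2
      funext s
      exact (hp s).symm
    refine ⟨bind₁ p P, bind₁ p Q, ?_, ?_⟩
    · rw [e1]
      intro h
      apply hQx
      rw [AFF_scale hQ x s0 h0, h, mul_zero]
    · rw [e2, e2]
      rw [AFF_scale hQ y s0 hyne, AFF_scale hP y s0 hyne] at hfe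
      apply mul_left_cancel₀ (AFF_prod_ne d y s0 hyne)
      rw [← hfe]; ring

end Pool.Agent.H56.KN
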