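import Pool.Agent.H56.KN.Ex
import Pool.Agent.H56.KN.SCL
import Pool.Agent.H56.KN.VAL

/-!
Part NEX. Nonvanishing: `x, y, a` are algebraically independent, so every nonzero polynomial in them is nonzero (`1 + a²`, `1 - a²`, `g₀`, `g₁`; `2 ≠ 0` not needed:
the constant coefficients are `± 1`), then `u, b, w ≠ 0` by the relations.
-/

set_option autoImplicit false

namespace Pool.Agent.H56.KN

open MvPolynomial

variable {k : Type} [Field k]

theorem NEX_nz {K : Type} [Field K] [Algebra k K] {n : ℕ} {v : Fin n → K}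
    (ind : AlgebraicIndependent k v) (P : MvPolynomial (Fin n) k) (e : Fin n → k)
    (h : eval e P ≠ 0) : aeval v P ≠ 0 := by
  intro h0
  apply h
  have h1 : P = 0 := by
    apply ind
    rw [h0, map_zero]
  rw [h1, map_zero]

theorem NEX_Bq {R S : Type} [CommRing R] [CommRing S] (φ : R →+* S) (c : Fin 2 → Fin 2 → ℤ)
    (x y : R) : φ (Bq c x y) = Bq c (φ x) (φ y) := by
  simp [Bq]

theorem NEX_g {K : Type} [Field K] [Algebra k K] {n : ℕ} {v : Fin n → K}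
    (ind : AlgebraicIndependent k v) (p : Fin 2) (i j : Fin n) : Bq (g p) (v i) (v j) ≠ 0 := by
  have h := NEX_nz ind (Bq (g p) (X i) (X j)) (fun _ => 0) (by
    rw [NEX_Bq (eval (fun _ => (0 : k)))]
    fin_cases p <;> simp [Bq, g])
  rw [← AlgHom.coe_toRingHom, NEX_Bq] at h
  simpa using h

theorem NEX_v {K : Type} [Field K] [Algebra k K] {n : ℕ} {v : Fin n → K}
    (ind : AlgebraicIndependent k v) (i : Fin n) : v i ≠ 0 := by
  have h := NEX_nz ind (X i) (fun _ => 1) (by simp)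
  simpa using h

theorem ne_X {K : Type} [Field K] [Algebra k K] {x y u a b w : K}
    (hD : Dat k x y u a b w) : x ≠ 0 ∧ y ≠ 0 ∧ u ≠ 0 ∧ a ≠ 0 ∧ b ≠ 0 ∧ w ≠ 0 ∧
      Bq (g 0) x y ≠ 0 ∧ Bq (g 1) x y ≠ 0 ∧ 1 + a ^ 2 ≠ 0 ∧ 1 - a ^ 2 ≠ 0 := by
  have hx : x ≠ 0 := NEX_v hD.ind 0
  have hy : y ≠ 0 := NEX_v hD.ind 1
  have ha : a ≠ 0 := NEX_v hD.ind 2
  have h0 : Bq (g 0) x y ≠ 0 := NEX_g hD.ind 0 0 1
  have h1 : Bq (g 1) x y ≠ 0 := NEX_g hD.ind 1 0 1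
  have h2 : 1 + a ^ 2 ≠ 0 := by
    have h := NEX_nz hD.ind (1 + X 2 ^ 2) (fun _ => 0) (by simp)
    simpa using h
  have h3 : 1 - a ^ 2 ≠ 0 := by
    have h := NEX_nz hD.ind (1 - X 2 ^ 2) (fun _ => 0) (by simp)
    simpa using h
  refine ⟨hx, hy, ?_, ha, ?_, ?_, h0, h1, h2, h3⟩
  · rintro rfl
    apply h1
    rw [← hD.hu]; ring
  · rintro rfl
    apply h3
    rw [← hD.hb]; ring
  · rintro rfl
    have := hD.hw
    rw [zero_pow two_ne_zero] at this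
    exact (mul_ne_zero h0 h2) this.symm

theorem ne_Y {L : Type} [Field L] [Algebra k L] {x y u : L} (hD : DatY k x y u) :
    x ≠ 0 ∧ y ≠ 0 ∧ u ≠ 0 ∧ Bq (g 0) x y ≠ 0 ∧ Bq (g 1) x y ≠ 0 := by
  have hx : x ≠ 0 := NEX_v hD.ind 0
  have hy : y ≠ 0 := NEX_v hD.ind 1
  have h0 : Bq (g 0) x y ≠ 0 := NEX_g hD.ind 0 0 1
  have h1 : Bq (g 1) x y ≠ 0 := NEX_g hD.ind 1 0 1
  refine ⟨hx, hy, ?_, h0, h1⟩
  rintro rfl
  apply h1
  rw [← hD.hu]; ring

end Pool.Agent.H56.KN
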