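import Pool.Agent.H56.KN.Ex
import Pool.Agent.H56.KN.SCL
import Pool.Agent.H56.KN.VAL
import Pool.Agent.H56.KN.NEX

/-!
Part ALG. `L = k(x, y, u)` is algebraically closed in `K`. `a` is transcendental over the algebraic closure `F` of
`k(x, y)` in `K`, and `1, b, w, bw` are linearly independent over `F(a)` and span `K` over `L(a)`. So an element of `F` is in
`L(a)`, and then in `L`.
-/

set_option autoImplicit false

namespace Pool.Agent.H56.KN

open MvPolynomial

variable {k : Type} [Field k]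

open Polynomial in
theorem ALG_nsq {F K : Type} [Field F] [Field K] [Algebra F K] {a : K} (ha : Transcendental F a)
    (h : F[X]) (hsq : Squarefree h) (hu : ¬ IsUnit h) (c : F) (hc : c ≠ 0) (r : K)
    (hr : r ∈ IntermediateField.adjoin F ({a} : Set K)) :
    r ^ 2 ≠ algebraMap F K c * Polynomial.aeval a h := by
  intro he
  obtain ⟨p, q, rfl⟩ := (IntermediateField.mem_adjoin_simple_iff F r).1 hr
  have hinj : Function.Injective (Polynomial.aeval (R := F) a) :=
    transcendental_iff_injective.1 ha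
  have h0 : h ≠ 0 := hsq.ne_zero
  have hq : q ≠ 0 := by
    rintro rfl
    rw [map_zero, div_zero, zero_pow two_ne_zero] at he
    have h2 := mul_eq_zero.1 he.symm
    rcases h2 with h2 | h2
    · exact hc ((map_eq_zero _).1 h2)
    · exact h0 (hinj (by rw [h2, map_zero]))
  have hqa : Polynomial.aeval a q ≠ 0 := fun h2 => hq (hinj (by rw [h2, map_zero]))
  rw [div_pow, div_eq_iff (pow_ne_zero 2 hqa)] at he
  have he2 : p ^ 2 = Polynomial.C c * h * q ^ 2 := by
    apply hinj
    rw [map_pow, he, map_mul, map_mul, map_pow, Polynomial.aeval_C]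
  obtain ⟨π, hπ, hπh⟩ := WfDvdMonoid.exists_irreducible_factor hu h0
  have hπp : Prime π := hπ.prime
  have hp : p ≠ 0 := by
    rintro rfl
    rw [zero_pow two_ne_zero] at he2
    rcases mul_eq_zero.1 he2.symm with h2 | h2
    · rcases mul_eq_zero.1 h2 with h3 | h3
      · exact hc (Polynomial.C_eq_zero.1 h3)
      · exact h0 h3
    · exact hq (pow_eq_zero_iff two_ne_zero |>.1 h2)
  have hCc : IsUnit (Polynomial.C c) := Polynomial.isUnit_C.2 (isUnit_iff_ne_zero.2 hc)
  have f1 : FiniteMultiplicity π p := FiniteMultiplicity.of_prime_left hπp hp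
  have f2 : FiniteMultiplicity π q := FiniteMultiplicity.of_prime_left hπp hq
  have f3 : FiniteMultiplicity π h := FiniteMultiplicity.of_prime_left hπp h0
  have e1 : multiplicity π (p ^ 2) = 2 * multiplicity π p := by
    rw [FiniteMultiplicity.multiplicity_pow hπp f1]
  have e2 : multiplicity π (Polynomial.C c * h * q ^ 2) = multiplicity π h + 2 * multiplicity π q := by
    have g1 : Polynomial.C c * h * q ^ 2 ≠ 0 := by
      rw [← he2]; exact pow_ne_zero 2 hp
    have g2 : Polynomial.C c * h ≠ 0 := left_ne_zero_of_mul g1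
    rw [multiplicity_mul hπp (FiniteMultiplicity.of_prime_left hπp g1),
      multiplicity_mul hπp (FiniteMultiplicity.of_prime_left hπp g2), FiniteMultiplicity.multiplicity_pow hπp f2]
    have g3 : multiplicity π (Polynomial.C c) = 0 := by
      apply multiplicity_eq_zero.2
      intro h3
      exact hπp.not_isUnit (isUnit_of_dvd_unit h3 hCc)
    rw [g3, zero_add]
  have e3 : multiplicity π h = 1 := by
    have h2 : ¬ π ^ 2 ∣ h := by
      intro h3
      rw [pow_two] at h3
      exact hπp.not_isUnit (hsq π h3)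
    apply le_antisymm
    · by_contra h4
      push Not at h4
      exact h2 ((pow_dvd_pow π h4).trans (pow_multiplicity_dvd π h))
    · by_contra h4
      push Not at h4
      have h5 : multiplicity π h = 0 := by omega
      exact (multiplicity_eq_zero.1 h5) hπh
  rw [← he2, e1, e3] at e2
  omega

theorem ALG_ind {K : Type} [Field K] (h2 : (2 : K) ≠ 0) (M : Subfield K) {b w : K}
    (hb : b ^ 2 ∈ M) (hw : w ^ 2 ∈ M) (n1 : ∀ r ∈ M, r ^ 2 ≠ b ^ 2) (n2 : ∀ r ∈ M, r ^ 2 ≠ w ^ 2)
    (n3 : ∀ r ∈ M, r ^ 2 ≠ b ^ 2 * w ^ 2) (c0 c1 c2 c3 : K) (m0 : c0 ∈ M) (m1 : c1 ∈ M)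
    (m2 : c2 ∈ M) (m3 : c3 ∈ M) (h : c0 + c1 * b + c2 * w + c3 * (b * w) = 0) : c0 = 0 := by
  have hbM : b ∉ M := fun hm => n1 b hm rfl
  have lin : ∀ p ∈ M, ∀ q ∈ M, p + q * b = 0 → p = 0 ∧ q = 0 := by
    intro p hp q hq he
    by_cases hq0 : q = 0
    · subst hq0
      rw [zero_mul, add_zero] at he
      exact ⟨he, rfl⟩
    · exfalso
      apply hbM
      have : b = -p / q := by
        field_simp
        linear_combination he
      rw [this]
      exact M.div_mem (M.neg_mem hp) hq
  by_cases hB : c2 + c3 * b = 0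
  · have h3 : c0 + c1 * b = 0 := by linear_combination h - w * hB
    exact (lin c0 m0 c1 m1 h3).1
  · exfalso
    have hB' : c2 + (-c3) * b ≠ 0 := by
      intro h3
      obtain ⟨h4, h5⟩ := lin c2 m2 (-c3) (M.neg_mem m3) h3
      apply hB
      have h6 : c3 = 0 := by linear_combination -h5
      rw [h4, h6]
      ring
    set n := c2 ^ 2 - c3 ^ 2 * b ^ 2 with hn
    have hn0 : n ≠ 0 := by
      have : n = (c2 + c3 * b) * (c2 + (-c3) * b) := by rw [hn]; ring
      rw [this]
      exact mul_ne_zero hB hB'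
    have mn : n ∈ M := M.sub_mem (pow_mem m2 2) (M.mul_mem (pow_mem m3 2) hb)
    set P0 := -(c0 * c2 - c1 * c3 * b ^ 2) with hP0
    set P1 := -(c1 * c2 - c0 * c3) with hP1
    have mP0 : P0 ∈ M := M.neg_mem (M.sub_mem (M.mul_mem m0 m2) (M.mul_mem (M.mul_mem m1 m3) hb))
    have mP1 : P1 ∈ M := M.neg_mem (M.sub_mem (M.mul_mem m1 m2) (M.mul_mem m0 m3))
    have e1 : w * n = P0 + P1 * b := by
      rw [hn, hP0, hP1]
      linear_combination (c2 - c3 * b) * h
    have e2 : w ^ 2 * n ^ 2 = P0 ^ 2 + P1 ^ 2 * b ^ 2 + 2 * P0 * P1 * b := by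
      calc w ^ 2 * n ^ 2 = (w * n) ^ 2 := by ring
        _ = _ := by rw [e1]; ring
    have e3 : (P0 ^ 2 + P1 ^ 2 * b ^ 2 - w ^ 2 * n ^ 2) + (2 * P0 * P1) * b = 0 := by
      linear_combination -e2
    have h2M : (2 : K) ∈ M := by
      have := M.add_mem M.one_mem M.one_mem
      rwa [one_add_one_eq_two] at this
    obtain ⟨e4, e5⟩ := lin _ (M.sub_mem (M.add_mem (pow_mem mP0 2)
      (M.mul_mem (pow_mem mP1 2) hb)) (M.mul_mem hw (pow_mem mn 2))) _
      (M.mul_mem (M.mul_mem h2M mP0) mP1) e3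
    rcases mul_eq_zero.1 e5 with e6 | e6
    · have e7 : P0 = 0 := (mul_eq_zero.1 e6).resolve_left h2
      apply n3 (P1 * b ^ 2 / n) (M.div_mem (M.mul_mem mP1 hb) mn)
      rw [e7] at e4
      rw [div_pow, div_eq_iff (pow_ne_zero 2 hn0)]
      linear_combination b ^ 2 * e4
    · apply n2 (P0 / n) (M.div_mem mP0 mn)
      rw [e6] at e4
      rw [div_pow, div_eq_iff (pow_ne_zero 2 hn0)]
      linear_combination e4

/-- the span of `1, b, w, bw` over `M` -/
theorem ALG_span {M K : Type} [Field M] [Field K] [Algebra M K] {b w : K}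
    (hb : ∃ β : M, b ^ 2 = algebraMap M K β) (hw : ∃ ω : M, w ^ 2 = algebraMap M K ω) (t : K)
    (ht : t ∈ Algebra.adjoin M ({b, w} : Set K)) :
    ∃ c0 c1 c2 c3 : M, t = algebraMap M K c0 + algebraMap M K c1 * b + algebraMap M K c2 * w +
      algebraMap M K c3 * (b * w) := by
  obtain ⟨β, hβ⟩ := hb
  obtain ⟨ω, hω⟩ := hw
  induction ht using Algebra.adjoin_induction with
  | mem x hx =>
    rcases hx with rfl | rfl
    · exact ⟨0, 1, 0, 0, by simp⟩
    · exact ⟨0, 0, 1, 0, by simp⟩
  | algebraMap r => exact ⟨r, 0, 0, 0, by simp⟩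
  | add s t _ _ hs ht =>
    obtain ⟨a0, a1, a2, a3, rfl⟩ := hs
    obtain ⟨b0, b1, b2, b3, rfl⟩ := ht
    exact ⟨a0 + b0, a1 + b1, a2 + b2, a3 + b3, by simp only [map_add]; ring⟩
  | mul s t _ _ hs ht =>
    obtain ⟨a0, a1, a2, a3, rfl⟩ := hs
    obtain ⟨b0, b1, b2, b3, rfl⟩ := ht
    refine ⟨a0 * b0 + a1 * b1 * β + a2 * b2 * ω + a3 * b3 * (β * ω),
      a0 * b1 + a1 * b0 + (a2 * b3 + a3 * b2) * ω,
      a0 * b2 + a2 * b0 + (a1 * b3 + a3 * b1) * β,
      a0 * b3 + a3 * b0 + a1 * b2 + a2 * b1, ?_⟩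
    simp only [map_add, map_mul, ← hβ, ← hω]
    ring

theorem alg_X {K : Type} [Field K] [Algebra k K] (h2 : (2 : k) ≠ 0) {x y u a b w : K}
    (hD : Dat k x y u a b w) (f : K)
    (hf : IsAlgebraic ↥(IntermediateField.adjoin k {x, y, u}) f) :
    f ∈ IntermediateField.adjoin k {x, y, u} := by
  classical
  obtain ⟨hx0, hy0, hu0, ha0, hb0, hw0, hg0, hg1, h1, h1'⟩ := ne_X hD
  have h2K : (2 : K) ≠ 0 := by
    rw [← map_ofNat (algebraMap k K) 2]
    exact (map_ne_zero _).2 h2
  -- the algebraic closure of `k(x, y)`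
  have haE : Transcendental (IntermediateField.adjoin k ({x, y} : Set K)) a := by
    rw [IntermediateField.transcendental_adjoin_iff]
    have h3 := hD.ind.transcendental_adjoin (s := {0, 1}) (i := 2) (by simp)
    have h4 : (![x, y, a] '' {0, 1} : Set K) = {x, y} := by
      rw [Set.image_pair]; rfl
    rw [h4] at h3
    exact h3
  obtain ⟨E, hE⟩ : ∃ E, E = IntermediateField.adjoin k ({x, y} : Set K) := ⟨_, rfl⟩
  rw [← hE] at haE
  have hxE : x ∈ E := by
    rw [hE]; exact IntermediateField.subset_adjoin k _ (by simp)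
  have hyE : y ∈ E := by
    rw [hE]; exact IntermediateField.subset_adjoin k _ (by simp)
  have hgE : ∀ p : Fin 2, Bq (g p) x y ∈ E := by
    intro p
    unfold Bq
    exact E.add_mem (E.add_mem (E.add_mem (intCast_mem E _) (E.mul_mem (intCast_mem E _)
      (pow_mem hxE 2))) (E.mul_mem (intCast_mem E _) (pow_mem hyE 2)))
      (E.mul_mem (E.mul_mem (intCast_mem E _) (pow_mem hxE 2)) (pow_mem hyE 2))
  have haF : Transcendental (algebraicClosure E K) a := haE.extendScalars _
  obtain ⟨F, hF⟩ : ∃ F, F = algebraicClosure E K := ⟨_, rfl⟩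
  have hmF : ∀ t : K, t ∈ F ↔ IsAlgebraic E t := by
    intro t; rw [hF]; exact mem_algebraicClosure_iff
  have halgF : Algebra.IsAlgebraic E F := by rw [hF]; infer_instance
  rw [← hF] at haF
  have hEF : ∀ t ∈ E, t ∈ F := fun t ht => (hmF t).2 (isAlgebraic_algebraMap (⟨t, ht⟩ : E))
  have huF : u ∈ F := by
    rw [hmF]
    apply IsAlgebraic.of_pow (n := 2) (by norm_num)
    have h3 : u ^ 2 = Bq (g 1) x y / Bq (g 0) x y := by
      rw [eq_div_iff hg0]; exact hD.hu
    rw [h3]
    exact isAlgebraic_algebraMap (⟨_, E.div_mem (hgE 1) (hgE 0)⟩ : E)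
  obtain ⟨L, hL⟩ : ∃ L, L = IntermediateField.adjoin k ({x, y, u} : Set K) := ⟨_, rfl⟩
  rw [← hL] at hf ⊢
  have hxL : x ∈ L := by rw [hL]; exact IntermediateField.subset_adjoin k _ (by simp)
  have hyL : y ∈ L := by rw [hL]; exact IntermediateField.subset_adjoin k _ (by simp)
  have huL : u ∈ L := by rw [hL]; exact IntermediateField.subset_adjoin k _ (by simp)
  have hLF : ∀ t ∈ L, t ∈ F := by
    have h3 : L ≤ F.restrictScalars k := by
      rw [hL, IntermediateField.adjoin_le_iff]
      rintro t ht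
      simp only [Set.mem_insert_iff, Set.mem_singleton_iff] at ht
      rcases ht with rfl | rfl | rfl
      · exact hEF _ hxE
      · exact hEF _ hyE
      · exact huF
    exact fun t ht => h3 ht
  let ι : L →+* F :=
    { toFun := fun t => ⟨t, hLF t t.2⟩
      map_one' := rfl
      map_mul' := fun _ _ => rfl
      map_zero' := rfl
      map_add' := fun _ _ => rfl }
  have hι : Function.Injective ι := ι.injective
  have hcomp : (algebraMap F K).comp ι = algebraMap L K := rfl
  have hmap : ∀ (q : Polynomial L) (t : K),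
      Polynomial.aeval t (q.map ι) = Polynomial.aeval t q := by
    intro q t
    rw [Polynomial.aeval_def, Polynomial.aeval_def, Polynomial.eval₂_map, hcomp]
  have hfF : f ∈ F := by
    rw [hmF]
    obtain ⟨q, hq0, hq⟩ := hf
    have h3 : IsAlgebraic F f :=
      ⟨q.map ι, (Polynomial.map_ne_zero_iff hι).2 hq0, by rw [hmap]; exact hq⟩
    exact h3.restrictScalars E
  -- the fields `L(a)` and `F(a)`
  let M : IntermediateField L K := IntermediateField.adjoin L {a}
  let M' : IntermediateField F K := IntermediateField.adjoin F {a}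
  have haM : a ∈ M := IntermediateField.mem_adjoin_simple_self L a
  have hLM : ∀ t ∈ L, t ∈ M := fun t ht => M.algebraMap_mem (⟨t, ht⟩ : L)
  have hFM' : ∀ t ∈ F, t ∈ M' := fun t ht => M'.algebraMap_mem (⟨t, ht⟩ : F)
  have haM' : a ∈ M' := IntermediateField.mem_adjoin_simple_self F a
  have hMM' : ∀ t ∈ M, t ∈ M' := by
    intro t ht
    obtain ⟨r, s, rfl⟩ := (IntermediateField.mem_adjoin_simple_iff L t).1 ht
    refine (IntermediateField.mem_adjoin_simple_iff F _).2 ⟨r.map ι, s.map ι, ?_⟩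
    rw [hmap, hmap]
  have hPL : Bq (g 0) x y ∈ L := by
    unfold Bq
    exact L.add_mem (L.add_mem (L.add_mem (intCast_mem L _) (L.mul_mem (intCast_mem L _)
      (pow_mem hxL 2))) (L.mul_mem (intCast_mem L _) (pow_mem hyL 2)))
      (L.mul_mem (L.mul_mem (intCast_mem L _) (pow_mem hxL 2)) (pow_mem hyL 2))
  have hbM : b ^ 2 ∈ M := by
    have h3 : b ^ 2 = (1 - a ^ 2) / (1 + a ^ 2) := by
      rw [eq_div_iff h1]; exact hD.hb
    rw [h3]
    exact M.div_mem (M.sub_mem M.one_mem (pow_mem haM 2)) (M.add_mem M.one_mem (pow_mem haM 2))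
  have hwM : w ^ 2 ∈ M := by
    rw [hD.hw]
    exact M.mul_mem (hLM _ hPL) (M.add_mem M.one_mem (pow_mem haM 2))
  -- the span
  have hTop : ∀ t : K, t ∈ IntermediateField.adjoin M ({b, w} : Set K) := by
    intro t
    have h3 : IntermediateField.adjoin k ({x, y, u, a, b, w} : Set K) ≤
        (IntermediateField.adjoin M ({b, w} : Set K)).toSubfield.toIntermediateField
          (fun c => (IntermediateField.adjoin M ({b, w} : Set K)).algebraMap_mem
            (⟨_, hLM _ (L.algebraMap_mem c)⟩ : M)) := by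
      rw [IntermediateField.adjoin_le_iff]
      intro t ht
      simp only [Set.mem_insert_iff, Set.mem_singleton_iff] at ht
      have hM : ∀ t ∈ M, t ∈ IntermediateField.adjoin M ({b, w} : Set K) := fun t ht =>
        (IntermediateField.adjoin M ({b, w} : Set K)).algebraMap_mem (⟨t, ht⟩ : M)
      rcases ht with rfl | rfl | rfl | rfl | rfl | rfl
      · exact hM _ (hLM _ hxL)
      · exact hM _ (hLM _ hyL)
      · exact hM _ (hLM _ huL)
      · exact hM _ haM
      · exact IntermediateField.subset_adjoin M _ (Set.mem_insert _ _)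
      · exact IntermediateField.subset_adjoin M _ (Set.mem_insert_of_mem _ rfl)
    rw [hD.gen] at h3
    exact h3 IntermediateField.mem_top
  have hAlg : ∀ t : K, t ∈ Algebra.adjoin M ({b, w} : Set K) := by
    intro t
    have h3 : (IntermediateField.adjoin M ({b, w} : Set K)).toSubalgebra =
        Algebra.adjoin M ({b, w} : Set K) := by
      apply IntermediateField.adjoin_toSubalgebra_of_isAlgebraic
      rintro t ht
      simp only [Set.mem_insert_iff, Set.mem_singleton_iff] at ht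
      rcases ht with rfl | rfl
      · exact IsAlgebraic.of_pow (n := 2) (by norm_num)
          (isAlgebraic_algebraMap (⟨_, hbM⟩ : M))
      · exact IsAlgebraic.of_pow (n := 2) (by norm_num)
          (isAlgebraic_algebraMap (⟨_, hwM⟩ : M))
    rw [← h3]
    exact hTop t
  obtain ⟨c0, c1, c2, c3, hfc⟩ := ALG_span (M := M) ⟨⟨_, hbM⟩, rfl⟩ ⟨⟨_, hwM⟩, rfl⟩ f (hAlg f)
  -- non-squares
  have h2F : (2 : F) ≠ 0 := by
    intro h3
    apply h2K
    rw [← map_ofNat (algebraMap F K) 2, h3, map_zero]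
  let P : F := ⟨Bq (g 0) x y, hLF _ hPL⟩
  have hP0 : P ≠ 0 := fun h3 => hg0 (congrArg Subtype.val h3)
  have sep : ∀ (n : ℕ) (ε : F), (n : F) ≠ 0 → ε ≠ 0 → 0 < n →
      Squarefree (1 + Polynomial.C ε * Polynomial.X ^ n : Polynomial F) ∧
      ¬ IsUnit (1 + Polynomial.C ε * Polynomial.X ^ n : Polynomial F) := by
    intro n ε hn hε hn0
    have hdeg : (1 + Polynomial.C ε * Polynomial.X ^ n : Polynomial F).natDegree = n := by
      rw [add_comm]
      have := Polynomial.natDegree_add_C (p := Polynomial.C ε * Polynomial.X ^ n) (a := (1 : F))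
      rw [Polynomial.C_1] at this
      rw [this, Polynomial.natDegree_C_mul_X_pow n ε hε]
    constructor
    · apply Polynomial.Separable.squarefree
      obtain ⟨m, rfl⟩ : ∃ m, n = m + 1 := ⟨n - 1, by omega⟩
      refine ⟨1, -(Polynomial.C ((m + 1 : ℕ) : F)⁻¹ * Polynomial.X), ?_⟩
      rw [Polynomial.derivative_add, Polynomial.derivative_one, zero_add,
        Polynomial.derivative_C_mul_X_pow, Polynomial.C_mul, Nat.add_sub_cancel]
      have h5 : Polynomial.C ((((m + 1 : ℕ) : F))⁻¹) * Polynomial.C (((m + 1 : ℕ) : F)) = 1 := by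
        rw [← Polynomial.C_mul, inv_mul_cancel₀ hn, Polynomial.C_1]
      rw [pow_succ]
      linear_combination (-(Polynomial.C ε * Polynomial.X ^ m * Polynomial.X)) * h5
    · intro hu
      have := Polynomial.natDegree_eq_zero_of_isUnit hu
      omega
  have ev : ∀ (n : ℕ) (ε : F), Polynomial.aeval a (1 + Polynomial.C ε * Polynomial.X ^ n : Polynomial F) =
      1 + (ε : K) * a ^ n := by
    intro n ε
    simp
  have cm1 : ((-1 : F) : K) = -1 := rfl
  have c1' : ((1 : F) : K) = 1 := rfl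
  have hh2 : ((2 : ℕ) : F) ≠ 0 := by exact_mod_cast h2F
  have hh4 : ((4 : ℕ) : F) ≠ 0 := by
    have : ((4 : ℕ) : F) = 2 * 2 := by norm_num
    rw [this]
    exact mul_ne_zero h2F h2F
  have n1 : ∀ r ∈ M'.toSubfield, r ^ 2 ≠ b ^ 2 := by
    intro r hr he
    obtain ⟨s1, s2⟩ := sep 4 (-1) hh4 (by simp) (by norm_num)
    apply ALG_nsq haF _ s1 s2 1 one_ne_zero (r * (1 + a ^ 2))
      (M'.mul_mem hr (M'.add_mem M'.one_mem (pow_mem haM' 2)))
    rw [ev, mul_pow, he, cm1, map_one]
    linear_combination (1 + a ^ 2) * hD.hb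
  have n2 : ∀ r ∈ M'.toSubfield, r ^ 2 ≠ w ^ 2 := by
    intro r hr he
    obtain ⟨s1, s2⟩ := sep 2 1 hh2 one_ne_zero (by norm_num)
    apply ALG_nsq haF _ s1 s2 P hP0 r hr
    rw [ev, he, hD.hw, c1']
    change _ = Bq (g 0) x y * _
    ring
  have n3 : ∀ r ∈ M'.toSubfield, r ^ 2 ≠ b ^ 2 * w ^ 2 := by
    intro r hr he
    obtain ⟨s1, s2⟩ := sep 2 (-1) hh2 (by simp) (by norm_num)
    apply ALG_nsq haF _ s1 s2 P hP0 r hr
    rw [ev, he, hD.hw, cm1]
    change _ = Bq (g 0) x y * _
    linear_combination Bq (g 0) x y * hD.hb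
  have hfM : f ∈ M := by
    have h3 : (f - (c0 : K)) * (-1) + (c1 : K) * b + (c2 : K) * w + (c3 : K) * (b * w) = 0 := by
      have h4 : f = (c0 : K) + (c1 : K) * b + (c2 : K) * w + (c3 : K) * (b * w) := hfc
      linear_combination -h4
    have h4 := ALG_ind h2K M'.toSubfield (hMM' _ hbM) (hMM' _ hwM) n1 n2 n3 _ _ _ _
      (M'.mul_mem (M'.sub_mem (hFM' f hfF) (hMM' _ c0.2)) (M'.neg_mem M'.one_mem))
      (hMM' _ c1.2) (hMM' _ c2.2) (hMM' _ c3.2) h3
    have h5 : f = c0 := by linear_combination -h4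
    rw [h5]
    exact c0.2
  -- end
  obtain ⟨r, s, hrs⟩ := (IntermediateField.mem_adjoin_simple_iff L f).1 hfM
  have hinj : Function.Injective (Polynomial.aeval (R := F) a) := transcendental_iff_injective.1 haF
  by_cases hs : Polynomial.aeval a s = 0
  · rw [hs, div_zero] at hrs
    rw [hrs]
    exact L.zero_mem
  · have hs0 : s ≠ 0 := by rintro rfl; exact hs (map_zero _)
    have h3 : Polynomial.C (⟨f, hfF⟩ : F) * s.map ι = r.map ι := by
      apply hinj
      rw [map_mul, Polynomial.aeval_C, hmap, hmap]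
      change f * _ = _
      rw [hrs]
      exact div_mul_cancel₀ _ hs
    obtain ⟨j, hj⟩ : ∃ j, s.coeff j ≠ 0 := by
      by_contra hcon
      push Not at hcon
      exact hs0 (Polynomial.ext (fun n => by rw [hcon n, Polynomial.coeff_zero]))
    have h4 := congrArg (fun q => ((q.coeff j : F) : K)) h3
    simp only [Polynomial.coeff_C_mul, Polynomial.coeff_map] at h4
    have h5 : f * ((s.coeff j : L) : K) = ((r.coeff j : L) : K) := h4
    have h6 : ((s.coeff j : L) : K) ≠ 0 := fun h7 => hj (Subtype.ext h7)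
    have h7 : f = ((r.coeff j : L) : K) / ((s.coeff j : L) : K) := by
      rw [eq_div_iff h6]; exact h5
    rw [h7]
    exact L.div_mem (r.coeff j).2 (s.coeff j).2

end Pool.Agent.H56.KN
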