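import Pool.Agent.H56.KN.Ex
import Pool.Agent.H56.KN.SCL
import Pool.Agent.H56.KN.VAL

/-!
Part CHK. The relations in the charts, over any field. Divide the homogeneous relation by the squares of the nonvanishing coordinates:
`Bh c X Y = X i ^ 2 * Y j ^ 2 * Bq (sh c i j) (X (i+1) / X i) (Y (j+1) / Y j)`, `Rh c E = E l ^ 2 * Rq (shr c l) (E (l+1) / E l)`. `fin_cases` on the indices.
-/

set_option autoImplicit false

namespace Pool.Agent.H56.KN

open MvPolynomial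

variable {k : Type} [Field k]

section

variable {F : Type} [Field F]

theorem CHK_B (c : Fin 2 → Fin 2 → ℤ) (X Y : Fin 2 → F) (i j : Fin 2) (hX : X i ≠ 0)
    (hY : Y j ≠ 0) :
    Bq (sh c i j) (X (i + 1) / X i) (Y (j + 1) / Y j) = Bh c X Y / (X i ^ 2 * Y j ^ 2) := by
  fin_cases i <;> fin_cases j <;>
    simp only [Bq, sh, Bh, Fin.sum_univ_two] at * <;>
    simp only [Fin.isValue, Fin.zero_eta, Fin.mk_one, zero_add, add_zero, Fin.reduceAdd] at * <;>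
    field_simp <;> ring

theorem CHK_R (c : Fin 2 → ℤ) (E : Fin 2 → F) (l : Fin 2) (hl : E l ≠ 0) :
    Rq (shr c l) (E (l + 1) / E l) = Rh c E / E l ^ 2 := by
  fin_cases l <;>
    simp only [Rq, shr, Rh, Fin.sum_univ_two] at * <;>
    simp only [Fin.isValue, Fin.zero_eta, Fin.mk_one, zero_add, add_zero, Fin.reduceAdd] at * <;>
    field_simp <;> ring

theorem chk_P (X Y U : Fin 2 → F) (hU : U 0 ^ 2 * Bh (g 1) X Y = U 1 ^ 2 * Bh (g 0) X Y)
    (i j p : Fin 2) (hX : X i ≠ 0) (hY : Y j ≠ 0) (hU0 : U p ≠ 0) :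
    (U (p + 1) / U p) ^ 2 * Bq (sh (g p) i j) (X (i + 1) / X i) (Y (j + 1) / Y j) =
      Bq (sh (g (p + 1)) i j) (X (i + 1) / X i) (Y (j + 1) / Y j) := by
  rw [CHK_B _ X Y i j hX hY, CHK_B _ X Y i j hX hY]
  have h : U (p + 1) ^ 2 * Bh (g p) X Y = U p ^ 2 * Bh (g (p + 1)) X Y := by
    fin_cases p
    · simpa using hU.symm
    · simpa using hU
  rw [div_pow, div_mul_div_comm, div_eq_div_iff (mul_ne_zero (pow_ne_zero 2 hU0) (mul_ne_zero (pow_ne_zero 2 hX) (pow_ne_zero 2 hY))) (mul_ne_zero (pow_ne_zero 2 hX) (pow_ne_zero 2 hY)), h]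
  ring

theorem chk_E (E B : Fin 2 → F) (hE : B 0 ^ 2 * Rh (rho 1) E = B 1 ^ 2 * Rh (rho 0) E)
    (l q : Fin 2) (hl : E l ≠ 0) (hq : B q ≠ 0) :
    (B (q + 1) / B q) ^ 2 * Rq (shr (rho q) l) (E (l + 1) / E l) =
      Rq (shr (rho (q + 1)) l) (E (l + 1) / E l) := by
  rw [CHK_R _ E l hl, CHK_R _ E l hl]
  have h : B (q + 1) ^ 2 * Rh (rho q) E = B q ^ 2 * Rh (rho (q + 1)) E := by
    fin_cases q
    · simpa using hE.symm
    · simpa using hE
  rw [div_pow, div_mul_div_comm, div_eq_div_iff (mul_ne_zero (pow_ne_zero 2 hq) (pow_ne_zero 2 hl)) (pow_ne_zero 2 hl), h]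
  ring

theorem chk_W (c : Fin 5 → Fin 2 → F) (w : F) (h : HRel c w) (i : Fin 5 → Fin 2)
    (hi : ∀ m, c m (i m) ≠ 0) : (lw c w i) ^ 2 = lP c i * lR c i := by
  have h1 := h.hW (i 2) (i 4)
  have e1 : lP c i = Bh (g (i 2)) (c 0) (c 1) / (c 0 (i 0) ^ 2 * c 1 (i 1) ^ 2) :=
    CHK_B _ (c 0) (c 1) (i 0) (i 1) (hi 0) (hi 1)
  have e2 : lR c i = Rh (rho (i 4)) (c 3) / c 3 (i 3) ^ 2 := CHK_R _ (c 3) (i 3) (hi 3)
  rw [e1, e2, div_mul_div_comm, ← h1, lw, div_pow]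
  ring

end

end Pool.Agent.H56.KN
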