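import Pool.Agent.H56.KN.Ex
import Pool.Agent.H56.KN.SCL
import Pool.Agent.H56.KN.VAL

/-!
Part REL. The generic point satisfies the homogeneous relations (`HRel`), immediate from `Dat`.
-/

set_option autoImplicit false

namespace Pool.Agent.H56.KN

open MvPolynomial

variable {k : Type} [Field k]

theorem hrel_gen {K : Type} [Field K] [Algebra k K] {x y u a b w : K}
    (hD : Dat k x y u a b w) : HRel (cc x y u a b) w := by
  have hu := hD.hu
  have hb := hD.hb
  have hw := hD.hw
  simp only [Bq, g] at hu hw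
  norm_num at hu hw
  have d2 : (![x, y, u, a, b] : Fin 5 → K) 2 = u := rfl
  have d3 : (![x, y, u, a, b] : Fin 5 → K) 3 = a := rfl
  have d4 : (![x, y, u, a, b] : Fin 5 → K) 4 = b := rfl
  constructor
  · simp only [Bh, cc, g, Fin.sum_univ_two]
    norm_num [d2, d3, d4]
    linear_combination -hu
  · simp only [Rh, cc, rho, Fin.sum_univ_two]
    norm_num [d2, d3, d4]
    linear_combination -hb
  · intro p q
    fin_cases p <;> fin_cases q <;>
      simp only [Bh, Rh, cc, g, rho, Fin.sum_univ_two] <;> norm_num [d2, d3, d4]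
    · linear_combination hw
    · linear_combination b ^ 2 * hw + (-1 - x ^ 2 - y ^ 2 + x ^ 2 * y ^ 2) * hb
    · linear_combination u ^ 2 * hw + (1 + a ^ 2) * hu
    · linear_combination u ^ 2 * b ^ 2 * hw + (1 + a ^ 2) * b ^ 2 * hu +
        (1 - x ^ 2 - y ^ 2 - x ^ 2 * y ^ 2) * hb

end Pool.Agent.H56.KN
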