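import Pool.Agent.H56.KN.Ex
import Pool.Agent.H56.KN.SCL
import Pool.Agent.H56.KN.VAL
import Pool.Agent.H56.KN.REL

/-!
Part CLX. Points of `X`. `c m i = z (inl (m, i))`. The following multihomogeneous polynomials vanish at the generic point, so at `z` (write `A i j l`, `W p q` for the
variables of the last block): `U₀² g₁ - U₁² g₀`, `B₀² ρ₁ - B₁² ρ₀`, `A i j l x_i' y_j' a_l' - A i' j' l' x_i y_j a_l`, `W p q U_p' B_q' - W p' q' U_p B_q`,
`W p q ² (x_i y_j a_l)² - A i j l ² g_p ρ_q`. So `A i j l = μ x_i y_j a_l`, `W p q = ν U_p B_q` and `(ν U_p B_q)² = μ² g_p ρ_q`; if `μ = 0` then all coordinates of the last block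
vanish, impossible; `w' = ν / μ`. MHom lemmas in `SCL.lean`.
-/

set_option autoImplicit false

namespace Pool.Agent.H56.KN

open MvPolynomial

variable {k : Type} [Field k]

theorem CLX_int {σ β : Type} (bl : σ → β) (n : ℤ) :
    MHom bl 0 ((n : ℤ) : MvPolynomial σ k) := by
  have h := MHom.C (k := k) bl ((n : ℤ) : k)
  rwa [map_intCast] at h

theorem CLX_Bh (c : Fin 2 → Fin 2 → ℤ) :
    MHom bX (2 • Finsupp.single (some 0) 1 + 2 • Finsupp.single (some 1) 1)
      (Bh c (fun i => (X (Sum.inl (0, i)) : MvPolynomial Sg k))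
        (fun i => X (Sum.inl (1, i)))) := by
  unfold Bh
  refine SCL_sum _ _ fun i _ => SCL_sum _ _ fun j _ => ?_
  have h1 := ((MHom.X (k := k) bX (Sum.inl (0, i))).pow 2)
  have h2 := ((MHom.X (k := k) bX (Sum.inl (1, j))).pow 2)
  have h3 := ((CLX_int (k := k) bX (c i j)).mul h1).mul h2
  rw [zero_add] at h3
  exact h3

theorem CLX_Rh (c : Fin 2 → ℤ) :
    MHom bX (2 • Finsupp.single (some 3) 1)
      (Rh c (fun i => (X (Sum.inl (3, i)) : MvPolynomial Sg k))) := by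
  unfold Rh
  refine SCL_sum _ _ fun i _ => ?_
  have h1 := ((MHom.X (k := k) bX (Sum.inl (3, i))).pow 2)
  have h3 := ((CLX_int (k := k) bX (c i)).mul h1)
  rw [zero_add] at h3
  exact h3

theorem CLX_aBh {R : Type} [CommRing R] [Algebra k R] (z : Sg → R) (c : Fin 2 → Fin 2 → ℤ) :
    aeval z (Bh c (fun i => (X (Sum.inl (0, i)) : MvPolynomial Sg k))
        (fun i => X (Sum.inl (1, i)))) =
      Bh c (fun i => z (Sum.inl (0, i))) (fun i => z (Sum.inl (1, i))) := by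
  unfold Bh
  simp only [map_sum, map_mul, map_pow, aeval_X, map_intCast]

theorem CLX_aRh {R : Type} [CommRing R] [Algebra k R] (z : Sg → R) (c : Fin 2 → ℤ) :
    aeval z (Rh c (fun i => (X (Sum.inl (3, i)) : MvPolynomial Sg k))) =
      Rh c (fun i => z (Sum.inl (3, i))) := by
  unfold Rh
  simp only [map_sum, map_mul, map_pow, aeval_X, map_intCast]

theorem cls_X {K : Type} [Field K] [Algebra k K] {x y u a b w : K}
    (hD : Dat k x y u a b w) {z : Sg → k} (hz : z ∈ Var k bX (yX x y u a b w)) :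
    ∃ (c : Fin 5 → Fin 2 → k) (w' μ : k), μ ≠ 0 ∧ (∀ m, ∃ i, c m i ≠ 0) ∧ HRel c w' ∧
      (∀ m i, z (Sum.inl (m, i)) = c m i) ∧
      ∀ s, z (Sum.inr s) = μ * pt c w' (Sum.inr s) := by
  have hR := hrel_gen hD
  obtain ⟨hpt, hz⟩ := hz
  set y0 : Sg → K := yX x y u a b w with hy0
  have hl : ∀ m i, y0 (Sum.inl (m, i)) = cc x y u a b m i := fun m i => rfl
  have hA : ∀ i j l, y0 (Sum.inr (Sum.inl (i, j, l))) =
      cc x y u a b 0 i * cc x y u a b 1 j * cc x y u a b 3 l := fun i j l => rfl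
  have hWW : ∀ p q, y0 (Sum.inr (Sum.inr (p, q))) =
      w * cc x y u a b 2 p * cc x y u a b 4 q := fun p q => rfl
  set c : Fin 5 → Fin 2 → k := fun m i => z (Sum.inl (m, i)) with hc
  have hX : ∀ m i, MHom bX (Finsupp.single (some m) 1)
      (X (Sum.inl (m, i)) : MvPolynomial Sg k) := fun m i => MHom.X bX (Sum.inl (m, i))
  have hXr : ∀ s, MHom bX (Finsupp.single none 1)
      (X (Sum.inr s) : MvPolynomial Sg k) := fun s => MHom.X bX (Sum.inr s)
  -- the relations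
  have r1 : c 2 0 ^ 2 * Bh (g 1) (c 0) (c 1) = c 2 1 ^ 2 * Bh (g 0) (c 0) (c 1) := by
    have h := hz _ (X (Sum.inl (2, 0)) ^ 2 * Bh (g 1) (fun i => (X (Sum.inl (0, i)))) (fun i => X (Sum.inl (1, i)))
      - X (Sum.inl (2, 1)) ^ 2 * Bh (g 0) (fun i => (X (Sum.inl (0, i)))) (fun i => X (Sum.inl (1, i))))
      ((((hX 2 0).pow 2).mul (CLX_Bh (g 1))).sub (((hX 2 1).pow 2).mul (CLX_Bh (g 0)))) (by
        rw [map_sub, map_mul, map_mul, CLX_aBh, CLX_aBh, map_pow, map_pow, aeval_X, aeval_X]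
        exact sub_eq_zero.2 hR.hU)
    rw [map_sub, map_mul, map_mul, CLX_aBh, CLX_aBh, map_pow, map_pow, aeval_X, aeval_X] at h
    exact sub_eq_zero.1 h
  have r2 : c 4 0 ^ 2 * Rh (rho 1) (c 3) = c 4 1 ^ 2 * Rh (rho 0) (c 3) := by
    have h := hz _ (X (Sum.inl (4, 0)) ^ 2 * Rh (rho 1) (fun i => (X (Sum.inl (3, i))))
      - X (Sum.inl (4, 1)) ^ 2 * Rh (rho 0) (fun i => (X (Sum.inl (3, i)))))
      ((((hX 4 0).pow 2).mul (CLX_Rh (rho 1))).sub (((hX 4 1).pow 2).mul (CLX_Rh (rho 0)))) (by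
        rw [map_sub, map_mul, map_mul, CLX_aRh, CLX_aRh, map_pow, map_pow, aeval_X, aeval_X]
        exact sub_eq_zero.2 hR.hE)
    rw [map_sub, map_mul, map_mul, CLX_aRh, CLX_aRh, map_pow, map_pow, aeval_X, aeval_X] at h
    exact sub_eq_zero.1 h
  have r3 : ∀ i j l i' j' l', z (Sum.inr (Sum.inl (i, j, l))) * (c 0 i' * c 1 j' * c 3 l') =
      z (Sum.inr (Sum.inl (i', j', l'))) * (c 0 i * c 1 j * c 3 l) := by
    intro i j l i' j' l'
    have h := hz _ (X (Sum.inr (Sum.inl (i, j, l))) *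
        (X (Sum.inl (0, i')) * X (Sum.inl (1, j')) * X (Sum.inl (3, l')))
      - X (Sum.inr (Sum.inl (i', j', l'))) *
        (X (Sum.inl (0, i)) * X (Sum.inl (1, j)) * X (Sum.inl (3, l))))
      (((hXr _).mul (((hX 0 i').mul (hX 1 j')).mul (hX 3 l'))).sub
        ((hXr _).mul (((hX 0 i).mul (hX 1 j)).mul (hX 3 l)))) (by
        simp only [map_sub, map_mul, aeval_X, hl, hA]
        ring)
    simp only [map_sub, map_mul, aeval_X] at h
    exact sub_eq_zero.1 h
  have r4 : ∀ p q p' q', z (Sum.inr (Sum.inr (p, q))) * (c 2 p' * c 4 q') =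
      z (Sum.inr (Sum.inr (p', q'))) * (c 2 p * c 4 q) := by
    intro p q p' q'
    have h := hz _ (X (Sum.inr (Sum.inr (p, q))) *
        (X (Sum.inl (2, p')) * X (Sum.inl (4, q')))
      - X (Sum.inr (Sum.inr (p', q'))) *
        (X (Sum.inl (2, p)) * X (Sum.inl (4, q))))
      (((hXr _).mul ((hX 2 p').mul (hX 4 q'))).sub
        ((hXr _).mul ((hX 2 p).mul (hX 4 q)))) (by
        simp only [map_sub, map_mul, aeval_X, hl, hWW]
        ring)
    simp only [map_sub, map_mul, aeval_X] at h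
    exact sub_eq_zero.1 h
  have r5 : ∀ p q i j l, z (Sum.inr (Sum.inr (p, q))) ^ 2 * (c 0 i * c 1 j * c 3 l) ^ 2 =
      z (Sum.inr (Sum.inl (i, j, l))) ^ 2 * (Bh (g p) (c 0) (c 1) * Rh (rho q) (c 3)) := by
    intro p q i j l
    have hd1 := ((hXr (Sum.inr (p, q))).pow 2).mul
      ((((hX 0 i).mul (hX 1 j)).mul (hX 3 l)).pow 2)
    have hd2 := ((hXr (Sum.inl (i, j, l))).pow 2).mul ((CLX_Bh (k := k) (g p)).mul (CLX_Rh (rho q)))
    have hd : (2 • Finsupp.single (none : Option (Fin 5)) 1 +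
        2 • (Finsupp.single (some 0) 1 + Finsupp.single (some 1) 1 + Finsupp.single (some 3) 1)) =
        (2 • Finsupp.single (none : Option (Fin 5)) 1 +
          (2 • Finsupp.single (some 0) 1 + 2 • Finsupp.single (some 1) 1 +
            2 • Finsupp.single (some 3) 1)) := by
      rw [smul_add, smul_add]
    rw [hd] at hd1
    have h := hz _ _ (hd1.sub hd2) (by
        rw [map_sub, map_mul, map_mul, map_mul, CLX_aBh, CLX_aRh]
        simp only [map_mul, map_pow, aeval_X]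
        have e1 : y0 (Sum.inr (Sum.inr (p, q))) ^ 2 =
            Bh (g p) (cc x y u a b 0) (cc x y u a b 1) * Rh (rho q) (cc x y u a b 3) := hR.hW p q
        rw [e1, hA]
        have e2 : Bh (g p) (fun i => y0 (Sum.inl (0, i))) (fun i => y0 (Sum.inl (1, i))) =
          Bh (g p) (cc x y u a b 0) (cc x y u a b 1) := rfl
        have e3 : Rh (rho q) (fun i => y0 (Sum.inl (3, i))) = Rh (rho q) (cc x y u a b 3) := rfl
        rw [e2, e3, hl, hl, hl]
        ring)
    rw [map_sub, map_mul, map_mul, map_mul, CLX_aBh, CLX_aRh] at h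
    simp only [map_mul, map_pow, aeval_X] at h
    exact sub_eq_zero.1 h
  -- the points
  have hne : ∀ m, ∃ i, c m i ≠ 0 := by
    intro m
    obtain ⟨s, hs, hs0⟩ := hpt (some m)
    rcases s with ⟨m', i⟩ | s
    · have : m' = m := by
        have := hs
        simp only [bX, Option.some.injEq] at this
        exact this
      subst this
      exact ⟨i, hs0⟩
    · exact absurd hs (by simp [bX])
  obtain ⟨i0, hi0⟩ := hne 0
  obtain ⟨j0, hj0⟩ := hne 1
  obtain ⟨l0, hl0⟩ := hne 3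
  obtain ⟨p0, hp0⟩ := hne 2
  obtain ⟨q0, hq0⟩ := hne 4
  set μ : k := z (Sum.inr (Sum.inl (i0, j0, l0))) / (c 0 i0 * c 1 j0 * c 3 l0) with hμ
  set ν : k := z (Sum.inr (Sum.inr (p0, q0))) / (c 2 p0 * c 4 q0) with hν
  have hd0 : c 0 i0 * c 1 j0 * c 3 l0 ≠ 0 := mul_ne_zero (mul_ne_zero hi0 hj0) hl0
  have hd1 : c 2 p0 * c 4 q0 ≠ 0 := mul_ne_zero hp0 hq0
  have zA : ∀ i j l, z (Sum.inr (Sum.inl (i, j, l))) = μ * (c 0 i * c 1 j * c 3 l) := by
    intro i j l
    rw [hμ, div_mul_eq_mul_div, eq_div_iff hd0]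
    exact r3 i j l i0 j0 l0
  have zW : ∀ p q, z (Sum.inr (Sum.inr (p, q))) = ν * (c 2 p * c 4 q) := by
    intro p q
    rw [hν, div_mul_eq_mul_div, eq_div_iff hd1]
    exact r4 p q p0 q0
  have r6 : ∀ p q, (ν * (c 2 p * c 4 q)) ^ 2 =
      μ ^ 2 * (Bh (g p) (c 0) (c 1) * Rh (rho q) (c 3)) := by
    intro p q
    have h := r5 p q i0 j0 l0
    rw [zA, zW] at h
    have h2 : (c 0 i0 * c 1 j0 * c 3 l0) ^ 2 ≠ 0 := pow_ne_zero 2 hd0
    apply mul_right_cancel₀ h2
    rw [h]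
    ring
  have hμ0 : μ ≠ 0 := by
    intro h0
    have hν0 : ν = 0 := by
      have h := r6 p0 q0
      rw [h0] at h
      have h' : ν * (c 2 p0 * c 4 q0) = 0 := by
        apply pow_eq_zero_iff (two_ne_zero) |>.1
        rw [h]; ring
      exact (mul_eq_zero.1 h').resolve_right hd1
    obtain ⟨s, hs, hs0⟩ := hpt none
    rcases s with s | s | s
    · exact absurd hs (by simp [bX])
    · obtain ⟨i, j, l⟩ := s
      exact hs0 (by rw [zA, h0, zero_mul])
    · obtain ⟨p, q⟩ := s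
      exact hs0 (by rw [zW, hν0, zero_mul])
  refine ⟨c, ν / μ, μ, hμ0, hne, ⟨r1, r2, ?_⟩, fun m i => rfl, ?_⟩
  · intro p q
    have h := r6 p q
    have h2 : μ ^ 2 ≠ 0 := pow_ne_zero 2 hμ0
    apply mul_left_cancel₀ h2
    rw [← h]
    field_simp
  · rintro (⟨i, j, l⟩ | ⟨p, q⟩)
    · exact zA i j l
    · change z (Sum.inr (Sum.inr (p, q))) = μ * (ν / μ * c 2 p * c 4 q)
      rw [zW]
      field_simp

end Pool.Agent.H56.KN
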