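import Pool.Agent.H56.KN.Ex
import Pool.Agent.H56.KN.SCL
import Pool.Agent.H56.KN.VAL

/-!
Part CLY. Points of `Y`: the polynomial `U₀² g₁ - U₁² g₀` is multihomogeneous and vanishes at the generic point.
-/

set_option autoImplicit false

namespace Pool.Agent.H56.KN

open MvPolynomial

variable {k : Type} [Field k]

theorem CLY_Bh (c : Fin 2 → Fin 2 → ℤ) :
    MHom bY (2 • Finsupp.single (0 : Fin 3) 1 + 2 • Finsupp.single (1 : Fin 3) 1)
      (Bh c (fun i => (X (0, i) : MvPolynomial Tg k)) (fun i => X (1, i))) := by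
  unfold Bh
  refine SCL_sum _ _ fun a _ => SCL_sum _ _ fun b _ => ?_
  have e : ((c a b : ℤ) : MvPolynomial Tg k) = C ((c a b : ℤ) : k) := by simp
  rw [e, mul_assoc]
  exact MHom.C_mul _ (((MHom.X bY (0, a)).pow 2).mul ((MHom.X bY (1, b)).pow 2))

theorem cls_Y {L : Type} [Field L] [Algebra k L] {x y u : L} (hD : DatY k x y u)
    {z : Tg → k} (hz : z ∈ Var k bY (yY x y u)) : (∀ m, ∃ i, z (m, i) ≠ 0) ∧
      z (2, 0) ^ 2 * Bh (g 1) (fun i => z (0, i)) (fun i => z (1, i)) =
        z (2, 1) ^ 2 * Bh (g 0) (fun i => z (0, i)) (fun i => z (1, i)) := by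
  constructor
  · intro m
    obtain ⟨⟨m', i⟩, h1, h2⟩ := hz.1 m
    have : m' = m := h1
    subst this
    exact ⟨i, h2⟩
  · have h1 := hz.2 _ ((X (2, 0) : MvPolynomial Tg k) ^ 2 *
        Bh (g 1) (fun i => (X (0, i) : MvPolynomial Tg k)) (fun i => X (1, i)) -
      (X (2, 1) : MvPolynomial Tg k) ^ 2 *
        Bh (g 0) (fun i => (X (0, i) : MvPolynomial Tg k)) (fun i => X (1, i)))
      ((((MHom.X bY (2, 0)).pow 2).mul (CLY_Bh (g 1))).sub
        (((MHom.X bY (2, 1)).pow 2).mul (CLY_Bh (g 0)))) ?_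
    · simp only [map_sub, map_mul, map_pow, aeval_X, Bh, map_sum, map_intCast] at h1
      unfold Bh
      exact sub_eq_zero.1 h1
    · simp only [map_sub, map_mul, map_pow, aeval_X, Bh, map_sum, map_intCast]
      have hu := hD.hu
      simp only [Bq] at hu
      simp only [Fin.sum_univ_two, yY, c3, Matrix.cons_val_zero, Matrix.cons_val_one,
        Matrix.cons_val]
      linear_combination -hu

end Pool.Agent.H56.KN
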