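import Pool.Agent.H56.KN.Ex
import Pool.Agent.H56.KN.SCL
import Pool.Agent.H56.KN.VAL
import Pool.Agent.H56.KN.REL
import Pool.Agent.H56.KN.NEX

/-!
Part CUR. The curve.  `u, w, a` are algebraically independent. Let `R = k[u, w, a]`, `A` the integral closure of `R` in
`K`; it contains `(1 + a²) x`, `(1 + a²) y`, `(1 + a²) b`. By lying over there is a prime `Q` of `A` over the prime
`(w, a)` of `R`. In the domain `A / Q` the classes of these elements are in `k`, and the class of `u` is transcendental.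
-/

set_option autoImplicit false

namespace Pool.Agent.H56.KN

open MvPolynomial

variable {k : Type} [Field k]

theorem CUR_sum {K : Type} [Field K] [Algebra k K] {x y u a b w : K}
    (hD : Dat k x y u a b w) : 2 * (x ^ 2 + y ^ 2) * (1 + a ^ 2) = -(1 + u ^ 2) * w ^ 2 := by
  have h1 := hD.hu
  have h2 := hD.hw
  simp only [Bq, g] at h1 h2
  norm_num at h1 h2
  rw [h2]
  linear_combination (1 + a ^ 2) * h1

theorem CUR_prod {K : Type} [Field K] [Algebra k K] {x y u a b w : K}
    (hD : Dat k x y u a b w) :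
    2 * (x ^ 2 * y ^ 2) * (1 + a ^ 2) = 2 * (1 + a ^ 2) + (1 - u ^ 2) * w ^ 2 := by
  have h1 := hD.hu
  have h2 := hD.hw
  simp only [Bq, g] at h1 h2
  norm_num at h1 h2
  rw [h2]
  linear_combination (1 + a ^ 2) * h1

theorem CUR_quart {K : Type} [Field K] [Algebra k K] (h2 : (2 : K) ≠ 0) {x y u a b w : K}
    (hD : Dat k x y u a b w) (z : K) (hz : z = x ∨ z = y) :
    2 * (1 + a ^ 2) * z ^ 4 + (1 + u ^ 2) * w ^ 2 * z ^ 2 + (2 * (1 + a ^ 2) + (1 - u ^ 2) * w ^ 2) = 0 := by
  have h1 := CUR_sum hD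
  have h3 := CUR_prod hD
  rcases hz with rfl | rfl
  · linear_combination z ^ 2 * h1 - h3
  · linear_combination z ^ 2 * h1 - h3

theorem CUR_ind {K : Type} [Field K] [Algebra k K] (h2 : (2 : k) ≠ 0) {x y u a b w : K}
    (hD : Dat k x y u a b w) : AlgebraicIndependent k ![u, w, a] := by
  obtain ⟨hx0, hy0, hu0, ha0, hb0, hw0, hg0, hg1, h1, h1'⟩ := ne_X hD
  have h2K : (2 : K) ≠ 0 := by
    rw [← map_ofNat (algebraMap k K) 2]
    exact (map_ne_zero _).2 h2
  have hr : Set.range ![u, w, a] = ({u, w, a} : Set K) := by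
    ext t
    simp only [Set.mem_range, Set.mem_insert_iff, Set.mem_singleton_iff]
    constructor
    · rintro ⟨i, rfl⟩
      fin_cases i <;> simp
    · rintro (rfl | rfl | rfl)
      · exact ⟨0, rfl⟩
      · exact ⟨1, rfl⟩
      · exact ⟨2, rfl⟩
  have halg : Algebra.IsAlgebraic (Algebra.adjoin k (Set.range ![u, w, a])) K := by
    rw [hr, ← IntermediateField.isAlgebraic_adjoin_iff_top]
    obtain ⟨E, hE⟩ : ∃ E, E = IntermediateField.adjoin k ({u, w, a} : Set K) := ⟨_, rfl⟩
    rw [← hE]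
    have huE : u ∈ E := by rw [hE]; exact IntermediateField.subset_adjoin k _ (by simp)
    have hwE : w ∈ E := by rw [hE]; exact IntermediateField.subset_adjoin k _ (by simp)
    have haE : a ∈ E := by rw [hE]; exact IntermediateField.subset_adjoin k _ (by simp)
    have h2E : (2 : K) ∈ E := ofNat_mem E 2
    have m1 : 1 + a ^ 2 ∈ E := E.add_mem E.one_mem (pow_mem haE 2)
    have m2 : (1 + u ^ 2) * w ^ 2 ∈ E :=
      E.mul_mem (E.add_mem E.one_mem (pow_mem huE 2)) (pow_mem hwE 2)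
    have m3 : 2 * (1 + a ^ 2) + (1 - u ^ 2) * w ^ 2 ∈ E :=
      E.add_mem (E.mul_mem h2E m1)
        (E.mul_mem (E.sub_mem E.one_mem (pow_mem huE 2)) (pow_mem hwE 2))
    have hz : ∀ z : K, z = x ∨ z = y → IsAlgebraic E z := by
      intro z hz
      have hq := CUR_quart h2K hD z hz
      let q : Polynomial E := Polynomial.C (⟨2 * (1 + a ^ 2), E.mul_mem h2E m1⟩ : E) * Polynomial.X ^ 4 +
        Polynomial.C (⟨_, m2⟩ : E) * Polynomial.X ^ 2 + Polynomial.C (⟨_, m3⟩ : E)
      refine ⟨q, ?_, ?_⟩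
      · intro h0
        have h3 := congrArg (fun r => ((r.coeff 4 : E) : K)) h0
        simp only [q, Polynomial.coeff_add, Polynomial.coeff_C_mul, Polynomial.coeff_X_pow,
          Polynomial.coeff_C] at h3
        norm_num at h3
        exact h3.elim h2K h1
      · simp only [q, map_add, map_mul, map_pow, Polynomial.aeval_C, Polynomial.aeval_X]
        exact hq
    have hb : IsAlgebraic E b := by
      apply IsAlgebraic.of_pow (n := 2) (by norm_num)
      have h3 : b ^ 2 = (1 - a ^ 2) / (1 + a ^ 2) := by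
        rw [eq_div_iff h1]; exact hD.hb
      rw [h3]
      exact isAlgebraic_algebraMap
        (⟨_, E.div_mem (E.sub_mem E.one_mem (pow_mem haE 2)) m1⟩ : E)
    have hall : ∀ t : K, t ∈ algebraicClosure E K := by
      intro t
      have hE' : ∀ t ∈ E, t ∈ algebraicClosure E K := fun t ht =>
        mem_algebraicClosure_iff.2 (isAlgebraic_algebraMap (⟨t, ht⟩ : E))
      have h3 : IntermediateField.adjoin k ({x, y, u, a, b, w} : Set K) ≤
          (algebraicClosure E K).toSubfield.toIntermediateField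
            (fun c => hE' _ (E.algebraMap_mem c)) := by
        rw [IntermediateField.adjoin_le_iff]
        intro t ht
        simp only [Set.mem_insert_iff, Set.mem_singleton_iff] at ht
        rcases ht with rfl | rfl | rfl | rfl | rfl | rfl
        · exact mem_algebraicClosure_iff.2 (hz _ (Or.inl rfl))
        · exact mem_algebraicClosure_iff.2 (hz _ (Or.inr rfl))
        · exact hE' _ huE
        · exact hE' _ haE
        · exact mem_algebraicClosure_iff.2 hb
        · exact hE' _ hwE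
      rw [hD.gen] at h3
      exact h3 IntermediateField.mem_top
    exact ⟨fun t => mem_algebraicClosure_iff.1 (hall t)⟩
  have hle : Cardinal.mk (Fin 3) ≤ Algebra.trdeg k K := by
    exact hD.ind.cardinalMk_le_trdeg
  exact (Algebra.IsAlgebraic.isTranscendenceBasis_of_le_trdeg_of_finite k ![u, w, a] hle).1

/-- the generic point with denominators cleared -/
def CUR_pt {R : Type} [CommRing R] (x1 y1 u a b1 w n : R) : Sg → R
  | Sum.inl (m, i) => ![![n, x1], ![n, y1], ![1, u], ![1, a], ![n, b1]] m i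
  | Sum.inr (Sum.inl (i, j, l)) => ![n, x1] i * ![n, y1] j * ![1, a] l
  | Sum.inr (Sum.inr (p, q)) => w * ![1, u] p * ![n, b1] q * n

theorem CUR_pt_map {R S : Type} [CommRing R] [CommRing S] (φ : R →+* S)
    (x1 y1 u a b1 w n : R) (s : Sg) : φ (CUR_pt x1 y1 u a b1 w n s) =
      CUR_pt (φ x1) (φ y1) (φ u) (φ a) (φ b1) (φ w) (φ n) s := by
  rcases s with ⟨m, i⟩ | ⟨i, j, l⟩ | ⟨p, q⟩
  · fin_cases m <;> fin_cases i <;> simp [CUR_pt]
  · fin_cases i <;> fin_cases j <;> fin_cases l <;> simp [CUR_pt]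
  · fin_cases p <;> fin_cases q <;> simp [CUR_pt]

/-- the scaling -/
def CUR_sc {R : Type} [CommRing R] (n : R) : Option (Fin 5) → R
  | none => n ^ 2
  | some m => ![n, n, 1, 1, n] m

theorem CUR_pt_scale {R : Type} [CommRing R] (x y u a b w n : R) (s : Sg) :
    CUR_pt (n * x) (n * y) u a (n * b) w n s = CUR_sc n (bX s) * yX x y u a b w s := by
  rcases s with ⟨m, i⟩ | ⟨i, j, l⟩ | ⟨p, q⟩
  · fin_cases m <;> fin_cases i <;> simp [CUR_pt, CUR_sc, bX, yX, pt, cc]
  · fin_cases i <;> fin_cases j <;> fin_cases l <;>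
      simp [CUR_pt, CUR_sc, bX, yX, pt, cc] <;> ring
  · fin_cases p <;> fin_cases q <;> simp [CUR_pt, CUR_sc, bX, yX, pt, cc] <;> ring

/-- the curve over the point `(1 : T)` -/
theorem CUR_pt_crv {R : Type} [CommRing R] [Algebra k R] (xs ys bs : k) (T : R) (s : Sg) :
    aeval ![1, T] (crv xs ys bs s) =
      CUR_pt (algebraMap k R xs) (algebraMap k R ys) T 0 (algebraMap k R bs) 0 1 s := by
  rcases s with ⟨m, i⟩ | ⟨i, j, l⟩ | ⟨p, q⟩
  · fin_cases m <;> fin_cases i <;> simp [CUR_pt, crv]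
  · fin_cases i <;> fin_cases j <;> fin_cases l <;> simp [CUR_pt, crv]
  · simp [CUR_pt, crv]

/-- scaling on the curve -/
theorem CUR_crv_scale (xs ys bs : k) (t : Fin 2 → k) (h0 : t 0 ≠ 0) (s : Sg) :
    at' (crv xs ys bs) t s =
      (fun b => if b = some 2 then t 0 else 1) (bX s) *
        aeval ![1, t 1 / t 0] (crv xs ys bs s) := by
  unfold at'
  rcases s with ⟨m, i⟩ | ⟨i, j, l⟩ | ⟨p, q⟩
  · fin_cases m <;> fin_cases i <;> simp [crv, bX, h0, mul_div_cancel₀]
  · fin_cases i <;> fin_cases j <;> fin_cases l <;> simp [crv, bX]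
  · simp [crv, bX]

theorem CUR_spec {K : Type} [Field K] [Algebra k K] [IsAlgClosed k] (h2 : (2 : k) ≠ 0)
    {x y u a b w : K} (hD : Dat k x y u a b w) :
    ∃ xs ys bs : k, ∀ (d : Option (Fin 5) →₀ ℕ) (P : MvPolynomial Sg k), MHom bX d P →
      aeval (yX x y u a b w) P = 0 →
      aeval (fun s => aeval ![1, (Polynomial.X : Polynomial k)] (crv xs ys bs s)) P = 0 := by
  classical
  have h2K : (2 : K) ≠ 0 := by
    rw [← map_ofNat (algebraMap k K) 2]
    exact (map_ne_zero _).2 h2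
  let R := MvPolynomial (Fin 3) k
  let φ : R →ₐ[k] K := aeval ![u, w, a]
  letI : Algebra R K := φ.toRingHom.toAlgebra
  haveI : IsScalarTower k R K := IsScalarTower.of_algebraMap_eq (fun c => (φ.commutes c).symm)
  have hφ : ∀ r : R, algebraMap R K r = φ r := fun r => rfl
  have hinjR : Function.Injective (algebraMap R K) := CUR_ind h2 hD
  have e0 : algebraMap R K (X 0) = u := aeval_X _ _
  have e1 : algebraMap R K (X 1) = w := aeval_X _ _
  have e2 : algebraMap R K (X 2) = a := aeval_X _ _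
  have eC : ∀ c : k, algebraMap R K (C c) = algebraMap k K c := fun c => aeval_C _ _
  have half : algebraMap k K 2⁻¹ * 2 = 1 := by
    rw [← map_ofNat (algebraMap k K) 2, ← map_mul, inv_mul_cancel₀ h2, map_one]
  -- integral elements
  have iz : ∀ z : K, z = x ∨ z = y → IsIntegral R ((1 + a ^ 2) * z) := by
    intro z hz
    have hq := CUR_quart h2K hD z hz
    let c2 : R := C 2⁻¹ * (1 + X 0 ^ 2) * X 1 ^ 2 * (1 + X 2 ^ 2)
    let c0 : R := (1 + X 2 ^ 2) ^ 4 + C 2⁻¹ * (1 - X 0 ^ 2) * X 1 ^ 2 * (1 + X 2 ^ 2) ^ 3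
    refine ⟨Polynomial.X ^ 4 + (Polynomial.C c2 * Polynomial.X ^ 2 + Polynomial.C c0), ?_, ?_⟩
    · apply Polynomial.monic_X_pow_add
      have : (Polynomial.C c2 * Polynomial.X ^ 2 + Polynomial.C c0).degree ≤ 2 := by
        compute_degree
      exact lt_of_le_of_lt this (by norm_num)
    · rw [Polynomial.eval₂_add, Polynomial.eval₂_add, Polynomial.eval₂_mul,
        Polynomial.eval₂_pow, Polynomial.eval₂_pow, Polynomial.eval₂_X, Polynomial.eval₂_C,
        Polynomial.eval₂_C]
      simp only [c2, c0, map_add, map_mul, map_sub, map_pow, map_one, e0, e1, e2, eC]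
      linear_combination (algebraMap k K 2⁻¹ * (1 + a ^ 2) ^ 3) * hq -
        ((1 + a ^ 2) ^ 4 * z ^ 4 + (1 + a ^ 2) ^ 4) * half
  have ib : IsIntegral R ((1 + a ^ 2) * b) := by
    apply IsIntegral.of_pow (n := 2) (by norm_num)
    have h3 : ((1 + a ^ 2) * b) ^ 2 = algebraMap R K ((1 - X 2 ^ 2) * (1 + X 2 ^ 2)) := by
      simp only [map_add, map_mul, map_sub, map_pow, map_one, e2]
      linear_combination (1 + a ^ 2) * hD.hb
    rw [h3]
    exact isIntegral_algebraMap
  let A := integralClosure R K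
  let x1 : A := ⟨(1 + a ^ 2) * x, iz x (Or.inl rfl)⟩
  let y1 : A := ⟨(1 + a ^ 2) * y, iz y (Or.inr rfl)⟩
  let b1 : A := ⟨(1 + a ^ 2) * b, ib⟩
  have ca : ∀ r : R, ((algebraMap R A r : A) : K) = algebraMap R K r := fun r => rfl
  -- the prime of `R`
  let ψ : R →ₐ[k] Polynomial k := aeval ![Polynomial.X, 0, 0]
  let P : Ideal R := RingHom.ker (ψ : R →+* Polynomial k)
  haveI hP : P.IsPrime := RingHom.ker_isPrime _
  have hPm : ∀ r : R, r ∈ P ↔ ψ r = 0 := fun r => Iff.rfl
  have hker : RingHom.ker (algebraMap R A) ≤ P := by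
    intro r hr
    have h3 : algebraMap R K r = 0 := by
      rw [← ca, RingHom.mem_ker.1 hr]; rfl
    have h4 : r = 0 := hinjR (by rw [h3, map_zero])
    rw [h4]
    exact P.zero_mem
  obtain ⟨Q, hQ, hQP⟩ := Ideal.exists_ideal_over_prime_of_isIntegral_of_isDomain P hker
  haveI := hQ
  have hQm : ∀ r : R, algebraMap R A r ∈ Q ↔ ψ r = 0 := by
    intro r
    rw [← hPm, ← hQP]
    exact Iff.rfl
  let π : A →ₐ[k] (A ⧸ Q) := Ideal.Quotient.mkₐ k Q
  have hπ : ∀ r : R, π (algebraMap R A r) = 0 ↔ ψ r = 0 := by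
    intro r
    rw [← hQm]
    exact Ideal.Quotient.eq_zero_iff_mem
  have hπw : π (algebraMap R A (X 1)) = 0 := (hπ _).2 (aeval_X _ _)
  have hπa : π (algebraMap R A (X 2)) = 0 := (hπ _).2 (aeval_X _ _)
  -- relations
  have r1 : 2 * (x1 ^ 2 + y1 ^ 2) = -(1 + (algebraMap R A (X 0)) ^ 2) * (algebraMap R A (X 1)) ^ 2 *
      (1 + (algebraMap R A (X 2)) ^ 2) := by
    apply Subtype.ext
    change 2 * (((1 + a ^ 2) * x) ^ 2 + ((1 + a ^ 2) * y) ^ 2) =
      -(1 + (algebraMap R K (X 0)) ^ 2) * (algebraMap R K (X 1)) ^ 2 *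
      (1 + (algebraMap R K (X 2)) ^ 2)
    rw [e0, e1, e2]
    linear_combination (1 + a ^ 2) * CUR_sum hD
  have r2 : 2 * (x1 ^ 2 * y1 ^ 2) = 2 * (1 + (algebraMap R A (X 2)) ^ 2) ^ 4 +
      (1 - (algebraMap R A (X 0)) ^ 2) * (algebraMap R A (X 1)) ^ 2 *
      (1 + (algebraMap R A (X 2)) ^ 2) ^ 3 := by
    apply Subtype.ext
    change 2 * (((1 + a ^ 2) * x) ^ 2 * ((1 + a ^ 2) * y) ^ 2) =
      2 * (1 + (algebraMap R K (X 2)) ^ 2) ^ 4 +
      (1 - (algebraMap R K (X 0)) ^ 2) * (algebraMap R K (X 1)) ^ 2 *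
      (1 + (algebraMap R K (X 2)) ^ 2) ^ 3
    rw [e0, e1, e2]
    linear_combination (1 + a ^ 2) ^ 3 * CUR_prod hD
  have r3 : b1 ^ 2 = (1 - (algebraMap R A (X 2)) ^ 2) * (1 + (algebraMap R A (X 2)) ^ 2) := by
    apply Subtype.ext
    change ((1 + a ^ 2) * b) ^ 2 =
      (1 - (algebraMap R K (X 2)) ^ 2) * (1 + (algebraMap R K (X 2)) ^ 2)
    rw [e2]
    linear_combination (1 + a ^ 2) * hD.hb
  have h2D : (2 : A ⧸ Q) ≠ 0 := by
    rw [← map_ofNat (algebraMap k (A ⧸ Q)) 2]
    exact (map_ne_zero _).2 h2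
  have q1 : (π x1) ^ 2 + (π y1) ^ 2 = 0 := by
    have h3 := congrArg π r1
    simp only [map_mul, map_add, map_neg, map_pow, map_one, hπw, hπa, map_ofNat] at h3
    rw [zero_pow two_ne_zero, mul_zero, zero_mul] at h3
    exact (mul_eq_zero.1 h3).resolve_left h2D
  have q2 : (π x1) ^ 2 * (π y1) ^ 2 = 1 := by
    have h3 := congrArg π r2
    simp only [map_mul, map_add, map_sub, map_pow, map_one, hπw, hπa, map_ofNat] at h3
    apply mul_left_cancel₀ h2D
    rw [h3]
    ring
  have q3 : (π b1) ^ 2 = 1 := by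
    have h3 := congrArg π r3
    simp only [map_mul, map_add, map_sub, map_pow, map_one, hπa] at h3
    rw [h3]
    ring
  obtain ⟨i, hi⟩ := IsAlgClosed.exists_pow_nat_eq (-1 : k) (n := 2) (by norm_num)
  obtain ⟨s1, hs1⟩ := IsAlgClosed.exists_pow_nat_eq i (n := 2) (by norm_num)
  obtain ⟨s2, hs2⟩ := IsAlgClosed.exists_pow_nat_eq (-i) (n := 2) (by norm_num)
  have root : ∀ ζ : A ⧸ Q, ζ ^ 4 = -1 → ∃ c : k, algebraMap k (A ⧸ Q) c = ζ := by
    intro ζ hζ
    have g0 := congrArg (algebraMap k (A ⧸ Q)) hi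
    have g1 := congrArg (algebraMap k (A ⧸ Q)) hs1
    have g2 := congrArg (algebraMap k (A ⧸ Q)) hs2
    rw [map_pow] at g0 g1 g2
    rw [map_neg] at g0 g2
    rw [map_one] at g0
    have h3 : (ζ - algebraMap k (A ⧸ Q) s1) * (ζ + algebraMap k (A ⧸ Q) s1) *
        ((ζ - algebraMap k (A ⧸ Q) s2) * (ζ + algebraMap k (A ⧸ Q) s2)) = 0 := by
      have h4 : (ζ - algebraMap k (A ⧸ Q) s1) * (ζ + algebraMap k (A ⧸ Q) s1) *
        ((ζ - algebraMap k (A ⧸ Q) s2) * (ζ + algebraMap k (A ⧸ Q) s2)) =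
        (ζ ^ 2 - (algebraMap k (A ⧸ Q) s1) ^ 2) * (ζ ^ 2 - (algebraMap k (A ⧸ Q) s2) ^ 2) := by ring
      rw [h4, g1, g2]
      linear_combination hζ - g0
    rcases mul_eq_zero.1 h3 with h4 | h4
    · rcases mul_eq_zero.1 h4 with h5 | h5
      · exact ⟨s1, (sub_eq_zero.1 h5).symm⟩
      · exact ⟨-s1, by rw [map_neg]; exact (eq_neg_of_add_eq_zero_left h5).symm⟩
    · rcases mul_eq_zero.1 h4 with h5 | h5
      · exact ⟨s2, (sub_eq_zero.1 h5).symm⟩
      · exact ⟨-s2, by rw [map_neg]; exact (eq_neg_of_add_eq_zero_left h5).symm⟩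
  obtain ⟨xs, hxs⟩ := root (π x1) (by linear_combination (π x1) ^ 2 * q1 - q2)
  obtain ⟨ys, hys⟩ := root (π y1) (by linear_combination (π y1) ^ 2 * q1 - q2)
  obtain ⟨bs, hbs⟩ : ∃ c : k, algebraMap k (A ⧸ Q) c = π b1 := by
    have h3 : (π b1 - 1) * (π b1 + 1) = 0 := by linear_combination q3
    rcases mul_eq_zero.1 h3 with h5 | h5
    · exact ⟨1, by rw [map_one]; exact (sub_eq_zero.1 h5).symm⟩
    · exact ⟨-1, by rw [map_neg, map_one]; exact (eq_neg_of_add_eq_zero_left h5).symm⟩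
  -- the class of `u` is transcendental
  let υ : A ⧸ Q := π (algebraMap R A (X 0))
  have hυ : Function.Injective (Polynomial.aeval (R := k) υ) := by
    rw [injective_iff_map_eq_zero]
    intro p hp
    let τ : R →ₐ[k] (A ⧸ Q) := π.comp (IsScalarTower.toAlgHom k R A)
    have h3 : Polynomial.aeval υ p = τ (Polynomial.aeval (X 0 : R) p) :=
      Polynomial.aeval_algHom_apply τ (X 0) p
    rw [h3] at hp
    have h4 : ψ (Polynomial.aeval (X 0 : R) p) = 0 := (hπ _).1 hp
    rw [← Polynomial.aeval_algHom_apply] at h4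
    have h5 : ψ (X 0) = Polynomial.X := aeval_X _ _
    rw [h5, Polynomial.aeval_X_left_apply] at h4
    exact h4
  refine ⟨xs, ys, bs, ?_⟩
  intro d F hF h0
  let n1 : A := 1 + (algebraMap R A (X 2)) ^ 2
  let pt' : Sg → A := CUR_pt x1 y1 (algebraMap R A (X 0)) (algebraMap R A (X 2)) b1
    (algebraMap R A (X 1)) n1
  let j1 : A →ₐ[k] K := A.val.restrictScalars k
  have hj1 : ∀ s, j1 (pt' s) = CUR_sc (1 + a ^ 2) (bX s) * yX x y u a b w s := by
    intro s
    have h3 := CUR_pt_map (j1 : A →+* K) x1 y1 (algebraMap R A (X 0)) (algebraMap R A (X 2)) b1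
      (algebraMap R A (X 1)) n1 s
    have h4 : (j1 : A →+* K) n1 = 1 + a ^ 2 := by
      change 1 + (algebraMap R K (X 2)) ^ 2 = _
      rw [e2]
    rw [h4] at h3
    change j1 (pt' s) = CUR_pt ((1 + a ^ 2) * x) ((1 + a ^ 2) * y) (algebraMap R K (X 0))
      (algebraMap R K (X 2)) ((1 + a ^ 2) * b) (algebraMap R K (X 1)) (1 + a ^ 2) s at h3
    rw [h3, e0, e1, e2, CUR_pt_scale]
  have v1 : aeval (fun s => j1 (pt' s)) F = 0 := by
    have h3 : (fun s => j1 (pt' s)) = fun s => CUR_sc (1 + a ^ 2) (bX s) * yX x y u a b w s :=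
      funext hj1
    rw [h3, aeval_scale hF, h0, mul_zero]
  rw [SCL_aeval_hom] at v1
  have v2 : aeval pt' F = 0 := Subtype.ext v1
  have v3 : aeval (fun s => π (pt' s)) F = 0 := by
    rw [SCL_aeval_hom, v2, map_zero]
  have v4 : ∀ s, π (pt' s) = Polynomial.aeval υ
      (aeval ![1, (Polynomial.X : Polynomial k)] (crv xs ys bs s)) := by
    intro s
    have h3 := CUR_pt_map (π : A →+* (A ⧸ Q)) x1 y1 (algebraMap R A (X 0)) (algebraMap R A (X 2)) b1
      (algebraMap R A (X 1)) n1 s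
    have h4 : (π : A →+* (A ⧸ Q)) n1 = 1 := by
      change π n1 = 1
      simp only [n1, map_add, map_one, map_pow, hπa]
      ring
    rw [h4] at h3
    change π (pt' s) = CUR_pt (π x1) (π y1) υ (π (algebraMap R A (X 2))) (π b1)
      (π (algebraMap R A (X 1))) 1 s at h3
    rw [h3, hπa, hπw, ← hxs, ← hys, ← hbs, ← CUR_pt_crv]
    have h5 := SCL_aeval_hom (Polynomial.aeval (R := k) υ) ![1, (Polynomial.X : Polynomial k)]
      (crv xs ys bs s)
    rw [← h5]
    congr 2
    funext m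
    fin_cases m <;> simp
  have v5 : aeval (fun s => Polynomial.aeval υ
      (aeval ![1, (Polynomial.X : Polynomial k)] (crv xs ys bs s))) F = 0 := by
    rw [← v3]
    congr 2
    funext s
    exact (v4 s).symm
  rw [SCL_aeval_hom (Polynomial.aeval (R := k) υ)] at v5
  exact hυ (by rw [v5, map_zero])

theorem exists_curve {K : Type} [Field K] [Algebra k K] [IsAlgClosed k] (h2 : (2 : k) ≠ 0)
    {x y u a b w : K} (hD : Dat k x y u a b w) :
    ∃ xs ys bs : k, IsRatCurve k bX (yX x y u a b w) (crv xs ys bs) := by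
  classical
  obtain ⟨xs, ys, bs, h⟩ := CUR_spec h2 hD
  refine ⟨xs, ys, bs, ?_, ?_, ?_⟩
  · refine ⟨fun b => if b = some 2 then 1 else 0, ?_⟩
    rintro (⟨m, i⟩ | ⟨i, j, l⟩ | ⟨p, q⟩)
    · by_cases hm : m = 2
      · subst hm
        simp only [crv, bX, if_true]
        exact isHomogeneous_X k i
      · simp only [crv, bX, hm, if_false, Option.some.injEq]
        exact isHomogeneous_C _ _
    · simp only [crv, bX, reduceCtorEq, if_false]
      exact isHomogeneous_C _ _
    · simp only [crv, bX, reduceCtorEq, if_false]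
      exact isHomogeneous_zero _ _ _
  · intro t ht
    constructor
    · rintro (_ | m)
      · refine ⟨Sum.inr (Sum.inl (0, 0, 0)), rfl, ?_⟩
        simp [at', crv]
      · by_cases hm : m = 2
        · subst hm
          obtain ⟨i, hi⟩ : ∃ i, t i ≠ 0 := by
            by_contra hcon
            push Not at hcon
            exact ht (funext hcon)
          exact ⟨Sum.inl (2, i), rfl, by simpa [at', crv] using hi⟩
        · refine ⟨Sum.inl (m, 0), rfl, ?_⟩
          fin_cases m <;> first | exact absurd rfl hm | simp [at', crv]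
    · intro d F hF h0
      have h1 := h d F hF h0
      -- for `t 0 ≠ 0`
      have key : ∀ t : Fin 2 → k, t 0 ≠ 0 → aeval (at' (crv xs ys bs) t) F = 0 := by
        intro t ht0
        obtain ⟨sc, hsc⟩ : ∃ sc : Option (Fin 5) → k, sc = fun b => if b = some 2 then t 0 else 1 :=
          ⟨_, rfl⟩
        have e1 : at' (crv xs ys bs) t = fun s => sc (bX s) *
            (Polynomial.aeval (R := k) (t 1 / t 0))
              (aeval ![1, (Polynomial.X : Polynomial k)] (crv xs ys bs s)) := by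
          funext s
          rw [CUR_crv_scale xs ys bs t ht0 s, hsc]
          congr 1
          have h5 := SCL_aeval_hom (Polynomial.aeval (R := k) (t 1 / t 0))
            ![1, (Polynomial.X : Polynomial k)] (crv xs ys bs s)
          rw [← h5]
          congr 2
          funext m
          fin_cases m <;> simp
        rw [e1, aeval_scale hF, SCL_aeval_hom (Polynomial.aeval (R := k) (t 1 / t 0)), h1, map_zero,
          mul_zero]
      have e2 : ∀ t : Fin 2 → k, aeval (at' (crv xs ys bs) t) F =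
          eval t (aeval (crv xs ys bs) F) := by
        intro t
        have h5 := SCL_aeval_hom (aeval t : MvPolynomial (Fin 2) k →ₐ[k] k) (crv xs ys bs) F
        rw [aeval_eq_eval] at h5
        exact h5
      have e3 : X 0 * aeval (crv xs ys bs) F = (0 : MvPolynomial (Fin 2) k) := by
        haveI : Infinite k := IsAlgClosed.instInfinite
        apply MvPolynomial.funext
        intro t
        rw [map_mul, eval_X, map_zero]
        by_cases ht0 : t 0 = 0
        · rw [ht0, zero_mul]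
        · rw [← e2, key t ht0, mul_zero]
      rcases mul_eq_zero.1 e3 with e4 | e4
      · exact absurd e4 (X_ne_zero 0)
      · rw [e2, e4, map_zero]
  · intro hS
    have h1 := hS (Sum.inl (2, 0)) (Sum.inl (2, 1)) rfl
    simp [at', crv] at h1

end Pool.Agent.H56.KN
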