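import Pool.Agent.H56.KN.Ex
import Pool.Agent.H56.KN.SCL
import Pool.Agent.H56.KN.VAL
import Pool.Agent.H56.KN.NEX

/-!
Part ETX. The form `η` does not depend on the chart, up to sign. Going to another chart is a composition of inversions of the coordinates: `x' = x⁻¹`, `P' = x⁻² P`,
`dx' = -x⁻² dx`; the same for `y`; `u' = u⁻¹`, `P' = u² P`; `a' = a⁻¹`, `R' = a⁻² R`, `da' = -a⁻² da`; `b' = b⁻¹`, `R' = b² R`. `cc x y u a b m 0 = 1`. `fin_cases`
on the five values of `i` may be slow: better five small lemmas on `etX`.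
-/

set_option autoImplicit false

namespace Pool.Agent.H56.KN

open MvPolynomial

variable {k : Type} [Field k]

/-- the local coordinate -/
def ETX_s {K : Type} [Field K] (e : Fin 2) (x : K) : K := if e = 0 then x else x⁻¹

/-- the scaling factor -/
def ETX_t {K : Type} [Field K] (e : Fin 2) (x : K) : K := if e = 0 then 1 else x⁻¹

/-- the sign -/
def ETX_sg {K : Type} [Field K] (e : Fin 2) : K := if e = 0 then 1 else -1

theorem ETX_lc {F : Type} [Field F] {n : ℕ} (c : Fin n → Fin 2 → F) (i : Fin n → Fin 2)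
    (m : Fin n) (h : c m 0 = 1) : lc c i m = ETX_s (i m) (c m 1) := by
  unfold lc ETX_s
  generalize i m = e
  fin_cases e
  · simp [h]
  · simp [h]

theorem ETX_D {K : Type} [Field K] [Algebra k K] (e : Fin 2) (x : K) :
    KaehlerDifferential.D k K (ETX_s e x) =
      (ETX_sg e * ETX_t e x ^ 2) • KaehlerDifferential.D k K x := by
  fin_cases e
  · simp [ETX_s, ETX_sg, ETX_t]
  · simp only [ETX_s, ETX_sg, ETX_t, Fin.mk_one, Fin.isValue, one_ne_zero, if_false]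
    rw [Derivation.leibniz_inv]
    congr 1
    ring

theorem ETX_upd {K : Type} [Field K] [Algebra k K] {p : ℕ} (u : Fin p → K) (j : Fin p)
    (z c : K) (h : KaehlerDifferential.D k K z = c • KaehlerDifferential.D k K (u j)) :
    dd k (Function.update u j z) = c • dd k u := by
  unfold dd
  have e : (fun i => KaehlerDifferential.D k K (Function.update u j z i)) =
      Function.update (fun i => KaehlerDifferential.D k K (u i)) j
        (c • KaehlerDifferential.D k K (u j)) := by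
    funext i
    by_cases hi : i = j
    · subst hi
      simp [h]
    · simp [hi]
  rw [e, AlternatingMap.map_update_smul]
  congr 1
  rw [Function.update_eq_self]

theorem ETX_dd3 {K : Type} [Field K] [Algebra k K] (e0 e1 e2 : Fin 2) (x y a : K) :
    dd k ![ETX_s e0 x, ETX_s e1 y, ETX_s e2 a] =
      (ETX_sg e0 * ETX_t e0 x ^ 2 * (ETX_sg e1 * ETX_t e1 y ^ 2) *
        (ETX_sg e2 * ETX_t e2 a ^ 2)) • dd k ![x, y, a] := by
  have h0 : Function.update ![x, ETX_s e1 y, ETX_s e2 a] 0 (ETX_s e0 x) =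
      ![ETX_s e0 x, ETX_s e1 y, ETX_s e2 a] := by
    funext i; fin_cases i <;> rfl
  have h1 : Function.update ![x, y, ETX_s e2 a] 1 (ETX_s e1 y) =
      ![x, ETX_s e1 y, ETX_s e2 a] := by
    funext i; fin_cases i <;> rfl
  have h2 : Function.update ![x, y, a] 2 (ETX_s e2 a) = ![x, y, ETX_s e2 a] := by
    funext i; fin_cases i <;> rfl
  have k0 := ETX_upd (k := k) ![x, ETX_s e1 y, ETX_s e2 a] 0 (ETX_s e0 x)
    (ETX_sg e0 * ETX_t e0 x ^ 2) (ETX_D e0 x)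
  have k1 := ETX_upd (k := k) ![x, y, ETX_s e2 a] 1 (ETX_s e1 y)
    (ETX_sg e1 * ETX_t e1 y ^ 2) (ETX_D e1 y)
  have k2 := ETX_upd (k := k) ![x, y, a] 2 (ETX_s e2 a)
    (ETX_sg e2 * ETX_t e2 a ^ 2) (ETX_D e2 a)
  rw [h0] at k0
  rw [h1] at k1
  rw [h2] at k2
  rw [k0, k1, k2, smul_smul, smul_smul]

theorem ETX_dd2 {K : Type} [Field K] [Algebra k K] (e0 e1 : Fin 2) (x y : K) :
    dd k ![ETX_s e0 x, ETX_s e1 y] =
      (ETX_sg e0 * ETX_t e0 x ^ 2 * (ETX_sg e1 * ETX_t e1 y ^ 2)) • dd k ![x, y] := by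
  have h0 : Function.update ![x, ETX_s e1 y] 0 (ETX_s e0 x) =
      ![ETX_s e0 x, ETX_s e1 y] := by
    funext i; fin_cases i <;> rfl
  have h1 : Function.update ![x, y] 1 (ETX_s e1 y) = ![x, ETX_s e1 y] := by
    funext i; fin_cases i <;> rfl
  have k0 := ETX_upd (k := k) ![x, ETX_s e1 y] 0 (ETX_s e0 x)
    (ETX_sg e0 * ETX_t e0 x ^ 2) (ETX_D e0 x)
  have k1 := ETX_upd (k := k) ![x, y] 1 (ETX_s e1 y)
    (ETX_sg e1 * ETX_t e1 y ^ 2) (ETX_D e1 y)
  rw [h0] at k0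
  rw [h1] at k1
  rw [k0, k1, smul_smul]

theorem ETX_Bq {K : Type} [Field K] (c : Fin 2 → Fin 2 → ℤ) (e0 e1 : Fin 2) {x y : K}
    (hx : x ≠ 0) (hy : y ≠ 0) :
    Bq (sh c e0 e1) (ETX_s e0 x) (ETX_s e1 y) =
      ETX_t e0 x ^ 2 * ETX_t e1 y ^ 2 * Bq c x y := by
  fin_cases e0 <;> fin_cases e1 <;> simp [Bq, sh, ETX_s, ETX_t] <;> field_simp <;> ring

theorem ETX_Rq {K : Type} [Field K] (c : Fin 2 → ℤ) (e : Fin 2) {a : K} (ha : a ≠ 0) :
    Rq (shr c e) (ETX_s e a) = ETX_t e a ^ 2 * Rq c a := by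
  fin_cases e <;> simp [Rq, shr, ETX_s, ETX_t] <;> field_simp <;> ring

theorem ETX_u {K : Type} [Field K] (e : Fin 2) {x y u : K} (hu0 : u ≠ 0)
    (hu : u ^ 2 * Bq (g 0) x y = Bq (g 1) x y) :
    ETX_s e u * Bq (g e) x y = u * Bq (g 0) x y := by
  fin_cases e
  · simp [ETX_s]
  · simp only [ETX_s, Fin.mk_one, Fin.isValue, one_ne_zero, if_false]
    rw [← hu]
    field_simp

theorem ETX_b {K : Type} [Field K] (e : Fin 2) {a b : K} (hb0 : b ≠ 0)
    (hb : b ^ 2 * (1 + a ^ 2) = 1 - a ^ 2) :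
    ETX_s e b * Rq (rho e) a = b * Rq (rho 0) a := by
  fin_cases e
  · simp [ETX_s]
  · have h1 : Rq (rho 1) a = 1 - a ^ 2 := by simp [Rq, rho]; ring
    have h0 : Rq (rho 0) a = 1 + a ^ 2 := by simp [Rq, rho]
    simp only [ETX_s, Fin.mk_one, Fin.isValue, one_ne_zero, if_false]
    rw [h0, h1, ← hb]
    field_simp

theorem ETX_t_ne {K : Type} [Field K] (e : Fin 2) {x : K} (hx : x ≠ 0) : ETX_t e x ≠ 0 := by
  fin_cases e <;> simp [ETX_t, hx]

theorem ETX_sg_or {K : Type} [Field K] (e : Fin 2) : (ETX_sg e : K) = 1 ∨ (ETX_sg e : K) = -1 := by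
  fin_cases e <;> simp [ETX_sg]

theorem etC_eq {K : Type} [Field K] [Algebra k K] {x y u a b w : K}
    (hD : Dat k x y u a b w) (i : Fin 5 → Fin 2) :
    etC k (cc x y u a b) i = etX k (g 0) (rho 0) x y u a b ∨
      etC k (cc x y u a b) i = -etX k (g 0) (rho 0) x y u a b := by
  obtain ⟨hx, hy, hu, ha, hb, -, -, -, -, -⟩ := ne_X hD
  have l0 : lc (cc x y u a b) i 0 = ETX_s (i 0) x := ETX_lc _ i 0 (by simp [cc])
  have l1 : lc (cc x y u a b) i 1 = ETX_s (i 1) y := ETX_lc _ i 1 (by simp [cc])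
  have l2 : lc (cc x y u a b) i 2 = ETX_s (i 2) u := ETX_lc _ i 2 (by simp [cc])
  have l3 : lc (cc x y u a b) i 3 = ETX_s (i 3) a := ETX_lc _ i 3 (by simp [cc])
  have l4 : lc (cc x y u a b) i 4 = ETX_s (i 4) b := ETX_lc _ i 4 (by simp [cc])
  have key : etC k (cc x y u a b) i =
      (ETX_sg (i 0) * ETX_sg (i 1) * ETX_sg (i 3) : K) • etX k (g 0) (rho 0) x y u a b := by
    unfold etC etX
    rw [l0, l1, l2, l3, l4, ETX_dd3, ETX_Bq _ _ _ hx hy, ETX_Rq _ _ ha, smul_smul, smul_smul]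
    congr 1
    have t0 := ETX_t_ne (i 0) hx
    have t1 := ETX_t_ne (i 1) hy
    have t3 := ETX_t_ne (i 3) ha
    have e1 : ETX_s (i 2) u * (ETX_t (i 0) x ^ 2 * ETX_t (i 1) y ^ 2 * Bq (g (i 2)) x y) *
        (ETX_s (i 4) b * (ETX_t (i 3) a ^ 2 * Rq (rho (i 4)) a)) =
        (ETX_t (i 0) x ^ 2 * ETX_t (i 1) y ^ 2 * ETX_t (i 3) a ^ 2) *
          (u * Bq (g 0) x y * (b * Rq (rho 0) a)) := by
      rw [← ETX_u (i 2) hu hD.hu, ← ETX_b (i 4) hb hD.hb]
      ring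
    rw [e1, mul_inv]
    have e2 : (ETX_t (i 0) x ^ 2 * ETX_t (i 1) y ^ 2 * ETX_t (i 3) a ^ 2)⁻¹ *
        (ETX_t (i 0) x ^ 2 * ETX_t (i 1) y ^ 2 * ETX_t (i 3) a ^ 2) = 1 :=
      inv_mul_cancel₀ (mul_ne_zero (mul_ne_zero (pow_ne_zero 2 t0) (pow_ne_zero 2 t1)) (pow_ne_zero 2 t3))
    linear_combination (ETX_sg (i 0) * ETX_sg (i 1) * ETX_sg (i 3) *
      (u * Bq (g 0) x y * (b * Rq (rho 0) a))⁻¹) * e2
  rw [key]
  rcases ETX_sg_or (K := K) (i 0) with h0 | h0 <;> rcases ETX_sg_or (K := K) (i 1) with h1 | h1 <;>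
    rcases ETX_sg_or (K := K) (i 3) with h3 | h3 <;> rw [h0, h1, h3] <;> simp

end Pool.Agent.H56.KN
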