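import Pool.Agent.H56.KN.Ex
import Pool.Agent.H56.KN.SCL
import Pool.Agent.H56.KN.VAL

/-!
Part TLS. Tools for `Val` and `Un`.
-/

set_option autoImplicit false

namespace Pool.Agent.H56.KN

open MvPolynomial

variable {k : Type} [Field k]

section

variable {K : Type} [Field K] [Algebra k K] {O : Subalgebra k K} {ev : O →ₐ[k] k}

theorem Val.add {z z' : K} {s s' : k} (h : Val O ev z s) (h' : Val O ev z' s') :
    Val O ev (z + z') (s + s') := by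
  obtain ⟨h1, h2⟩ := h
  obtain ⟨h1', h2'⟩ := h'
  refine ⟨O.add_mem h1 h1', ?_⟩
  rw [← h2, ← h2', ← map_add]
  rfl

theorem Val.sub {z z' : K} {s s' : k} (h : Val O ev z s) (h' : Val O ev z' s') :
    Val O ev (z - z') (s - s') := by
  obtain ⟨h1, h2⟩ := h
  obtain ⟨h1', h2'⟩ := h'
  refine ⟨O.sub_mem h1 h1', ?_⟩
  rw [← h2, ← h2', ← map_sub]
  rfl

theorem Val.mul {z z' : K} {s s' : k} (h : Val O ev z s) (h' : Val O ev z' s') :
    Val O ev (z * z') (s * s') := by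
  obtain ⟨h1, h2⟩ := h
  obtain ⟨h1', h2'⟩ := h'
  refine ⟨O.mul_mem h1 h1', ?_⟩
  rw [← h2, ← h2', ← map_mul]
  rfl

theorem Val.pow {z : K} {s : k} (h : Val O ev z s) (n : ℕ) : Val O ev (z ^ n) (s ^ n) := by
  obtain ⟨h1, h2⟩ := h
  refine ⟨O.pow_mem h1 n, ?_⟩
  rw [← h2, ← map_pow]
  rfl

theorem Val.const (O : Subalgebra k K) (ev : O →ₐ[k] k) (c : k) :
    Val O ev (algebraMap k K c) c :=
  ⟨O.algebraMap_mem c, ev.commutes c⟩

theorem Val.int (O : Subalgebra k K) (ev : O →ₐ[k] k) (n : ℤ) : Val O ev (n : K) (n : k) := by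
  have h := Val.const O ev (n : k)
  rwa [map_intCast] at h

theorem Val.mem {z : K} {s : k} (h : Val O ev z s) : z ∈ O := h.1

theorem Val.unique {z : K} {s s' : k} (h : Val O ev z s) (h' : Val O ev z s') : s = s' := by
  obtain ⟨h1, h2⟩ := h
  obtain ⟨h1', h2'⟩ := h'
  rw [← h2, ← h2']

theorem Val.inv (hinv : ∀ f : O, ev f ≠ 0 → (f : K)⁻¹ ∈ O) {z : K} {s : k}
    (h : Val O ev z s) (hs : s ≠ 0) : Val O ev z⁻¹ s⁻¹ := by
  obtain ⟨h1, h2⟩ := h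
  have hi : z⁻¹ ∈ O := hinv ⟨z, h1⟩ (by rw [h2]; exact hs)
  have hz : z ≠ 0 := by
    rintro rfl
    apply hs
    rw [← h2]
    exact map_zero ev
  refine ⟨hi, ?_⟩
  have h3 : ev ⟨z, h1⟩ * ev ⟨z⁻¹, hi⟩ = 1 := by
    rw [← map_mul, ← map_one ev]
    congr 1
    apply Subtype.ext
    exact mul_inv_cancel₀ hz
  rw [h2] at h3
  exact eq_inv_of_mul_eq_one_right h3

theorem Val.un (hinv : ∀ f : O, ev f ≠ 0 → (f : K)⁻¹ ∈ O) {z : K} {s : k}
    (h : Val O ev z s) (hs : s ≠ 0) : Un O z := by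
  refine ⟨h.mem, (Val.inv hinv h hs).mem, ?_⟩
  rintro rfl
  exact hs (Val.unique h ⟨O.zero_mem, map_zero ev⟩)

theorem Val.Bq (c : Fin 2 → Fin 2 → ℤ) {x y : K} {xs ys : k} (hx : Val O ev x xs)
    (hy : Val O ev y ys) : Val O ev (KN.Bq c x y) (KN.Bq c xs ys) := by
  unfold KN.Bq
  exact (((Val.int O ev _).add ((Val.int O ev _).mul (hx.pow 2))).add
    ((Val.int O ev _).mul (hy.pow 2))).add (((Val.int O ev _).mul (hx.pow 2)).mul (hy.pow 2))

theorem Val.Rq (c : Fin 2 → ℤ) {x : K} {xs : k} (hx : Val O ev x xs) :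
    Val O ev (KN.Rq c x) (KN.Rq c xs) := by
  unfold KN.Rq
  exact (Val.int O ev _).add ((Val.int O ev _).mul (hx.pow 2))

theorem Un.mul {z z' : K} (h : Un O z) (h' : Un O z') : Un O (z * z') := by
  refine ⟨O.mul_mem h.1 h'.1, ?_, mul_ne_zero h.2.2 h'.2.2⟩
  rw [mul_inv]
  exact O.mul_mem h.2.1 h'.2.1

theorem Un.inv {z : K} (h : Un O z) : Un O z⁻¹ := by
  refine ⟨h.2.1, ?_, inv_ne_zero h.2.2⟩
  rw [inv_inv]
  exact h.1

end

end Pool.Agent.H56.KN
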