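import Pool.Agent.H56.KN.Ex
import Pool.Agent.H56.KN.SCL
import Pool.Agent.H56.KN.VAL
import Pool.Agent.H56.KN.TLS

/-!
Part LP2. Case `Ws ≠ 0`, `us = 0` (so `P* ≠ 0`, `Q* = 0`). By symmetry two cases of `N1`. Case
`ys (q₀₁ + q₁₁ xs²) ≠ 0`: `v1 = x`, `v2 = u`; `(x² - xs²)(q₁₀ + q₁₁ y²) + (y² - ys²)(q₀₁ + q₁₁ xs²) = Q - Q* = u² P`, so `y - ys` is in the ideal
of `x - xs`, `u`; `W - Ws` as in LP1. Differentials: `Q_x dx + Q_y dy = 2 u P du + u² (P_x dx + P_y dy)`, `Q_x = 2x (q₁₀ + q₁₁ y²)`,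
`Q_y = 2y (q₀₁ + q₁₁ x²)`; wedge with `dx`: `(Q_y - u² P_y) dx∧dy = 2 u P dx∧du`, so
`(W u P)⁻¹ dx∧dy∧da = 2 (W (Q_y - u² P_y))⁻¹ dx∧du∧da`, where `Q_y - u² P_y` is a unit (value `Q_y* ≠ 0`) and `W` is a unit.
-/

set_option autoImplicit false

namespace Pool.Agent.H56.KN

open MvPolynomial

variable {k : Type} [Field k]

section LP2tools

variable {K : Type} [Field K] [Algebra k K] {O : Subalgebra k K} {ev : O →ₐ[k] k}

/-- in the ideal generated by the `v j - vs j` -/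
def LP2_I {n : ℕ} (O : Subalgebra k K) (v : Fin n → K) (vs : Fin n → k) (f : K) : Prop :=
  ∃ e : Fin n → K, (∀ j, e j ∈ O) ∧ f = ∑ j, e j * (v j - algebraMap k K (vs j))

/-- in the `O`-span of the `d(v j)` -/
def LP2_D {n : ℕ} (O : Subalgebra k K) (v : Fin n → K) (ω : KaehlerDifferential k K) : Prop :=
  ∃ e : Fin n → K, (∀ j, e j ∈ O) ∧ ω = ∑ j, e j • KaehlerDifferential.D k K (v j)

variable {n : ℕ} {v : Fin n → K} {vs : Fin n → k}

theorem LP2_I.add {f f' : K} (h : LP2_I O v vs f) (h' : LP2_I O v vs f') :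
    LP2_I O v vs (f + f') := by
  obtain ⟨e, he, rfl⟩ := h
  obtain ⟨e', he', rfl⟩ := h'
  refine ⟨fun j => e j + e' j, fun j => O.add_mem (he j) (he' j), ?_⟩
  rw [← Finset.sum_add_distrib]
  exact Finset.sum_congr rfl fun j _ => by ring

theorem LP2_I.smul {f c : K} (h : LP2_I O v vs f) (hc : c ∈ O) : LP2_I O v vs (c * f) := by
  obtain ⟨e, he, rfl⟩ := h
  refine ⟨fun j => c * e j, fun j => O.mul_mem hc (he j), ?_⟩
  rw [Finset.mul_sum]
  exact Finset.sum_congr rfl fun j _ => by ring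

theorem LP2_I.zero : LP2_I O v vs 0 :=
  ⟨fun _ => 0, fun _ => O.zero_mem, by simp⟩

theorem LP2_I.coord (j : Fin n) : LP2_I O v vs (v j - algebraMap k K (vs j)) := by
  classical
  refine ⟨Pi.single j 1, fun i => ?_, ?_⟩
  · by_cases h : i = j
    · subst h; simp [O.one_mem]
    · rw [Pi.single_eq_of_ne h]; exact O.zero_mem
  · rw [Finset.sum_eq_single j]
    · simp
    · intro i _ h; rw [Pi.single_eq_of_ne h, zero_mul]
    · intro h; exact absurd (Finset.mem_univ j) h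

theorem LP2_D.add {f f' : KaehlerDifferential k K} (h : LP2_D O v f) (h' : LP2_D O v f') :
    LP2_D O v (f + f') := by
  obtain ⟨e, he, rfl⟩ := h
  obtain ⟨e', he', rfl⟩ := h'
  refine ⟨fun j => e j + e' j, fun j => O.add_mem (he j) (he' j), ?_⟩
  rw [← Finset.sum_add_distrib]
  exact Finset.sum_congr rfl fun j _ => (add_smul _ _ _).symm

theorem LP2_D.smul {f : KaehlerDifferential k K} {c : K} (h : LP2_D O v f) (hc : c ∈ O) :
    LP2_D O v (c • f) := by
  obtain ⟨e, he, rfl⟩ := h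
  refine ⟨fun j => c * e j, fun j => O.mul_mem hc (he j), ?_⟩
  rw [Finset.smul_sum]
  exact Finset.sum_congr rfl fun j _ => by rw [smul_smul]

theorem LP2_D.zero : LP2_D O v (0 : KaehlerDifferential k K) :=
  ⟨fun _ => 0, fun _ => O.zero_mem, by simp⟩

theorem LP2_D.coord (j : Fin n) : LP2_D O v (KaehlerDifferential.D k K (v j)) := by
  classical
  refine ⟨Pi.single j 1, fun i => ?_, ?_⟩
  · by_cases h : i = j
    · subst h; simp [O.one_mem]
    · rw [Pi.single_eq_of_ne h]; exact O.zero_mem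
  · rw [Finset.sum_eq_single j]
    · simp
    · intro i _ h; rw [Pi.single_eq_of_ne h, zero_smul]
    · intro h; exact absurd (Finset.mem_univ j) h

theorem LP2_dep_mk {z : K} {s : k} (h : LP2_I O v vs (z - algebraMap k K s))
    (h' : LP2_D O v (KaehlerDifferential.D k K z)) : Dep O v vs z s := ⟨h, h'⟩

theorem LP2_dep_coord (j : Fin n) : Dep O v vs (v j) (vs j) :=
  LP2_dep_mk (LP2_I.coord j) (LP2_D.coord j)

theorem LP2_alg_mem (s : k) : algebraMap k K s ∈ O := O.algebraMap_mem s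

theorem LP2_dep_const (c : k) : Dep O v vs (algebraMap k K c) c :=
  LP2_dep_mk (by rw [sub_self]; exact LP2_I.zero)
    (by rw [Derivation.map_algebraMap]; exact LP2_D.zero)

theorem LP2_dep_int (c : ℤ) : Dep O v vs (c : K) (c : k) := by
  have := LP2_dep_const (O := O) (v := v) (vs := vs) (c : k)
  rwa [map_intCast] at this

theorem LP2_dep_add {z z' : K} {s s' : k} (h : Dep O v vs z s) (h' : Dep O v vs z' s') :
    Dep O v vs (z + z') (s + s') := by
  refine LP2_dep_mk ?_ ?_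
  · have := LP2_I.add h.1 h'.1
    rw [map_add]
    convert this using 1
    ring
  · rw [map_add]
    exact LP2_D.add h.2 h'.2

theorem LP2_dep_mul {z z' : K} {s s' : k} (h : Dep O v vs z s) (h' : Dep O v vs z' s')
    (hz : z ∈ O) (hz' : z' ∈ O) : Dep O v vs (z * z') (s * s') := by
  refine LP2_dep_mk ?_ ?_
  · have := LP2_I.add (LP2_I.smul h'.1 hz) (LP2_I.smul h.1 (LP2_alg_mem (O := O) s'))
    rw [map_mul]
    convert this using 1
    ring
  · rw [Derivation.leibniz]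
    exact LP2_D.add (LP2_D.smul h'.2 hz) (LP2_D.smul h.2 hz')

theorem LP2_dep_sq {z : K} {s : k} (h : Dep O v vs z s) (hz : z ∈ O) :
    Dep O v vs (z ^ 2) (s ^ 2) := by
  rw [pow_two, pow_two]
  exact LP2_dep_mul h h hz hz

theorem LP2_Bq_mem (c : Fin 2 → Fin 2 → ℤ) {x y : K} (hx : x ∈ O) (hy : y ∈ O) :
    Bq c x y ∈ O := by
  unfold Bq
  have hi : ∀ m : ℤ, (m : K) ∈ O := fun m => by
    have := O.algebraMap_mem (m : k); rwa [map_intCast] at this
  exact O.add_mem (O.add_mem (O.add_mem (hi _) (O.mul_mem (hi _) (O.pow_mem hx 2)))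
    (O.mul_mem (hi _) (O.pow_mem hy 2)))
    (O.mul_mem (O.mul_mem (hi _) (O.pow_mem hx 2)) (O.pow_mem hy 2))

theorem LP2_Rq_mem (c : Fin 2 → ℤ) {x : K} (hx : x ∈ O) : Rq c x ∈ O := by
  unfold Rq
  have hi : ∀ m : ℤ, (m : K) ∈ O := fun m => by
    have := O.algebraMap_mem (m : k); rwa [map_intCast] at this
  exact O.add_mem (hi _) (O.mul_mem (hi _) (O.pow_mem hx 2))

theorem LP2_int_mem (m : ℤ) : (m : K) ∈ O := by
  have := O.algebraMap_mem (m : k); rwa [map_intCast] at this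

theorem LP2_dep_Bq (c : Fin 2 → Fin 2 → ℤ) {x y : K} {xs ys : k} (hx : Dep O v vs x xs)
    (hy : Dep O v vs y ys) (hxO : x ∈ O) (hyO : y ∈ O) :
    Dep O v vs (Bq c x y) (Bq c xs ys) := by
  unfold Bq
  have x2 := O.pow_mem hxO 2
  have y2 := O.pow_mem hyO 2
  have i0 := fun m : ℤ => LP2_int_mem (O := O) m
  refine LP2_dep_add (LP2_dep_add (LP2_dep_add (LP2_dep_int _) ?_) ?_) ?_
  · exact LP2_dep_mul (LP2_dep_int _) (LP2_dep_sq hx hxO) (i0 _) x2
  · exact LP2_dep_mul (LP2_dep_int _) (LP2_dep_sq hy hyO) (i0 _) y2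
  · exact LP2_dep_mul (LP2_dep_mul (LP2_dep_int _) (LP2_dep_sq hx hxO) (i0 _) x2)
      (LP2_dep_sq hy hyO) (O.mul_mem (i0 _) x2) y2

theorem LP2_dep_Rq (c : Fin 2 → ℤ) {a : K} {as : k} (ha : Dep O v vs a as) (haO : a ∈ O) :
    Dep O v vs (Rq c a) (Rq c as) := by
  unfold Rq
  exact LP2_dep_add (LP2_dep_int _)
    (LP2_dep_mul (LP2_dep_int _) (LP2_dep_sq ha haO) (LP2_int_mem _) (O.pow_mem haO 2))

theorem LP2_Dsq (x : K) :
    KaehlerDifferential.D k K (x ^ 2) = (2 * x) • KaehlerDifferential.D k K x := by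
  rw [Derivation.leibniz_pow, ← Nat.cast_smul_eq_nsmul K, smul_smul]
  push_cast
  rw [pow_one]

/-- square roots -/
theorem LP2_dep_sqrt (h2 : (2 : k) ≠ 0) {z f : K} {s fs : k} (hf : Dep O v vs f fs)
    (hz : z ^ 2 = f) (hs : s ^ 2 = fs) (hz0 : z ≠ 0) (hzi : z⁻¹ ∈ O)
    (hp0 : z + algebraMap k K s ≠ 0) (hpi : (z + algebraMap k K s)⁻¹ ∈ O) :
    Dep O v vs z s := by
  have h2K : (2 : K) ≠ 0 := by
    have := (map_ne_zero (algebraMap k K)).2 h2
    rwa [map_ofNat] at this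
  have h2i : (2 : K)⁻¹ ∈ O := by
    have := O.algebraMap_mem (2 : k)⁻¹
    rwa [map_inv₀, map_ofNat] at this
  refine LP2_dep_mk ?_ ?_
  · have e : z - algebraMap k K s = (z + algebraMap k K s)⁻¹ * (f - algebraMap k K fs) := by
      rw [← hz, ← hs, map_pow]
      field_simp
      ring
    rw [e]
    exact LP2_I.smul hf.1 hpi
  · have e : KaehlerDifferential.D k K z =
        ((2 : K)⁻¹ * z⁻¹) • KaehlerDifferential.D k K f := by
      rw [← hz, LP2_Dsq, smul_smul]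
      have : (2 : K)⁻¹ * z⁻¹ * (2 * z) = 1 := by
        field_simp
      rw [this, one_smul]
    rw [e]
    exact LP2_D.smul hf.2 (O.mul_mem h2i hzi)

theorem LP2_DBq (c : Fin 2 → Fin 2 → ℤ) (x y : K) :
    KaehlerDifferential.D k K (Bq c x y) =
      (2 * x * ((c 1 0 : K) + (c 1 1 : K) * y ^ 2)) • KaehlerDifferential.D k K x +
      (2 * y * ((c 0 1 : K) + (c 1 1 : K) * x ^ 2)) • KaehlerDifferential.D k K y := by
  unfold Bq
  have hi : ∀ m : ℤ, KaehlerDifferential.D k K (m : K) = 0 := fun m => by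
    have := (KaehlerDifferential.D k K).map_algebraMap (m : k)
    rwa [map_intCast] at this
  simp only [map_add, Derivation.leibniz, LP2_Dsq, hi, smul_zero, zero_add, add_zero]
  module

theorem LP2_DRq (c : Fin 2 → ℤ) (a : K) :
    KaehlerDifferential.D k K (Rq c a) =
      (2 * (c 1 : K) * a) • KaehlerDifferential.D k K a := by
  unfold Rq
  have hi : ∀ m : ℤ, KaehlerDifferential.D k K (m : K) = 0 := fun m => by
    have := (KaehlerDifferential.D k K).map_algebraMap (m : k)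
    rwa [map_intCast] at this
  simp only [map_add, Derivation.leibniz, LP2_Dsq, hi, smul_zero, zero_add, add_zero]
  module

theorem LP2_alt {M N : Type*} [AddCommGroup M] [Module K M] [AddCommGroup N] [Module K N]
    (f : M [⋀^Fin 3]→ₗ[K] N) (p q r : M) (α1 α2 α3 β1 β2 β3 : K) :
    f ![α1 • p + α2 • q + α3 • r, β1 • p + β2 • q + β3 • r, r] =
      (α1 * β2 - α2 * β1) • f ![p, q, r] := by
  have u0 : ∀ a b c x : M, Function.update ![a, b, c] 0 x = ![x, b, c] := by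
    intro a b c x; ext i; fin_cases i <;> simp
  have u1 : ∀ a b c x : M, Function.update ![a, b, c] 1 x = ![a, x, c] := by
    intro a b c x; ext i; fin_cases i <;> simp
  have a0 : ∀ a a' b c : M, f ![a + a', b, c] = f ![a, b, c] + f ![a', b, c] := by
    intro a a' b c
    have := f.map_update_add ![a, b, c] 0 a a'
    rwa [u0, u0, u0] at this
  have a1 : ∀ a b b' c : M, f ![a, b + b', c] = f ![a, b, c] + f ![a, b', c] := by
    intro a b b' c
    have := f.map_update_add ![a, b, c] 1 b b'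
    rwa [u1, u1, u1] at this
  have s0 : ∀ (t : K) (a b c : M), f ![t • a, b, c] = t • f ![a, b, c] := by
    intro t a b c
    have := f.map_update_smul ![a, b, c] 0 t a
    rwa [u0, u0] at this
  have s1 : ∀ (t : K) (a b c : M), f ![a, t • b, c] = t • f ![a, b, c] := by
    intro t a b c
    have := f.map_update_smul ![a, b, c] 1 t b
    rwa [u1, u1] at this
  have z01 : ∀ a c : M, f ![a, a, c] = 0 := fun a c =>
    f.map_eq_zero_of_eq ![a, a, c] (i := 0) (j := 1) rfl (by decide)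
  have z12 : ∀ a c : M, f ![a, c, c] = 0 := fun a c =>
    f.map_eq_zero_of_eq ![a, c, c] (i := 1) (j := 2) rfl (by decide)
  have z02 : ∀ a c : M, f ![c, a, c] = 0 := fun a c =>
    f.map_eq_zero_of_eq ![c, a, c] (i := 0) (j := 2) rfl (by decide)
  have sw : ∀ a b c : M, f ![b, a, c] = -f ![a, b, c] := by
    intro a b c
    have h := z01 (a + b) c
    rw [a0, a1, a1, z01, z01, zero_add, add_zero] at h
    exact eq_neg_of_add_eq_zero_right h
  simp only [a0, a1, s0, s1, z01, z12, z02, smul_zero, add_zero, zero_add]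
  rw [sw p q r]
  module

theorem LP2_dd3 {x y a v1 v2 α1 α2 α3 β1 β2 β3 : K}
    (hx : KaehlerDifferential.D k K x = α1 • KaehlerDifferential.D k K v1 +
      α2 • KaehlerDifferential.D k K v2 + α3 • KaehlerDifferential.D k K a)
    (hy : KaehlerDifferential.D k K y = β1 • KaehlerDifferential.D k K v1 +
      β2 • KaehlerDifferential.D k K v2 + β3 • KaehlerDifferential.D k K a) :
    dd k ![x, y, a] = (α1 * β2 - α2 * β1) • dd k ![v1, v2, a] := by
  unfold dd
  have e1 : (fun j => KaehlerDifferential.D k K (![x, y, a] j)) =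
      ![KaehlerDifferential.D k K x, KaehlerDifferential.D k K y, KaehlerDifferential.D k K a] := by
    ext j; fin_cases j <;> rfl
  have e2 : (fun j => KaehlerDifferential.D k K (![v1, v2, a] j)) =
      ![KaehlerDifferential.D k K v1, KaehlerDifferential.D k K v2,
        KaehlerDifferential.D k K a] := by
    ext j; fin_cases j <;> rfl
  rw [e1, e2, hx, hy]
  exact LP2_alt _ _ _ _ _ _ _ _ _ _

end LP2tools

/-- the case `ys (q₀₁ + q₁₁ xs²) ≠ 0` -/
theorem LP2_a {K : Type} [Field K] [Algebra k K] {O : Subalgebra k K} {ev : O →ₐ[k] k}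
    (hinv : ∀ f : O, ev f ≠ 0 → (f : K)⁻¹ ∈ O) (h2 : (2 : k) ≠ 0)
    (cp cq : Fin 2 → Fin 2 → ℤ) (cr : Fin 2 → ℤ) {x y u a W : K} {xs ys us as Ws : k}
    (hx : Val O ev x xs) (hy : Val O ev y ys) (hu : Val O ev u us) (ha : Val O ev a as)
    (hw : Val O ev W Ws) (hQ : u ^ 2 * Bq cp x y = Bq cq x y)
    (hQs : us ^ 2 * Bq cp xs ys = Bq cq xs ys) (hW : W ^ 2 = Bq cp x y * Rq cr a)
    (hWs : Ws ^ 2 = Bq cp xs ys * Rq cr as) (hW0 : W ≠ 0) (hu0 : u ≠ 0)
    (c1 : Ws ≠ 0) (c2 : us = 0)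
    (N1 : ys ≠ 0 ∧ (cq 0 1 : k) + (cq 1 1 : k) * xs ^ 2 ≠ 0) :
    ∃ (ε : K), 
      Dep O ![x, u, a] ![xs, us, as] y ys ∧
      Dep O ![x, u, a] ![xs, us, as] W Ws ∧
      Un O ε ∧ (W * (u * Bq cp x y))⁻¹ • dd k ![x, y, a] = ε • dd k ![x, u, a] := by
  have hP0 : Bq cp x y ≠ 0 := by
    intro h; rw [h, zero_mul] at hW; exact hW0 (pow_eq_zero_iff (by norm_num) |>.1 hW)
  have hxO := hx.mem
  have hyO := hy.mem
  have huO := hu.mem
  have haO := ha.mem
  have hWO := hw.mem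
  have i0 := fun m : ℤ => LP2_int_mem (O := O) m
  have hPO : Bq cp x y ∈ O := LP2_Bq_mem cp hxO hyO
  have h2K : (2 : K) ≠ 0 := by
    have := (map_ne_zero (algebraMap k K)).2 h2
    rwa [map_ofNat] at this
  have h2O : (2 : K) ∈ O := by
    have := LP2_int_mem (O := O) 2
    rwa [Int.cast_ofNat] at this
  have h2V : Val O ev (2 : K) (2 : k) := by
    have := Val.int O ev 2
    rwa [Int.cast_ofNat, Int.cast_ofNat] at this
  -- units
  have hU1 : Val O ev ((y + algebraMap k K ys) * ((cq 0 1 : K) + (cq 1 1 : K) * algebraMap k K xs ^ 2))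
      ((ys + ys) * ((cq 0 1 : k) + (cq 1 1 : k) * xs ^ 2)) :=
    (hy.add (Val.const O ev ys)).mul ((Val.int O ev _).add ((Val.int O ev _).mul
      ((Val.const O ev xs).pow 2)))
  have hU1n : (ys + ys) * ((cq 0 1 : k) + (cq 1 1 : k) * xs ^ 2) ≠ 0 := by
    refine mul_ne_zero ?_ N1.2
    rw [← two_mul]; exact mul_ne_zero h2 N1.1
  obtain ⟨hU1O, hU1iO, hU10⟩ := hU1.un hinv hU1n
  -- T = Q_y - u^2 P_y
  set Px : K := 2 * x * ((cp 1 0 : K) + (cp 1 1 : K) * y ^ 2) with hPx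
  set Py : K := 2 * y * ((cp 0 1 : K) + (cp 1 1 : K) * x ^ 2) with hPy
  set Qx : K := 2 * x * ((cq 1 0 : K) + (cq 1 1 : K) * y ^ 2) with hQx
  set Qy : K := 2 * y * ((cq 0 1 : K) + (cq 1 1 : K) * x ^ 2) with hQy
  have hT : Val O ev (Qy - u ^ 2 * Py)
      ((2 * ys * ((cq 0 1 : k) + (cq 1 1 : k) * xs ^ 2)) -
        us ^ 2 * (2 * ys * ((cp 0 1 : k) + (cp 1 1 : k) * xs ^ 2))) :=
    ((h2V.mul hy).mul ((Val.int O ev _).add ((Val.int O ev _).mul (hx.pow 2)))).sub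
      ((hu.pow 2).mul ((h2V.mul hy).mul ((Val.int O ev _).add ((Val.int O ev _).mul (hx.pow 2)))))
  have hTn : ((2 * ys * ((cq 0 1 : k) + (cq 1 1 : k) * xs ^ 2)) -
        us ^ 2 * (2 * ys * ((cp 0 1 : k) + (cp 1 1 : k) * xs ^ 2))) ≠ 0 := by
    rw [c2]
    have : (2 * ys * ((cq 0 1 : k) + (cq 1 1 : k) * xs ^ 2)) -
        0 ^ 2 * (2 * ys * ((cp 0 1 : k) + (cp 1 1 : k) * xs ^ 2)) =
        2 * ys * ((cq 0 1 : k) + (cq 1 1 : k) * xs ^ 2) := by ring
    rw [this]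
    exact mul_ne_zero (mul_ne_zero h2 N1.1) N1.2
  obtain ⟨hTO, hTiO, hT0⟩ := hT.un hinv hTn
  set T : K := Qy - u ^ 2 * Py with hTdef
  obtain ⟨_, hWiO, _⟩ := hw.un hinv c1
  have hWp : Val O ev (W + algebraMap k K Ws) (Ws + Ws) := hw.add (Val.const O ev Ws)
  have hWpn : Ws + Ws ≠ 0 := by rw [← two_mul]; exact mul_ne_zero h2 c1
  obtain ⟨_, hWpiO, hWp0⟩ := hWp.un hinv hWpn
  -- the differential of y
  have hD : KaehlerDifferential.D k K y =
      (T⁻¹ * (u ^ 2 * Px - Qx)) • KaehlerDifferential.D k K x +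
      (T⁻¹ * (2 * u * Bq cp x y)) • KaehlerDifferential.D k K u := by
    have h := congrArg (KaehlerDifferential.D k K) hQ
    rw [Derivation.leibniz, LP2_Dsq, LP2_DBq, LP2_DBq] at h
    have h' : T • KaehlerDifferential.D k K y =
        (u ^ 2 * Px - Qx) • KaehlerDifferential.D k K x +
        (2 * u * Bq cp x y) • KaehlerDifferential.D k K u := by
      have h'' : (Qx • KaehlerDifferential.D k K x + Qy • KaehlerDifferential.D k K y) =
          u ^ 2 • (Px • KaehlerDifferential.D k K x + Py • KaehlerDifferential.D k K y) +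
          Bq cp x y • (2 * u) • KaehlerDifferential.D k K u := h.symm
      rw [hTdef, sub_smul]
      have h3 : Qy • KaehlerDifferential.D k K y =
          u ^ 2 • (Px • KaehlerDifferential.D k K x + Py • KaehlerDifferential.D k K y) +
          Bq cp x y • (2 * u) • KaehlerDifferential.D k K u - Qx • KaehlerDifferential.D k K x := by
        rw [← h'']; abel
      rw [h3]
      module
    rw [mul_smul, mul_smul, ← smul_add, ← h', smul_smul, inv_mul_cancel₀ hT0, one_smul]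
  -- Dep y
  have hdx : Dep O ![x, u, a] ![xs, us, as] x xs := LP2_dep_coord (v := ![x, u, a]) 0
  have hdu : Dep O ![x, u, a] ![xs, us, as] u us := LP2_dep_coord (v := ![x, u, a]) 1
  have hda : Dep O ![x, u, a] ![xs, us, as] a as := LP2_dep_coord (v := ![x, u, a]) 2
  have hdy : Dep O ![x, u, a] ![xs, us, as] y ys := by
    refine LP2_dep_mk ?_ ?_
    · have e : y - algebraMap k K ys =
          ((y + algebraMap k K ys) * ((cq 0 1 : K) + (cq 1 1 : K) * algebraMap k K xs ^ 2))⁻¹ *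
          ((u * Bq cp x y) * (u - algebraMap k K us) +
            (-((x + algebraMap k K xs) * ((cq 1 0 : K) + (cq 1 1 : K) * y ^ 2))) *
              (x - algebraMap k K xs)) := by
        rw [eq_inv_mul_iff_mul_eq₀ hU10]
        have hq : algebraMap k K (Bq cq xs ys) = 0 := by
          rw [← hQs, c2]; simp
        have hq' : (cq 0 0 : K) + (cq 1 0 : K) * algebraMap k K xs ^ 2 +
            (cq 0 1 : K) * algebraMap k K ys ^ 2 +
            (cq 1 1 : K) * algebraMap k K xs ^ 2 * algebraMap k K ys ^ 2 = 0 := by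
          rw [← hq]; unfold Bq; simp
        have hQ' := hQ
        unfold Bq at hQ' ⊢
        rw [c2, map_zero]
        linear_combination (-1 : K) * hQ' - hq'
      rw [e]
      refine LP2_I.smul (LP2_I.add (LP2_I.smul hdu.1 (O.mul_mem huO hPO))
        (LP2_I.smul hdx.1 (O.neg_mem ?_))) hU1iO
      exact O.mul_mem (O.add_mem hxO (LP2_alg_mem xs))
        (O.add_mem (i0 _) (O.mul_mem (i0 _) (O.pow_mem hyO 2)))
    · rw [hD]
      have hPxO : Px ∈ O := O.mul_mem (O.mul_mem h2O hxO)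
        (O.add_mem (i0 _) (O.mul_mem (i0 _) (O.pow_mem hyO 2)))
      have hQxO : Qx ∈ O := O.mul_mem (O.mul_mem h2O hxO)
        (O.add_mem (i0 _) (O.mul_mem (i0 _) (O.pow_mem hyO 2)))
      exact LP2_D.add
        (LP2_D.smul hdx.2 (O.mul_mem hTiO (O.sub_mem (O.mul_mem (O.pow_mem huO 2) hPxO) hQxO)))
        (LP2_D.smul hdu.2 (O.mul_mem hTiO (O.mul_mem (O.mul_mem h2O huO) hPO)))
  have hdW : Dep O ![x, u, a] ![xs, us, as] W Ws :=
    LP2_dep_sqrt h2 (LP2_dep_mul (LP2_dep_Bq cp hdx hdy hxO hyO) (LP2_dep_Rq cr hda haO) hPO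
      (LP2_Rq_mem cr haO)) hW hWs hW0 hWiO hWp0 hWpiO
  refine ⟨2 * W⁻¹ * T⁻¹, hdy, hdW, ?_, ?_⟩
  · have hu2 : Un O (2 : K) := h2V.un hinv h2
    exact (hu2.mul (hw.un hinv c1).inv).mul (hT.un hinv hTn).inv
  · have h3 := LP2_dd3 (k := k) (x := x) (y := y) (a := a) (v1 := x) (v2 := u) (α1 := 1) (α2 := 0)
      (α3 := 0) (β1 := T⁻¹ * (u ^ 2 * Px - Qx)) (β2 := T⁻¹ * (2 * u * Bq cp x y)) (β3 := 0)
      (by rw [one_smul, zero_smul, zero_smul, add_zero, add_zero])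
      (by rw [zero_smul, add_zero]; exact hD)
    rw [h3, smul_smul]
    congr 1
    field_simp
    ring

theorem LP2_Bq_swap {R : Type} [CommRing R] (c : Fin 2 → Fin 2 → ℤ) (x y : R) :
    Bq (fun i j => c j i) y x = Bq c x y := by
  unfold Bq; ring

theorem LP2_dd_swap {K : Type} [Field K] [Algebra k K] (x y a : K) :
    dd k ![y, x, a] = -dd k ![x, y, a] := by
  have h := LP2_dd3 (k := k) (x := y) (y := x) (a := a) (v1 := x) (v2 := y) (α1 := 0) (α2 := 1)
    (α3 := 0) (β1 := 1) (β2 := 0) (β3 := 0)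
    (by rw [one_smul, zero_smul, zero_smul, add_zero, zero_add])
    (by rw [one_smul, zero_smul, zero_smul, add_zero, add_zero])
  rw [h, mul_zero, mul_one, zero_sub, neg_smul, one_smul]

theorem part_P2 {K : Type} [Field K] [Algebra k K] {O : Subalgebra k K} {ev : O →ₐ[k] k}
    (hinv : ∀ f : O, ev f ≠ 0 → (f : K)⁻¹ ∈ O) (h2 : (2 : k) ≠ 0)
    (cp cq : Fin 2 → Fin 2 → ℤ) (cr : Fin 2 → ℤ) {x y u a W : K} {xs ys us as Ws : k}
    (hx : Val O ev x xs) (hy : Val O ev y ys) (hu : Val O ev u us) (ha : Val O ev a as)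
    (hw : Val O ev W Ws) (hQ : u ^ 2 * Bq cp x y = Bq cq x y)
    (hQs : us ^ 2 * Bq cp xs ys = Bq cq xs ys) (hW : W ^ 2 = Bq cp x y * Rq cr a)
    (hWs : Ws ^ 2 = Bq cp xs ys * Rq cr as) (hR : Rq cr as ≠ 0) (hW0 : W ≠ 0) (hu0 : u ≠ 0)
    (c1 : Ws ≠ 0) (c2 : us = 0)
    (N1 : (ys ≠ 0 ∧ (cq 0 1 : k) + (cq 1 1 : k) * xs ^ 2 ≠ 0) ∨
      (xs ≠ 0 ∧ (cq 1 0 : k) + (cq 1 1 : k) * ys ^ 2 ≠ 0)) :
    ∃ (v1 v2 : K) (s1 s2 : k) (ε : K), Val O ev v1 s1 ∧ Val O ev v2 s2 ∧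
      Dep O ![v1, v2, a] ![s1, s2, as] x xs ∧ Dep O ![v1, v2, a] ![s1, s2, as] y ys ∧
      Dep O ![v1, v2, a] ![s1, s2, as] u us ∧ Dep O ![v1, v2, a] ![s1, s2, as] W Ws ∧
      Un O ε ∧ (W * (u * Bq cp x y))⁻¹ • dd k ![x, y, a] = ε • dd k ![v1, v2, a] := by
  rcases N1 with N1 | N1
  · obtain ⟨ε, hdy, hdW, hε, he⟩ := LP2_a hinv h2 cp cq cr hx hy hu ha hw hQ hQs hW hWs hW0 hu0
      c1 c2 N1
    exact ⟨x, u, xs, us, ε, hx, hu, LP2_dep_coord (v := ![x, u, a]) 0, hdy,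
      LP2_dep_coord (v := ![x, u, a]) 1, hdW, hε, he⟩
  · obtain ⟨ε, hdx, hdW, hε, he⟩ := LP2_a hinv h2 (fun i j => cp j i) (fun i j => cq j i) cr
      hy hx hu ha hw (by rw [LP2_Bq_swap cp, LP2_Bq_swap cq]; exact hQ)
      (by rw [LP2_Bq_swap cp, LP2_Bq_swap cq]; exact hQs) (by rw [LP2_Bq_swap cp]; exact hW)
      (by rw [LP2_Bq_swap cp]; exact hWs) hW0 hu0 c1 c2 N1
    refine ⟨y, u, ys, us, -ε, hy, hu, hdx, LP2_dep_coord (v := ![y, u, a]) 0,
      LP2_dep_coord (v := ![y, u, a]) 1, hdW, ?_, ?_⟩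
    · refine ⟨O.neg_mem hε.1, ?_, neg_ne_zero.2 hε.2.2⟩
      rw [inv_neg]; exact O.neg_mem hε.2.1
    · rw [LP2_Bq_swap, LP2_dd_swap, smul_neg] at he
      rw [neg_smul, ← he, neg_neg]

end Pool.Agent.H56.KN
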