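import Pool.Agent.H56.KN.Ex
import Pool.Agent.H56.KN.SCL
import Pool.Agent.H56.KN.VAL
import Pool.Agent.H56.KN.TLS
import Pool.Agent.H56.KN.LP2

/-!
Part GEN. The form `dv₁ ∧ ⋯ ∧ dv_n` generates the regular `n`-forms. For `f` in `O` with
`f Q(ζ) = P(ζ)`: `Q(ζ) df = d(P(ζ)) - f d(Q(ζ))`, which is a combination of the `dζ i` with coefficients in `O`
(`mkDerivation`/induction on polynomials), hence of the `dv j`; `Q(ζ)⁻¹ ∈ O`. So for `u₁, …, u_n ∈ O` we have
`du_i = ∑ m i j dv_j`, `m i j ∈ O`, and `dd k u = det(m) • dd k v` (expand by multilinearity; terms with a repeated index vanish,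
the others are `± dd k v`; it is enough to know that it is in `O • dd k v`). `dd k v ∈ formsOn`: coefficient `1`.
Closure: sums. `IsGen.smul`: for `θ = c • ω` we have `θ = (c ε⁻¹) • (ε • ω)`; `ε • ω ∈ formsOn`: `formsOn` is stable under
multiplication by elements of `O` (`AddSubgroup.closure_induction`).
-/

set_option autoImplicit false

namespace Pool.Agent.H56.KN

open MvPolynomial

variable {k : Type} [Field k]

theorem GEN_poly {K N : Type} [Field K] [Algebra k K] {ζ : N → K} {ζs : N → k}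
    {O : Subalgebra k K} {ev : O →ₐ[k] k} (h : AR ζ ζs O ev) {n : ℕ} (v : Fin n → K)
    (vs : Fin n → k) (hd : ∀ i, Dep O v vs (ζ i) (ζs i)) (P : MvPolynomial N k) :
    Val O ev (aeval ζ P) (aeval ζs P) ∧
      LP2_D O v (KaehlerDifferential.D k K (aeval ζ P)) := by
  induction P using MvPolynomial.induction_on with
  | C a =>
    refine ⟨?_, ?_⟩
    · have := Val.const O ev a
      simpa using this
    · rw [MvPolynomial.aeval_C, Derivation.map_algebraMap]
      exact LP2_D.zero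
  | add p q hp hq =>
    refine ⟨?_, ?_⟩
    · rw [map_add, map_add]; exact hp.1.add hq.1
    · rw [map_add, map_add]; exact LP2_D.add hp.2 hq.2
  | mul_X p i hp =>
    refine ⟨?_, ?_⟩
    · rw [map_mul, map_mul, aeval_X, aeval_X]; exact hp.1.mul (h.mem i)
    · rw [map_mul, aeval_X, Derivation.leibniz]
      exact LP2_D.add (LP2_D.smul (hd i).2 hp.1.mem) (LP2_D.smul hp.2 (h.mem i).mem)

theorem GEN_D {K N : Type} [Field K] [Algebra k K] {ζ : N → K} {ζs : N → k}
    {O : Subalgebra k K} {ev : O →ₐ[k] k} (h : AR ζ ζs O ev) {n : ℕ} (v : Fin n → K)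
    (vs : Fin n → k) (hd : ∀ i, Dep O v vs (ζ i) (ζs i)) {f : K} (hf : f ∈ O) :
    LP2_D O v (KaehlerDifferential.D k K f) := by
  obtain ⟨P, Q, hQ, hfQ⟩ := h.gen f hf
  obtain ⟨hPV, hPD⟩ := GEN_poly h v vs hd P
  obtain ⟨hQV, hQD⟩ := GEN_poly h v vs hd Q
  obtain ⟨_, hQi, hQ0⟩ := hQV.un h.inv hQ
  have e := congrArg (KaehlerDifferential.D k K) hfQ
  rw [Derivation.leibniz] at e
  have e2 : KaehlerDifferential.D k K f = (aeval ζ Q)⁻¹ •
      (KaehlerDifferential.D k K (aeval ζ P) + (-f) • KaehlerDifferential.D k K (aeval ζ Q)) := by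
    rw [← e]
    rw [neg_smul, add_neg_cancel_comm, smul_smul, inv_mul_cancel₀ hQ0, one_smul]
  rw [e2]
  exact LP2_D.smul (LP2_D.add hPD (LP2_D.smul hQD (O.neg_mem hf))) hQi

theorem GEN_alt {K M N : Type*} [Field K] [Algebra k K] [AddCommGroup M] [Module K M]
    [AddCommGroup N] [Module K N] (O : Subalgebra k K) {n : ℕ}
    (f : M [⋀^Fin n]→ₗ[K] N) (b : Fin n → M) (m : Fin n → Fin n → K) (hm : ∀ i j, m i j ∈ O) :
    ∃ c ∈ O, f (fun i => ∑ j, m i j • b j) = c • f b := by
  classical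
  have e := f.toMultilinearMap.map_sum (fun i j => m i j • b j)
  have e' : f (fun i => ∑ j, m i j • b j) =
      ∑ r : Fin n → Fin n, f (fun i => m i (r i) • b (r i)) := e
  rw [e']
  refine Finset.sum_induction _ (fun ω => ∃ c ∈ O, ω = c • f b) ?_ ?_ ?_
  · rintro _ _ ⟨c, hc, rfl⟩ ⟨c', hc', rfl⟩
    exact ⟨c + c', O.add_mem hc hc', (add_smul _ _ _).symm⟩
  · exact ⟨0, O.zero_mem, (zero_smul _ _).symm⟩
  · intro r _
    have e1 : f (fun i => m i (r i) • b (r i)) = (∏ i, m i (r i)) • f (fun i => b (r i)) :=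
      f.toMultilinearMap.map_smul_univ (fun i => m i (r i)) (fun i => b (r i))
    have hp : (∏ i, m i (r i)) ∈ O := O.prod_mem fun i _ => hm i (r i)
    by_cases hr : Function.Injective r
    · have hb : Function.Bijective r := Finite.injective_iff_bijective.1 hr
      have e2 : f (fun i => b (r i)) = Equiv.Perm.sign (Equiv.ofBijective r hb) • f b :=
        f.map_perm b (Equiv.ofBijective r hb)
      rw [e1, e2]
      rcases Int.units_eq_one_or (Equiv.Perm.sign (Equiv.ofBijective r hb)) with hs | hs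
      · rw [hs, one_smul]
        exact ⟨_, hp, rfl⟩
      · rw [hs]
        refine ⟨-(∏ i, m i (r i)), O.neg_mem hp, ?_⟩
        rw [Units.neg_smul, one_smul, smul_neg, neg_smul]
    · have e2 : f (fun i => b (r i)) = 0 := by
        apply f.map_eq_zero_of_not_injective
        intro hinj
        exact hr (fun i j hij => hinj (congrArg b hij))
      rw [e1, e2, smul_zero]
      exact ⟨0, O.zero_mem, (zero_smul _ _).symm⟩

theorem gen_of_dep {K N : Type} [Field K] [Algebra k K] {ζ : N → K} {ζs : N → k}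
    {O : Subalgebra k K} {ev : O →ₐ[k] k} (h : AR ζ ζs O ev) {n : ℕ} (v : Fin n → K)
    (vs : Fin n → k) (hv : ∀ j, Val O ev (v j) (vs j)) (hd : ∀ i, Dep O v vs (ζ i) (ζs i))
    (h0 : dd k v ≠ 0) : IsGen k (O : Set K) n (dd k v) := by
  refine ⟨h0, AddSubgroup.subset_closure ⟨1, O.one_mem, v, fun j => (hv j).mem,
    (one_smul _ _).symm⟩, ?_⟩
  intro θ hθ
  unfold formsOn at hθ
  induction hθ using AddSubgroup.closure_induction with
  | mem ω hω =>
    obtain ⟨a, ha, u, hu, rfl⟩ := hω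
    have hD : ∀ i, LP2_D O v (KaehlerDifferential.D k K (u i)) := fun i => GEN_D h v vs hd (hu i)
    choose m hm hme using hD
    obtain ⟨c, hc, e⟩ := GEN_alt O (ExteriorAlgebra.ιMulti K n)
      (fun j => KaehlerDifferential.D k K (v j)) m hm
    refine ⟨a * c, O.mul_mem ha hc, ?_⟩
    have e2 : dd k u = c • dd k v := by
      unfold dd
      rw [← e]
      congr 1
      funext i
      exact hme i
    rw [e2, smul_smul]
  | zero => exact ⟨0, O.zero_mem, (zero_smul _ _).symm⟩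
  | add x y _ _ hx hy =>
    obtain ⟨a, ha, rfl⟩ := hx
    obtain ⟨b, hb, rfl⟩ := hy
    exact ⟨a + b, O.add_mem ha hb, (add_smul _ _ _).symm⟩
  | neg x _ hx =>
    obtain ⟨a, ha, rfl⟩ := hx
    exact ⟨-a, O.neg_mem ha, (neg_smul _ _).symm⟩

theorem GEN_smul_mem {K : Type} [Field K] [Algebra k K] {O : Subalgebra k K} {n : ℕ}
    {ω : Om k K} (h : ω ∈ formsOn k (O : Set K) n) {ε : K} (hε : ε ∈ O) :
    ε • ω ∈ formsOn k (O : Set K) n := by
  unfold formsOn at h ⊢
  induction h using AddSubgroup.closure_induction with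
  | mem ω hω =>
    obtain ⟨a, ha, u, hu, rfl⟩ := hω
    exact AddSubgroup.subset_closure ⟨ε * a, O.mul_mem hε ha, u, hu, smul_smul _ _ _⟩
  | zero => rw [smul_zero]; exact AddSubgroup.zero_mem _
  | add x y _ _ hx hy => rw [smul_add]; exact AddSubgroup.add_mem _ hx hy
  | neg x _ hx => rw [smul_neg]; exact AddSubgroup.neg_mem _ hx

theorem IsGen.smul {K : Type} [Field K] [Algebra k K] {O : Subalgebra k K} {n : ℕ}
    {ω : Om k K} (h : IsGen k (O : Set K) n ω) {ε : K} (hε : Un O ε) :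
    IsGen k (O : Set K) n (ε • ω) := by
  refine ⟨smul_ne_zero hε.2.2 h.1, GEN_smul_mem h.2.1 hε.1, ?_⟩
  intro θ hθ
  obtain ⟨a, ha, rfl⟩ := h.2.2 θ hθ
  refine ⟨a * ε⁻¹, O.mul_mem ha hε.2.1, ?_⟩
  rw [smul_smul, mul_assoc, inv_mul_cancel₀ hε.2.2, mul_one]

end Pool.Agent.H56.KN
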