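import Pool.Agent.H56.KN.Ex
import Pool.Agent.H56.KN.SCL
import Pool.Agent.H56.KN.VAL
import Pool.Agent.H56.KN.TLS

/-!
Part LE. The elliptic curve `b² R(a) = R'(a)`, `R = r₀ + r₁ a²`, `R' = r₀' + r₁' a²`.
Case `bs ≠ 0`: `s = a`, `ε = (b R)⁻¹`; `(b - bs)(b + bs) R(a) R(as) = (a - as)(a + as)(r₁' r₀ - r₁ r₀')`, and `b + bs` is a unit
(value `2 bs`); `2 b R db = 2 a (r₁' - b² r₁) da`. Case `bs = 0`: `s = b`: `R'(as) = 0`, `r₁' (a - as)(a + as) = b² R(a)` with `a + as`
a unit (value `2 as ≠ 0`), `a (r₁' - b² r₁) da = b R db` and `ε = (a (r₁' - b² r₁))⁻¹` (value `(as r₁')⁻¹`).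
-/

set_option autoImplicit false

namespace Pool.Agent.H56.KN

open MvPolynomial

variable {k : Type} [Field k]

theorem LE_two {K : Type} [Field K] [Algebra k K] (h2 : (2 : k) ≠ 0) : (2 : K) ≠ 0 := by
  have h : algebraMap k K 2 ≠ 0 := (map_ne_zero (algebraMap k K)).2 h2
  rwa [map_ofNat] at h

theorem LE_int {K : Type} [Field K] [Algebra k K] (n : ℤ) :
    KaehlerDifferential.D k K (n : K) = 0 := by
  have h := (KaehlerDifferential.D k K).map_algebraMap (n : k)
  rwa [map_intCast] at h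

theorem LE_sq {K : Type} [Field K] [Algebra k K] (a : K) :
    KaehlerDifferential.D k K (a ^ 2) = (2 * a) • KaehlerDifferential.D k K a := by
  rw [pow_two, Derivation.leibniz, ← add_smul]
  congr 1
  ring

theorem LE_DRq {K : Type} [Field K] [Algebra k K] (c : Fin 2 → ℤ) (a : K) :
    KaehlerDifferential.D k K (Rq c a) = (2 * (a * (c 1 : K))) • KaehlerDifferential.D k K a := by
  unfold Rq
  rw [map_add, LE_int, zero_add, Derivation.leibniz, LE_int, smul_zero, add_zero, LE_sq,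
    smul_smul]
  congr 1
  ring

theorem LE_dep {K : Type} [Field K] [Algebra k K] {O : Subalgebra k K} {s z : K} {ss zs : k}
    (c c' : K) (hc : c ∈ O) (hc' : c' ∈ O)
    (h : z - algebraMap k K zs = c * (s - algebraMap k K ss))
    (h' : KaehlerDifferential.D k K z = c' • KaehlerDifferential.D k K s) :
    Dep O ![s] ![ss] z zs := by
  refine ⟨⟨![c], ?_, ?_⟩, ⟨![c'], ?_, ?_⟩⟩
  · intro j
    fin_cases j
    exact hc
  · simpa using h
  · intro j
    fin_cases j
    exact hc'
  · simpa using h'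

/-- the differential relation -/
theorem LE_diff {K : Type} [Field K] [Algebra k K] (h2 : (2 : k) ≠ 0) (cr cr' : Fin 2 → ℤ)
    {a b : K} (hr : b ^ 2 * Rq cr a = Rq cr' a) :
    (b * Rq cr a) • KaehlerDifferential.D k K b =
      (a * ((cr' 1 : K) - b ^ 2 * (cr 1 : K))) • KaehlerDifferential.D k K a := by
  have hD := congrArg (KaehlerDifferential.D k K) hr
  rw [Derivation.leibniz, LE_DRq, LE_DRq, LE_sq, smul_smul, smul_smul] at hD
  have h2' : (2 : K) ≠ 0 := LE_two h2
  have h3 : (2 : K) • ((b * Rq cr a) • KaehlerDifferential.D k K b) =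
      (2 : K) • ((a * ((cr' 1 : K) - b ^ 2 * (cr 1 : K))) • KaehlerDifferential.D k K a) := by
    rw [smul_smul, smul_smul]
    have e1 : (2 : K) * (b * Rq cr a) = Rq cr a * (2 * b) := by ring
    have e2 : (2 : K) * (a * ((cr' 1 : K) - b ^ 2 * (cr 1 : K))) =
        2 * (a * (cr' 1 : K)) - b ^ 2 * (2 * (a * (cr 1 : K))) := by ring
    rw [e1, e2, sub_smul, ← hD]
    abel
  exact smul_right_injective _ h2' h3

theorem part_E {K : Type} [Field K] [Algebra k K] {O : Subalgebra k K} {ev : O →ₐ[k] k}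
    (hinv : ∀ f : O, ev f ≠ 0 → (f : K)⁻¹ ∈ O) (h2 : (2 : k) ≠ 0) (cr cr' : Fin 2 → ℤ)
    {a b : K} {as bs : k} (ha : Val O ev a as) (hb : Val O ev b bs)
    (hr : b ^ 2 * Rq cr a = Rq cr' a) (hrs : bs ^ 2 * Rq cr as = Rq cr' as)
    (hR : Rq cr as ≠ 0) (hab : bs = 0 → as ≠ 0) (hc : ((cr' 1 : ℤ) : k) ≠ 0) (hb0 : b ≠ 0) :
    ∃ (s : K) (ss : k) (ε : K), Val O ev s ss ∧ Dep O ![s] ![ss] a as ∧
      Dep O ![s] ![ss] b bs ∧ Un O ε ∧
      KaehlerDifferential.D k K a = (b * Rq cr a * ε) • KaehlerDifferential.D k K s := by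
  have hRa : Val O ev (Rq cr a) (Rq cr as) := Val.Rq cr ha
  have hdiff := LE_diff (K := K) h2 cr cr' hr
  have hce : algebraMap k K (Rq cr as) = Rq cr (algebraMap k K as) := by
    unfold Rq
    simp
  have hce' : algebraMap k K (Rq cr' as) = Rq cr' (algebraMap k K as) := by
    unfold Rq
    simp
  have hrs' := congrArg (algebraMap k K) hrs
  rw [map_mul, map_pow, hce, hce'] at hrs'
  by_cases hbs : bs = 0
  · have has : as ≠ 0 := hab hbs
    -- the unit `r₁' (a + as)`
    have hv1 : Val O ev (((cr' 1 : ℤ) : K) * (a + algebraMap k K as))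
        (((cr' 1 : ℤ) : k) * (as + as)) :=
      (Val.int O ev _).mul (ha.add (Val.const O ev as))
    have hv1n : ((cr' 1 : ℤ) : k) * (as + as) ≠ 0 := by
      rw [← two_mul]
      exact mul_ne_zero hc (mul_ne_zero h2 has)
    have hu1 := Val.un hinv hv1 hv1n
    have hv2 : Val O ev (a * (((cr' 1 : ℤ) : K) - b ^ 2 * ((cr 1 : ℤ) : K)))
        (as * (((cr' 1 : ℤ) : k) - bs ^ 2 * ((cr 1 : ℤ) : k))) :=
      ha.mul ((Val.int O ev _).sub ((hb.pow 2).mul (Val.int O ev _)))
    have hv2n : as * (((cr' 1 : ℤ) : k) - bs ^ 2 * ((cr 1 : ℤ) : k)) ≠ 0 := by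
      rw [hbs]
      refine mul_ne_zero has ?_
      simpa using hc
    have hu2 := Val.un hinv hv2 hv2n
    have hDa : KaehlerDifferential.D k K a =
        (b * Rq cr a * (a * (((cr' 1 : ℤ) : K) - b ^ 2 * ((cr 1 : ℤ) : K)))⁻¹) •
          KaehlerDifferential.D k K b := by
      rw [mul_comm, mul_smul, hdiff, smul_smul, inv_mul_cancel₀ hu2.2.2, one_smul]
    refine ⟨b, bs, (a * (((cr' 1 : ℤ) : K) - b ^ 2 * ((cr 1 : ℤ) : K)))⁻¹, hb, ?_, ?_, hu2.inv,
      hDa⟩
    · refine LE_dep (b * Rq cr a * (((cr' 1 : ℤ) : K) * (a + algebraMap k K as))⁻¹) _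
        (O.mul_mem (O.mul_mem hb.mem hRa.mem) hu1.2.1)
        (O.mul_mem (O.mul_mem hb.mem hRa.mem) hu2.2.1) ?_ hDa
      have h0 := hu1.2.2
      rw [hbs] at hrs' ⊢
      rw [map_zero] at hrs' ⊢
      rw [sub_zero]
      have key : (a - algebraMap k K as) * (((cr' 1 : ℤ) : K) * (a + algebraMap k K as)) =
          b * Rq cr a * b := by
        have e1 : b * Rq cr a * b = b ^ 2 * Rq cr a := by ring
        rw [e1, hr]
        unfold Rq at hrs' ⊢
        linear_combination hrs'
      calc a - algebraMap k K as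
          = (a - algebraMap k K as) * (((cr' 1 : ℤ) : K) * (a + algebraMap k K as)) *
            (((cr' 1 : ℤ) : K) * (a + algebraMap k K as))⁻¹ := by
              rw [mul_assoc, mul_inv_cancel₀ h0, mul_one]
        _ = _ := by rw [key]; ring
    · exact LE_dep 1 1 O.one_mem O.one_mem (by rw [one_mul]) (by rw [one_smul])
  · have hv1 : Val O ev (b * Rq cr a) (bs * Rq cr as) := hb.mul hRa
    have hu1 := Val.un hinv hv1 (mul_ne_zero hbs hR)
    have hv2 : Val O ev ((b + algebraMap k K bs) * Rq cr a * algebraMap k K (Rq cr as))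
        ((bs + bs) * Rq cr as * Rq cr as) :=
      ((hb.add (Val.const O ev bs)).mul hRa).mul (Val.const O ev _)
    have hv2n : (bs + bs) * Rq cr as * Rq cr as ≠ 0 := by
      rw [← two_mul]
      exact mul_ne_zero (mul_ne_zero (mul_ne_zero h2 hbs) hR) hR
    have hu2 := Val.un hinv hv2 hv2n
    refine ⟨a, as, (b * Rq cr a)⁻¹, ha, ?_, ?_, hu1.inv, ?_⟩
    · exact LE_dep 1 1 O.one_mem O.one_mem (by rw [one_mul]) (by rw [one_smul])
    · refine LE_dep ((a + algebraMap k K as) *
          (((cr' 1 : ℤ) : K) * ((cr 0 : ℤ) : K) - ((cr 1 : ℤ) : K) * ((cr' 0 : ℤ) : K)) *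
          ((b + algebraMap k K bs) * Rq cr a * algebraMap k K (Rq cr as))⁻¹)
        ((b * Rq cr a)⁻¹ * (a * (((cr' 1 : ℤ) : K) - b ^ 2 * ((cr 1 : ℤ) : K))))
        ?_ ?_ ?_ ?_
      · refine O.mul_mem (O.mul_mem (O.add_mem ha.mem (O.algebraMap_mem as)) ?_) hu2.2.1
        exact (((Val.int O ev _).mul (Val.int O ev _)).sub
          ((Val.int O ev _).mul (Val.int O ev _))).mem
      · refine O.mul_mem hu1.2.1 (O.mul_mem ha.mem ?_)
        exact ((Val.int O ev _).sub ((hb.pow 2).mul (Val.int O ev _))).mem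
      · have h0 := hu2.2.2
        have key : (b - algebraMap k K bs) *
            ((b + algebraMap k K bs) * Rq cr a * algebraMap k K (Rq cr as)) =
            (a + algebraMap k K as) *
          (((cr' 1 : ℤ) : K) * ((cr 0 : ℤ) : K) - ((cr 1 : ℤ) : K) * ((cr' 0 : ℤ) : K)) *
            (a - algebraMap k K as) := by
          rw [hce]
          have e1 : (b - algebraMap k K bs) *
            ((b + algebraMap k K bs) * Rq cr a * Rq cr (algebraMap k K as)) =
            (b ^ 2 * Rq cr a) * Rq cr (algebraMap k K as) -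
              ((algebraMap k K) bs ^ 2 * Rq cr (algebraMap k K as)) * Rq cr a := by ring
          rw [e1, hr, hrs']
          unfold Rq
          ring
        calc b - algebraMap k K bs
            = (b - algebraMap k K bs) *
              ((b + algebraMap k K bs) * Rq cr a * algebraMap k K (Rq cr as)) *
              ((b + algebraMap k K bs) * Rq cr a * algebraMap k K (Rq cr as))⁻¹ := by
                rw [mul_assoc, mul_inv_cancel₀ h0, mul_one]
          _ = _ := by rw [key]; ring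
      · rw [mul_smul, ← hdiff, smul_smul, inv_mul_cancel₀ hu1.2.2, one_smul]
    · rw [mul_inv_cancel₀ hu1.2.2, one_smul]

end Pool.Agent.H56.KN
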