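import Pool.Agent.H56.KN.Ex
import Pool.Agent.H56.KN.SCL
import Pool.Agent.H56.KN.VAL
import Pool.Agent.H56.KN.TLS

/-!
Part LP1. Case `Ws ≠ 0`, `us ≠ 0` (so `P* ≠ 0`): `v1 = x`, `v2 = y`, `ε = (W u P)⁻¹`.
`P = Bq cp x y`, `Q = Bq cq x y`. `(u - us)(u + us) = Q/P - Q*/P*`, `P - P* = (x² - xs²)(p₁₀ + p₁₁ y²) + (y² - ys²)(p₀₁ + p₁₁ xs²)`, the same for `Q`;
`(W - Ws)(W + Ws) = P R - P* R*`; `u + us` and `W + Ws` are units. Differentials: `2 u P du = dQ - u² dP`, `2 W dW = R dP + P dR`,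
`dP = 2x (p₁₀ + p₁₁ y²) dx + 2y (p₀₁ + p₁₁ x²) dy`.
-/

set_option autoImplicit false

namespace Pool.Agent.H56.KN

open MvPolynomial

variable {k : Type} [Field k]

theorem LP1_two {K : Type} [Field K] [Algebra k K] (h2 : (2 : k) ≠ 0) : (2 : K) ≠ 0 := by
  have h : algebraMap k K 2 ≠ 0 := (map_ne_zero (algebraMap k K)).2 h2
  rwa [map_ofNat] at h

theorem LP1_int {K : Type} [Field K] [Algebra k K] (n : ℤ) :
    KaehlerDifferential.D k K (n : K) = 0 := by
  have h := (KaehlerDifferential.D k K).map_algebraMap (n : k)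
  rwa [map_intCast] at h

theorem LP1_sq {K : Type} [Field K] [Algebra k K] (a : K) :
    KaehlerDifferential.D k K (a ^ 2) = (2 * a) • KaehlerDifferential.D k K a := by
  rw [pow_two, Derivation.leibniz, ← add_smul]
  congr 1
  ring

theorem LP1_DRq {K : Type} [Field K] [Algebra k K] (c : Fin 2 → ℤ) (a : K) :
    KaehlerDifferential.D k K (Rq c a) = (2 * (a * (c 1 : K))) • KaehlerDifferential.D k K a := by
  unfold Rq
  rw [map_add, LP1_int, zero_add, Derivation.leibniz, LP1_int, smul_zero, add_zero, LP1_sq,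
    smul_smul]
  congr 1
  ring

theorem LP1_DBq {K : Type} [Field K] [Algebra k K] (c : Fin 2 → Fin 2 → ℤ) (x y : K) :
    KaehlerDifferential.D k K (Bq c x y) =
      (2 * (x * ((c 1 0 : K) + (c 1 1 : K) * y ^ 2))) • KaehlerDifferential.D k K x +
      (2 * (y * ((c 0 1 : K) + (c 1 1 : K) * x ^ 2))) • KaehlerDifferential.D k K y := by
  unfold Bq
  simp only [map_add, LP1_int, zero_add, Derivation.leibniz, smul_zero, add_zero, LP1_sq,
    smul_smul]
  have e1 : (2 * (x * ((c 1 0 : K) + (c 1 1 : K) * y ^ 2))) =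
    (c 1 0 : K) * (2 * x) + y ^ 2 * ((c 1 1 : K) * (2 * x)) := by ring
  have e2 : (2 * (y * ((c 0 1 : K) + (c 1 1 : K) * x ^ 2))) =
    (c 0 1 : K) * (2 * y) + (c 1 1 : K) * x ^ 2 * (2 * y) := by ring
  rw [e1, e2, add_smul, add_smul]
  abel

theorem LP1_dep {K : Type} [Field K] [Algebra k K] {O : Subalgebra k K} {v1 v2 v3 z : K}
    {s1 s2 s3 zs : k} (e1 e2 e3 f1 f2 f3 : K) (h1 : e1 ∈ O) (h2 : e2 ∈ O) (h3 : e3 ∈ O)
    (g1 : f1 ∈ O) (g2 : f2 ∈ O) (g3 : f3 ∈ O)
    (h : z - algebraMap k K zs = e1 * (v1 - algebraMap k K s1) + e2 * (v2 - algebraMap k K s2) +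
      e3 * (v3 - algebraMap k K s3))
    (h' : KaehlerDifferential.D k K z = f1 • KaehlerDifferential.D k K v1 +
      f2 • KaehlerDifferential.D k K v2 + f3 • KaehlerDifferential.D k K v3) :
    Dep O ![v1, v2, v3] ![s1, s2, s3] z zs := by
  refine ⟨⟨![e1, e2, e3], ?_, ?_⟩, ⟨![f1, f2, f3], ?_, ?_⟩⟩
  · intro j
    fin_cases j
    · exact h1
    · exact h2
    · exact h3
  · simpa [Fin.sum_univ_three] using h
  · intro j
    fin_cases j
    · exact g1
    · exact g2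
    · exact g3
  · simpa [Fin.sum_univ_three] using h'

/-- the differential of `u` -/
theorem LP1_du {K : Type} [Field K] [Algebra k K] (h2 : (2 : k) ≠ 0)
    (cp cq : Fin 2 → Fin 2 → ℤ) {x y u : K} (hQ : u ^ 2 * Bq cp x y = Bq cq x y) :
    (u * Bq cp x y) • KaehlerDifferential.D k K u =
      (x * ((cq 1 0 : K) + (cq 1 1 : K) * y ^ 2) -
        u ^ 2 * (x * ((cp 1 0 : K) + (cp 1 1 : K) * y ^ 2))) • KaehlerDifferential.D k K x +
      (y * ((cq 0 1 : K) + (cq 1 1 : K) * x ^ 2) -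
        u ^ 2 * (y * ((cp 0 1 : K) + (cp 1 1 : K) * x ^ 2))) • KaehlerDifferential.D k K y := by
  have hD := congrArg (KaehlerDifferential.D k K) hQ
  rw [Derivation.leibniz, LP1_DBq, LP1_DBq, LP1_sq, smul_smul, smul_add, smul_smul,
    smul_smul] at hD
  have h2' : (2 : K) ≠ 0 := LP1_two h2
  refine smul_right_injective _ h2' ?_
  simp only []
  linear_combination (norm := module) hD

/-- the differential of `W` -/
theorem LP1_dW {K : Type} [Field K] [Algebra k K] (h2 : (2 : k) ≠ 0)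
    (cp : Fin 2 → Fin 2 → ℤ) (cr : Fin 2 → ℤ) {x y a W : K}
    (hW : W ^ 2 = Bq cp x y * Rq cr a) :
    W • KaehlerDifferential.D k K W =
      (Rq cr a * (x * ((cp 1 0 : K) + (cp 1 1 : K) * y ^ 2))) • KaehlerDifferential.D k K x +
      (Rq cr a * (y * ((cp 0 1 : K) + (cp 1 1 : K) * x ^ 2))) • KaehlerDifferential.D k K y +
      (Bq cp x y * (a * (cr 1 : K))) • KaehlerDifferential.D k K a := by
  have hD := congrArg (KaehlerDifferential.D k K) hW
  rw [Derivation.leibniz, LP1_DBq, LP1_DRq, LP1_sq, smul_smul, smul_add, smul_smul,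
    smul_smul] at hD
  have h2' : (2 : K) ≠ 0 := LP1_two h2
  refine smul_right_injective _ h2' ?_
  simp only []
  linear_combination (norm := module) hD

theorem part_P1 {K : Type} [Field K] [Algebra k K] {O : Subalgebra k K} {ev : O →ₐ[k] k}
    (hinv : ∀ f : O, ev f ≠ 0 → (f : K)⁻¹ ∈ O) (h2 : (2 : k) ≠ 0)
    (cp cq : Fin 2 → Fin 2 → ℤ) (cr : Fin 2 → ℤ) {x y u a W : K} {xs ys us as Ws : k}
    (hx : Val O ev x xs) (hy : Val O ev y ys) (hu : Val O ev u us) (ha : Val O ev a as)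
    (hw : Val O ev W Ws) (hQ : u ^ 2 * Bq cp x y = Bq cq x y)
    (hQs : us ^ 2 * Bq cp xs ys = Bq cq xs ys) (hW : W ^ 2 = Bq cp x y * Rq cr a)
    (hWs : Ws ^ 2 = Bq cp xs ys * Rq cr as) (hR : Rq cr as ≠ 0) (hW0 : W ≠ 0) (hu0 : u ≠ 0)
    (c1 : Ws ≠ 0) (c2 : us ≠ 0) :
    ∃ (v1 v2 : K) (s1 s2 : k) (ε : K), Val O ev v1 s1 ∧ Val O ev v2 s2 ∧
      Dep O ![v1, v2, a] ![s1, s2, as] x xs ∧ Dep O ![v1, v2, a] ![s1, s2, as] y ys ∧
      Dep O ![v1, v2, a] ![s1, s2, as] u us ∧ Dep O ![v1, v2, a] ![s1, s2, as] W Ws ∧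
      Un O ε ∧ (W * (u * Bq cp x y))⁻¹ • dd k ![x, y, a] = ε • dd k ![v1, v2, a] := by
  have hP : Val O ev (Bq cp x y) (Bq cp xs ys) := Val.Bq cp hx hy
  have hRa : Val O ev (Rq cr a) (Rq cr as) := Val.Rq cr ha
  have hPs : Bq cp xs ys ≠ 0 := by
    intro h
    rw [h, zero_mul] at hWs
    exact c1 (pow_eq_zero_iff (two_ne_zero) |>.1 hWs)
  have hce : ∀ c : Fin 2 → Fin 2 → ℤ, algebraMap k K (Bq c xs ys) =
      Bq c (algebraMap k K xs) (algebraMap k K ys) := by
    intro c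
    unfold Bq
    simp
  have hce' : algebraMap k K (Rq cr as) = Rq cr (algebraMap k K as) := by
    unfold Rq
    simp
  have hQs' := congrArg (algebraMap k K) hQs
  rw [map_mul, map_pow, hce, hce] at hQs'
  have hWs' := congrArg (algebraMap k K) hWs
  rw [map_mul, map_pow, hce, hce'] at hWs'
  have hi : ∀ n : ℤ, (n : K) ∈ O := fun n => (Val.int O ev n).mem
  have hk : ∀ c : k, algebraMap k K c ∈ O := fun c => O.algebraMap_mem c
  -- units
  have hvW : Un O W := Val.un hinv hw c1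
  have hvuP : Un O (u * Bq cp x y) := Val.un hinv (hu.mul hP) (mul_ne_zero c2 hPs)
  have hvu : Un O ((u + algebraMap k K us) * Bq cp x y * algebraMap k K (Bq cp xs ys)) := by
    refine Val.un hinv (((hu.add (Val.const O ev us)).mul hP).mul (Val.const O ev _)) ?_
    rw [← two_mul]
    exact mul_ne_zero (mul_ne_zero (mul_ne_zero h2 c2) hPs) hPs
  have hvW2 : Un O (W + algebraMap k K Ws) := by
    refine Val.un hinv (hw.add (Val.const O ev Ws)) ?_
    rw [← two_mul]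
    exact mul_ne_zero h2 c1
  have hdu := LP1_du (K := K) h2 cp cq hQ
  have hdW := LP1_dW (K := K) h2 cp cr hW
  refine ⟨x, y, xs, ys, (W * (u * Bq cp x y))⁻¹, hx, hy, ?_, ?_, ?_, ?_, (hvW.mul hvuP).inv, rfl⟩
  · exact LP1_dep 1 0 0 1 0 0 O.one_mem O.zero_mem O.zero_mem O.one_mem O.zero_mem O.zero_mem
      (by ring) (by simp)
  · exact LP1_dep 0 1 0 0 1 0 O.zero_mem O.one_mem O.zero_mem O.zero_mem O.one_mem O.zero_mem
      (by ring) (by simp)
  · -- `u`
    have h0 := hvu.2.2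
    refine LP1_dep
      ((x + algebraMap k K xs) * (((cq 1 0 : K) + (cq 1 1 : K) * y ^ 2) *
        algebraMap k K (Bq cp xs ys) - algebraMap k K (Bq cq xs ys) *
          ((cp 1 0 : K) + (cp 1 1 : K) * y ^ 2)) *
        ((u + algebraMap k K us) * Bq cp x y * algebraMap k K (Bq cp xs ys))⁻¹)
      ((y + algebraMap k K ys) * (((cq 0 1 : K) + (cq 1 1 : K) * algebraMap k K xs ^ 2) *
        algebraMap k K (Bq cp xs ys) - algebraMap k K (Bq cq xs ys) *
          ((cp 0 1 : K) + (cp 1 1 : K) * algebraMap k K xs ^ 2)) *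
        ((u + algebraMap k K us) * Bq cp x y * algebraMap k K (Bq cp xs ys))⁻¹)
      0
      ((u * Bq cp x y)⁻¹ * (x * ((cq 1 0 : K) + (cq 1 1 : K) * y ^ 2) -
        u ^ 2 * (x * ((cp 1 0 : K) + (cp 1 1 : K) * y ^ 2))))
      ((u * Bq cp x y)⁻¹ * (y * ((cq 0 1 : K) + (cq 1 1 : K) * x ^ 2) -
        u ^ 2 * (y * ((cp 0 1 : K) + (cp 1 1 : K) * x ^ 2))))
      0 ?_ ?_ O.zero_mem ?_ ?_ O.zero_mem ?_ ?_
    · refine O.mul_mem (O.mul_mem (O.add_mem hx.mem (hk _)) (O.sub_mem ?_ ?_)) hvu.2.1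
      · exact O.mul_mem (O.add_mem (hi _) (O.mul_mem (hi _) (O.pow_mem hy.mem 2))) (hk _)
      · exact O.mul_mem (hk _) (O.add_mem (hi _) (O.mul_mem (hi _) (O.pow_mem hy.mem 2)))
    · refine O.mul_mem (O.mul_mem (O.add_mem hy.mem (hk _)) (O.sub_mem ?_ ?_)) hvu.2.1
      · exact O.mul_mem (O.add_mem (hi _) (O.mul_mem (hi _) (O.pow_mem (hk _) 2))) (hk _)
      · exact O.mul_mem (hk _) (O.add_mem (hi _) (O.mul_mem (hi _) (O.pow_mem (hk _) 2)))
    · refine O.mul_mem hvuP.2.1 (O.sub_mem ?_ ?_)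
      · exact O.mul_mem hx.mem (O.add_mem (hi _) (O.mul_mem (hi _) (O.pow_mem hy.mem 2)))
      · exact O.mul_mem (O.pow_mem hu.mem 2)
          (O.mul_mem hx.mem (O.add_mem (hi _) (O.mul_mem (hi _) (O.pow_mem hy.mem 2))))
    · refine O.mul_mem hvuP.2.1 (O.sub_mem ?_ ?_)
      · exact O.mul_mem hy.mem (O.add_mem (hi _) (O.mul_mem (hi _) (O.pow_mem hx.mem 2)))
      · exact O.mul_mem (O.pow_mem hu.mem 2)
          (O.mul_mem hy.mem (O.add_mem (hi _) (O.mul_mem (hi _) (O.pow_mem hx.mem 2))))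
    · have key : (u - algebraMap k K us) *
          ((u + algebraMap k K us) * Bq cp x y * algebraMap k K (Bq cp xs ys)) =
          (x + algebraMap k K xs) * (((cq 1 0 : K) + (cq 1 1 : K) * y ^ 2) *
          algebraMap k K (Bq cp xs ys) - algebraMap k K (Bq cq xs ys) *
            ((cp 1 0 : K) + (cp 1 1 : K) * y ^ 2)) * (x - algebraMap k K xs) +
          (y + algebraMap k K ys) * (((cq 0 1 : K) + (cq 1 1 : K) * algebraMap k K xs ^ 2) *
          algebraMap k K (Bq cp xs ys) - algebraMap k K (Bq cq xs ys) *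
            ((cp 0 1 : K) + (cp 1 1 : K) * algebraMap k K xs ^ 2)) * (y - algebraMap k K ys) := by
        rw [hce, hce]
        have e1 : (u - algebraMap k K us) *
          ((u + algebraMap k K us) * Bq cp x y * Bq cp (algebraMap k K xs) (algebraMap k K ys)) =
          (u ^ 2 * Bq cp x y) * Bq cp (algebraMap k K xs) (algebraMap k K ys) -
          (algebraMap k K us ^ 2 * Bq cp (algebraMap k K xs) (algebraMap k K ys)) * Bq cp x y := by
          ring
        rw [e1, hQ, hQs']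
        unfold Bq
        ring
      calc u - algebraMap k K us
          = (u - algebraMap k K us) *
            ((u + algebraMap k K us) * Bq cp x y * algebraMap k K (Bq cp xs ys)) *
            ((u + algebraMap k K us) * Bq cp x y * algebraMap k K (Bq cp xs ys))⁻¹ := by
              rw [mul_assoc, mul_inv_cancel₀ h0, mul_one]
        _ = _ := by rw [key]; ring
    · rw [mul_smul, mul_smul, zero_smul, add_zero, ← smul_add, ← hdu, smul_smul,
        inv_mul_cancel₀ hvuP.2.2, one_smul]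
  · -- `W`
    have h0 := hvW2.2.2
    refine LP1_dep
      ((x + algebraMap k K xs) * ((cp 1 0 : K) + (cp 1 1 : K) * y ^ 2) * Rq cr a *
        (W + algebraMap k K Ws)⁻¹)
      ((y + algebraMap k K ys) * ((cp 0 1 : K) + (cp 1 1 : K) * algebraMap k K xs ^ 2) *
        Rq cr a * (W + algebraMap k K Ws)⁻¹)
      (algebraMap k K (Bq cp xs ys) * ((cr 1 : K) * (a + algebraMap k K as)) *
        (W + algebraMap k K Ws)⁻¹)
      (W⁻¹ * (Rq cr a * (x * ((cp 1 0 : K) + (cp 1 1 : K) * y ^ 2))))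
      (W⁻¹ * (Rq cr a * (y * ((cp 0 1 : K) + (cp 1 1 : K) * x ^ 2))))
      (W⁻¹ * (Bq cp x y * (a * (cr 1 : K)))) ?_ ?_ ?_ ?_ ?_ ?_ ?_ ?_
    · exact O.mul_mem (O.mul_mem (O.mul_mem (O.add_mem hx.mem (hk _))
        (O.add_mem (hi _) (O.mul_mem (hi _) (O.pow_mem hy.mem 2)))) hRa.mem) hvW2.2.1
    · exact O.mul_mem (O.mul_mem (O.mul_mem (O.add_mem hy.mem (hk _))
        (O.add_mem (hi _) (O.mul_mem (hi _) (O.pow_mem (hk _) 2)))) hRa.mem) hvW2.2.1
    · exact O.mul_mem (O.mul_mem (hk _) (O.mul_mem (hi _) (O.add_mem ha.mem (hk _)))) hvW2.2.1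
    · exact O.mul_mem hvW.2.1 (O.mul_mem hRa.mem (O.mul_mem hx.mem
        (O.add_mem (hi _) (O.mul_mem (hi _) (O.pow_mem hy.mem 2)))))
    · exact O.mul_mem hvW.2.1 (O.mul_mem hRa.mem (O.mul_mem hy.mem
        (O.add_mem (hi _) (O.mul_mem (hi _) (O.pow_mem hx.mem 2)))))
    · exact O.mul_mem hvW.2.1 (O.mul_mem hP.mem (O.mul_mem ha.mem (hi _)))
    · have key : (W - algebraMap k K Ws) * (W + algebraMap k K Ws) =
          (x + algebraMap k K xs) * ((cp 1 0 : K) + (cp 1 1 : K) * y ^ 2) * Rq cr a *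
            (x - algebraMap k K xs) +
          (y + algebraMap k K ys) * ((cp 0 1 : K) + (cp 1 1 : K) * algebraMap k K xs ^ 2) *
            Rq cr a * (y - algebraMap k K ys) +
          algebraMap k K (Bq cp xs ys) * ((cr 1 : K) * (a + algebraMap k K as)) *
            (a - algebraMap k K as) := by
        rw [hce]
        have e1 : (W - algebraMap k K Ws) * (W + algebraMap k K Ws) =
          W ^ 2 - algebraMap k K Ws ^ 2 := by ring
        rw [e1, hW, hWs']
        unfold Bq Rq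
        ring
      calc W - algebraMap k K Ws
          = (W - algebraMap k K Ws) * (W + algebraMap k K Ws) * (W + algebraMap k K Ws)⁻¹ := by
              rw [mul_assoc, mul_inv_cancel₀ h0, mul_one]
        _ = _ := by rw [key]; ring
    · rw [mul_smul W⁻¹, mul_smul W⁻¹, mul_smul W⁻¹, ← smul_add, ← smul_add, ← hdW, smul_smul,
        inv_mul_cancel₀ hvW.2.2, one_smul]

end Pool.Agent.H56.KN
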