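import Pool.Agent.H56.KN.Ex
import Pool.Agent.H56.KN.SCL
import Pool.Agent.H56.KN.VAL
import Pool.Agent.H56.KN.TLS
import Pool.Agent.H56.KN.LP2

/-!
Part LP3. Case `Ws = 0` (so `P* = Q* = 0`): `v1 = W`, `v2 = u`. `P = W² / R`, `Q = u² P`, `R` a unit.
`P = (x² - xs²)(p₁₀ + p₁₁ y²) + (y² - ys²)(p₀₁ + p₁₁ xs²)`, the same for `Q`; the determinant
`(p₁₀ + p₁₁ y²)(q₀₁ + q₁₁ xs²) - (p₀₁ + p₁₁ xs²)(q₁₀ + q₁₁ y²)` is a unit, so `x² - xs²` and `y² - ys²` are in `O W²`, and `x + xs`, `y + ys` are units.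
Differentials: with `P_x = 2x (p₁₀ + p₁₁ y²)` etc. `J = P_x Q_y - P_y Q_x` is a unit, `P_x dx + P_y dy = dP = 2 W R⁻¹ dW - W² R⁻² dR`,
`Q_x dx + Q_y dy = dQ = 2 u P du + u² dP` (Cramer). `J dx∧dy = dP∧dQ = 2 u P dP∧du`, and `dP∧du∧da = 2 W R⁻¹ dW∧du∧da`, so
`(W u P)⁻¹ dx∧dy∧da = 4 (J R)⁻¹ dW∧du∧da`.
-/

set_option autoImplicit false

namespace Pool.Agent.H56.KN

open MvPolynomial

variable {k : Type} [Field k]

theorem part_P3 {K : Type} [Field K] [Algebra k K] {O : Subalgebra k K} {ev : O →ₐ[k] k}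
    (hinv : ∀ f : O, ev f ≠ 0 → (f : K)⁻¹ ∈ O) (h2 : (2 : k) ≠ 0)
    (cp cq : Fin 2 → Fin 2 → ℤ) (cr : Fin 2 → ℤ) {x y u a W : K} {xs ys us as Ws : k}
    (hx : Val O ev x xs) (hy : Val O ev y ys) (hu : Val O ev u us) (ha : Val O ev a as)
    (hw : Val O ev W Ws) (hQ : u ^ 2 * Bq cp x y = Bq cq x y)
    (hQs : us ^ 2 * Bq cp xs ys = Bq cq xs ys) (hW : W ^ 2 = Bq cp x y * Rq cr a)
    (hWs : Ws ^ 2 = Bq cp xs ys * Rq cr as) (hR : Rq cr as ≠ 0) (hW0 : W ≠ 0) (hu0 : u ≠ 0)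
    (c1 : Ws = 0)
    (N3 : xs ≠ 0 ∧ ys ≠ 0 ∧
      ((cp 1 0 : k) + (cp 1 1 : k) * ys ^ 2) * ((cq 0 1 : k) + (cq 1 1 : k) * xs ^ 2) -
      ((cp 0 1 : k) + (cp 1 1 : k) * xs ^ 2) * ((cq 1 0 : k) + (cq 1 1 : k) * ys ^ 2) ≠ 0) :
    ∃ (v1 v2 : K) (s1 s2 : k) (ε : K), Val O ev v1 s1 ∧ Val O ev v2 s2 ∧
      Dep O ![v1, v2, a] ![s1, s2, as] x xs ∧ Dep O ![v1, v2, a] ![s1, s2, as] y ys ∧
      Dep O ![v1, v2, a] ![s1, s2, as] u us ∧ Dep O ![v1, v2, a] ![s1, s2, as] W Ws ∧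
      Un O ε ∧ (W * (u * Bq cp x y))⁻¹ • dd k ![x, y, a] = ε • dd k ![v1, v2, a] := by
  obtain ⟨hxs, hys, hN⟩ := N3
  have hP0 : Bq cp x y ≠ 0 := by
    intro h; rw [h, zero_mul] at hW; exact hW0 (pow_eq_zero_iff (by norm_num) |>.1 hW)
  have hPs : Bq cp xs ys = 0 := by
    rw [c1] at hWs
    have h0 : Bq cp xs ys * Rq cr as = 0 := by rw [← hWs]; ring
    exact (mul_eq_zero.1 h0).resolve_right hR
  have hQs0 : Bq cq xs ys = 0 := by rw [← hQs, hPs, mul_zero]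
  have hxO := hx.mem
  have hyO := hy.mem
  have huO := hu.mem
  have haO := ha.mem
  have hWO := hw.mem
  have i0 := fun m : ℤ => LP2_int_mem (O := O) m
  have hPO : Bq cp x y ∈ O := LP2_Bq_mem cp hxO hyO
  have h2K : (2 : K) ≠ 0 := by
    have := (map_ne_zero (algebraMap k K)).2 h2
    rwa [map_ofNat] at this
  have h2O : (2 : K) ∈ O := by
    have := LP2_int_mem (O := O) 2
    rwa [Int.cast_ofNat] at this
  have h2V : Val O ev (2 : K) (2 : k) := by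
    have := Val.int O ev 2
    rwa [Int.cast_ofNat, Int.cast_ofNat] at this
  obtain ⟨hRO, hRiO, hR0⟩ := (Val.Rq cr ha).un hinv hR
  -- the units
  have hxp : Val O ev (x + algebraMap k K xs) (xs + xs) := hx.add (Val.const O ev xs)
  have hyp : Val O ev (y + algebraMap k K ys) (ys + ys) := hy.add (Val.const O ev ys)
  obtain ⟨_, hxpiO, hxp0⟩ := hxp.un hinv (by rw [← two_mul]; exact mul_ne_zero h2 hxs)
  obtain ⟨_, hypiO, hyp0⟩ := hyp.un hinv (by rw [← two_mul]; exact mul_ne_zero h2 hys)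
  obtain ⟨_, hxiO, hx0⟩ := hx.un hinv hxs
  obtain ⟨_, hyiO, hy0⟩ := hy.un hinv hys
  set p1 : K := (cp 1 0 : K) + (cp 1 1 : K) * y ^ 2 with hp1
  set q1 : K := (cq 1 0 : K) + (cq 1 1 : K) * y ^ 2 with hq1
  set p2 : K := (cp 0 1 : K) + (cp 1 1 : K) * algebraMap k K xs ^ 2 with hp2
  set q2 : K := (cq 0 1 : K) + (cq 1 1 : K) * algebraMap k K xs ^ 2 with hq2
  have hp1V : Val O ev p1 ((cp 1 0 : k) + (cp 1 1 : k) * ys ^ 2) :=
    (Val.int O ev _).add ((Val.int O ev _).mul (hy.pow 2))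
  have hq1V : Val O ev q1 ((cq 1 0 : k) + (cq 1 1 : k) * ys ^ 2) :=
    (Val.int O ev _).add ((Val.int O ev _).mul (hy.pow 2))
  have hp2V : Val O ev p2 ((cp 0 1 : k) + (cp 1 1 : k) * xs ^ 2) :=
    (Val.int O ev _).add ((Val.int O ev _).mul ((Val.const O ev xs).pow 2))
  have hq2V : Val O ev q2 ((cq 0 1 : k) + (cq 1 1 : k) * xs ^ 2) :=
    (Val.int O ev _).add ((Val.int O ev _).mul ((Val.const O ev xs).pow 2))
  obtain ⟨_, hDiO, hD0⟩ := ((hp1V.mul hq2V).sub (hp2V.mul hq1V)).un hinv hN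
  -- the partial derivatives
  set Px : K := 2 * x * ((cp 1 0 : K) + (cp 1 1 : K) * y ^ 2) with hPx
  set Py : K := 2 * y * ((cp 0 1 : K) + (cp 1 1 : K) * x ^ 2) with hPy
  set Qx : K := 2 * x * ((cq 1 0 : K) + (cq 1 1 : K) * y ^ 2) with hQx
  set Qy : K := 2 * y * ((cq 0 1 : K) + (cq 1 1 : K) * x ^ 2) with hQy
  have hPxV : Val O ev Px (2 * xs * ((cp 1 0 : k) + (cp 1 1 : k) * ys ^ 2)) :=
    (h2V.mul hx).mul ((Val.int O ev _).add ((Val.int O ev _).mul (hy.pow 2)))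
  have hQxV : Val O ev Qx (2 * xs * ((cq 1 0 : k) + (cq 1 1 : k) * ys ^ 2)) :=
    (h2V.mul hx).mul ((Val.int O ev _).add ((Val.int O ev _).mul (hy.pow 2)))
  have hPyV : Val O ev Py (2 * ys * ((cp 0 1 : k) + (cp 1 1 : k) * xs ^ 2)) :=
    (h2V.mul hy).mul ((Val.int O ev _).add ((Val.int O ev _).mul (hx.pow 2)))
  have hQyV : Val O ev Qy (2 * ys * ((cq 0 1 : k) + (cq 1 1 : k) * xs ^ 2)) :=
    (h2V.mul hy).mul ((Val.int O ev _).add ((Val.int O ev _).mul (hx.pow 2)))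
  have hJV := (hPxV.mul hQyV).sub (hPyV.mul hQxV)
  have hJn : 2 * xs * ((cp 1 0 : k) + (cp 1 1 : k) * ys ^ 2) *
      (2 * ys * ((cq 0 1 : k) + (cq 1 1 : k) * xs ^ 2)) -
      2 * ys * ((cp 0 1 : k) + (cp 1 1 : k) * xs ^ 2) *
      (2 * xs * ((cq 1 0 : k) + (cq 1 1 : k) * ys ^ 2)) ≠ 0 := by
    have e : 2 * xs * ((cp 1 0 : k) + (cp 1 1 : k) * ys ^ 2) *
      (2 * ys * ((cq 0 1 : k) + (cq 1 1 : k) * xs ^ 2)) -
      2 * ys * ((cp 0 1 : k) + (cp 1 1 : k) * xs ^ 2) *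
      (2 * xs * ((cq 1 0 : k) + (cq 1 1 : k) * ys ^ 2)) =
      (2 * xs) * (2 * ys) *
      (((cp 1 0 : k) + (cp 1 1 : k) * ys ^ 2) * ((cq 0 1 : k) + (cq 1 1 : k) * xs ^ 2) -
      ((cp 0 1 : k) + (cp 1 1 : k) * xs ^ 2) * ((cq 1 0 : k) + (cq 1 1 : k) * ys ^ 2)) := by
      ring
    rw [e]
    exact mul_ne_zero (mul_ne_zero (mul_ne_zero h2 hxs) (mul_ne_zero h2 hys)) hN
  obtain ⟨hJO, hJiO, hJ0⟩ := hJV.un hinv hJn
  set J : K := Px * Qy - Py * Qx with hJ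
  have hPxO := hPxV.mem
  have hPyO := hPyV.mem
  have hQxO := hQxV.mem
  have hQyO := hQyV.mem
  set Z : K := Bq cp x y with hZ
  set RR : K := Rq cr a with hRR
  have hZW : Z = W * RR⁻¹ * W := by
    field_simp
    rw [← hW]
  -- differentials
  set A : K := 2 * W * RR⁻¹ with hA
  set B : K := -(Z * RR⁻¹ * (2 * (cr 1 : K) * a)) with hB
  have hdP : KaehlerDifferential.D k K Z =
      A • KaehlerDifferential.D k K W + B • KaehlerDifferential.D k K a := by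
    have h := congrArg (KaehlerDifferential.D k K) hW
    rw [Derivation.leibniz, LP2_Dsq, hRR, LP2_DRq, ← hRR] at h
    have h' : RR • KaehlerDifferential.D k K Z =
        (2 * W) • KaehlerDifferential.D k K W -
          Z • (2 * (cr 1 : K) * a) • KaehlerDifferential.D k K a := by
      rw [h]; abel
    have h'' : KaehlerDifferential.D k K Z = RR⁻¹ • (RR • KaehlerDifferential.D k K Z) := by
      rw [smul_smul, inv_mul_cancel₀ hR0, one_smul]
    rw [h'', h', hA, hB]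
    module
  have hdQ : Qx • KaehlerDifferential.D k K x + Qy • KaehlerDifferential.D k K y =
      (2 * u * Z) • KaehlerDifferential.D k K u + (u ^ 2) • KaehlerDifferential.D k K Z := by
    have h := congrArg (KaehlerDifferential.D k K) hQ
    rw [Derivation.leibniz, LP2_Dsq, LP2_DBq cq] at h
    rw [← h]
    module
  have hdP' : Px • KaehlerDifferential.D k K x + Py • KaehlerDifferential.D k K y =
      KaehlerDifferential.D k K Z := by
    rw [hZ, LP2_DBq cp]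
  have hDx : KaehlerDifferential.D k K x =
      (J⁻¹ * ((Qy - Py * u ^ 2) * A)) • KaehlerDifferential.D k K W +
      (-(J⁻¹ * (Py * (2 * u * Z)))) • KaehlerDifferential.D k K u +
      (J⁻¹ * ((Qy - Py * u ^ 2) * B)) • KaehlerDifferential.D k K a := by
    have h1 : J • KaehlerDifferential.D k K x =
        Qy • (Px • KaehlerDifferential.D k K x + Py • KaehlerDifferential.D k K y) -
        Py • (Qx • KaehlerDifferential.D k K x + Qy • KaehlerDifferential.D k K y) := by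
      rw [hJ]; module
    rw [hdQ, hdP', hdP] at h1
    have h2 : KaehlerDifferential.D k K x = J⁻¹ • (J • KaehlerDifferential.D k K x) := by
      rw [smul_smul, inv_mul_cancel₀ hJ0, one_smul]
    rw [h2, h1]
    module
  have hDy : KaehlerDifferential.D k K y =
      (J⁻¹ * ((Px * u ^ 2 - Qx) * A)) • KaehlerDifferential.D k K W +
      (J⁻¹ * (Px * (2 * u * Z))) • KaehlerDifferential.D k K u +
      (J⁻¹ * ((Px * u ^ 2 - Qx) * B)) • KaehlerDifferential.D k K a := by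
    have h1 : J • KaehlerDifferential.D k K y =
        Px • (Qx • KaehlerDifferential.D k K x + Qy • KaehlerDifferential.D k K y) -
        Qx • (Px • KaehlerDifferential.D k K x + Py • KaehlerDifferential.D k K y) := by
      rw [hJ]; module
    rw [hdQ, hdP', hdP] at h1
    have h2 : KaehlerDifferential.D k K y = J⁻¹ • (J • KaehlerDifferential.D k K y) := by
      rw [smul_smul, inv_mul_cancel₀ hJ0, one_smul]
    rw [h2, h1]
    module
  have hAO : A ∈ O := O.mul_mem (O.mul_mem h2O hWO) hRiO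
  have hBO : B ∈ O := O.neg_mem (O.mul_mem (O.mul_mem hPO hRiO)
    (O.mul_mem (O.mul_mem h2O (i0 _)) haO))
  have hu2O := O.pow_mem huO 2
  -- the ideal
  have hdW : Dep O ![W, u, a] ![Ws, us, as] W Ws := LP2_dep_coord (v := ![W, u, a]) 0
  have hdu : Dep O ![W, u, a] ![Ws, us, as] u us := LP2_dep_coord (v := ![W, u, a]) 1
  have hda : Dep O ![W, u, a] ![Ws, us, as] a as := LP2_dep_coord (v := ![W, u, a]) 2
  have hWI : LP2_I O ![W, u, a] ![Ws, us, as] W := by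
    have := hdW.1
    rw [c1, map_zero, sub_zero, ← c1] at this
    exact this
  have hq0 : (cq 0 0 : K) + (cq 1 0 : K) * algebraMap k K xs ^ 2 +
      (cq 0 1 : K) * algebraMap k K ys ^ 2 +
      (cq 1 1 : K) * algebraMap k K xs ^ 2 * algebraMap k K ys ^ 2 = 0 := by
    have h := congrArg (algebraMap k K) hQs0
    unfold Bq at h
    simpa using h
  have hp0 : (cp 0 0 : K) + (cp 1 0 : K) * algebraMap k K xs ^ 2 +
      (cp 0 1 : K) * algebraMap k K ys ^ 2 +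
      (cp 1 1 : K) * algebraMap k K xs ^ 2 * algebraMap k K ys ^ 2 = 0 := by
    have h := congrArg (algebraMap k K) hPs
    unfold Bq at h
    simpa using h
  have eP : (x ^ 2 - algebraMap k K xs ^ 2) * p1 + (y ^ 2 - algebraMap k K ys ^ 2) * p2 = Z := by
    rw [hZ, hp1, hp2]; unfold Bq
    linear_combination (-1 : K) * hp0
  have eQ : (x ^ 2 - algebraMap k K xs ^ 2) * q1 + (y ^ 2 - algebraMap k K ys ^ 2) * q2 =
      u ^ 2 * Z := by
    rw [hQ, hq1, hq2]; unfold Bq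
    linear_combination (-1 : K) * hq0
  have hdx : Dep O ![W, u, a] ![Ws, us, as] x xs := by
    refine LP2_dep_mk ?_ ?_
    · have e : x - algebraMap k K xs = ((x + algebraMap k K xs)⁻¹ * (p1 * q2 - p2 * q1)⁻¹ *
          ((q2 - p2 * u ^ 2) * (W * RR⁻¹))) * W := by
        have e1 : (q2 - p2 * u ^ 2) * (W * RR⁻¹) * W = (q2 - p2 * u ^ 2) * Z := by
          rw [hZW]; ring
        have e2 : ((x + algebraMap k K xs)⁻¹ * (p1 * q2 - p2 * q1)⁻¹ *
          ((q2 - p2 * u ^ 2) * (W * RR⁻¹))) * W = (x + algebraMap k K xs)⁻¹ *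
          (p1 * q2 - p2 * q1)⁻¹ * ((q2 - p2 * u ^ 2) * (W * RR⁻¹) * W) := by ring
        rw [e2, e1, mul_assoc, eq_inv_mul_iff_mul_eq₀ hxp0, eq_inv_mul_iff_mul_eq₀ hD0]
        linear_combination q2 * eP - p2 * eQ
      rw [e]
      exact LP2_I.smul hWI (O.mul_mem (O.mul_mem hxpiO hDiO)
        (O.mul_mem (O.sub_mem hq2V.mem (O.mul_mem hp2V.mem hu2O)) (O.mul_mem hWO hRiO)))
    · rw [hDx]
      exact LP2_D.add (LP2_D.add
        (LP2_D.smul hdW.2 (O.mul_mem hJiO (O.mul_mem (O.sub_mem hQyO (O.mul_mem hPyO hu2O)) hAO)))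
        (LP2_D.smul hdu.2 (O.neg_mem (O.mul_mem hJiO (O.mul_mem hPyO
          (O.mul_mem (O.mul_mem h2O huO) hPO))))))
        (LP2_D.smul hda.2 (O.mul_mem hJiO (O.mul_mem (O.sub_mem hQyO (O.mul_mem hPyO hu2O)) hBO)))
  have hdy : Dep O ![W, u, a] ![Ws, us, as] y ys := by
    refine LP2_dep_mk ?_ ?_
    · have e : y - algebraMap k K ys = ((y + algebraMap k K ys)⁻¹ * (p1 * q2 - p2 * q1)⁻¹ *
          ((p1 * u ^ 2 - q1) * (W * RR⁻¹))) * W := by
        have e1 : (p1 * u ^ 2 - q1) * (W * RR⁻¹) * W = (p1 * u ^ 2 - q1) * Z := by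
          rw [hZW]; ring
        have e2 : ((y + algebraMap k K ys)⁻¹ * (p1 * q2 - p2 * q1)⁻¹ *
          ((p1 * u ^ 2 - q1) * (W * RR⁻¹))) * W = (y + algebraMap k K ys)⁻¹ *
          (p1 * q2 - p2 * q1)⁻¹ * ((p1 * u ^ 2 - q1) * (W * RR⁻¹) * W) := by ring
        rw [e2, e1, mul_assoc, eq_inv_mul_iff_mul_eq₀ hyp0, eq_inv_mul_iff_mul_eq₀ hD0]
        linear_combination p1 * eQ - q1 * eP
      rw [e]
      exact LP2_I.smul hWI (O.mul_mem (O.mul_mem hypiO hDiO)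
        (O.mul_mem (O.sub_mem (O.mul_mem hp1V.mem hu2O) hq1V.mem) (O.mul_mem hWO hRiO)))
    · rw [hDy]
      exact LP2_D.add (LP2_D.add
        (LP2_D.smul hdW.2 (O.mul_mem hJiO (O.mul_mem (O.sub_mem (O.mul_mem hPxO hu2O) hQxO) hAO)))
        (LP2_D.smul hdu.2 (O.mul_mem hJiO (O.mul_mem hPxO
          (O.mul_mem (O.mul_mem h2O huO) hPO)))))
        (LP2_D.smul hda.2 (O.mul_mem hJiO (O.mul_mem (O.sub_mem (O.mul_mem hPxO hu2O) hQxO) hBO)))
  refine ⟨W, u, Ws, us, 2 * 2 * (J⁻¹ * RR⁻¹), hw, hu, hdx, hdy, hdu, hdW, ?_, ?_⟩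
  · have hu2 : Un O (2 : K) := h2V.un hinv h2
    exact (hu2.mul hu2).mul ((hJV.un hinv hJn).inv.mul ((Val.Rq cr ha).un hinv hR).inv)
  · rw [LP2_dd3 hDx hDy, smul_smul]
    congr 1
    have key : J⁻¹ * ((Qy - Py * u ^ 2) * A) * (J⁻¹ * (Px * (2 * u * Z))) -
        -(J⁻¹ * (Py * (2 * u * Z))) * (J⁻¹ * ((Px * u ^ 2 - Qx) * A)) =
        J⁻¹ * (J⁻¹ * J) * (A * (2 * u * Z)) := by
      rw [hJ]; ring
    rw [key, inv_mul_cancel₀ hJ0, hA]
    field_simp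

end Pool.Agent.H56.KN
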