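import Pool.Agent.H56.KN.Ex
import Pool.Agent.H56.KN.SCL
import Pool.Agent.H56.KN.VAL

/-!
Part MAX. If `ζ i - ζs i` and `dζ i` depend on the `v j`, the `v j - vs j` generate the maximal
ideal. Let `ev f = 0`, `f Q(ζ) = P(ζ)`, `Q(ζs) ≠ 0`; `Q(ζ)` is in `O` with value `Q(ζs)`, so invertible, and
`P(ζs) = 0`. `P(ζ) = P(ζ) - P(ζs)` is in the ideal of `O` generated by the `ζ i - ζs i` (induction on `P`, or
compute in the quotient), hence in the ideal spanned by the `v j - vs j`. Use `v j - vs j` as the parameters.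
-/

set_option autoImplicit false

namespace Pool.Agent.H56.KN

open MvPolynomial

variable {k : Type} [Field k]

theorem MAX_ev {K N : Type} [Field K] [Algebra k K] {ζ : N → K} {ζs : N → k}
    {O : Subalgebra k K} {ev : O →ₐ[k] k} (h : AR ζ ζs O ev) (P : MvPolynomial N k) :
    ∃ hm : aeval ζ P ∈ O, ev ⟨aeval ζ P, hm⟩ = aeval ζs P := by
  choose hm hv using h.mem
  let ζO : N → O := fun n => ⟨ζ n, hm n⟩
  have e1 : ((aeval ζO P : O) : K) = aeval ζ P := by
    have := MvPolynomial.comp_aeval_apply (f := ζO) O.val P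
    exact this
  have e2 : ev (aeval ζO P) = aeval ζs P := by
    rw [MvPolynomial.comp_aeval_apply]
    congr 2
    funext n
    exact hv n
  have hmem : aeval ζ P ∈ O := by rw [← e1]; exact (aeval ζO P : O).2
  refine ⟨hmem, ?_⟩
  rw [← e2]
  congr 1
  exact Subtype.ext e1.symm

theorem MAX_ideal {K N : Type} [Field K] [Algebra k K] {ζ : N → K} {ζs : N → k}
    {O : Subalgebra k K} {ev : O →ₐ[k] k} (h : AR ζ ζs O ev) {n : ℕ} (v : Fin n → K)
    (vs : Fin n → k) (hd : ∀ i, Dep O v vs (ζ i) (ζs i)) (P : MvPolynomial N k) :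
    ∃ e : Fin n → K, (∀ j, e j ∈ O) ∧
      aeval ζ P - algebraMap k K (aeval ζs P) =
        ∑ j, e j * (v j - algebraMap k K (vs j)) := by
  induction P using MvPolynomial.induction_on with
  | C c =>
    refine ⟨fun _ => 0, fun _ => O.zero_mem, ?_⟩
    simp
  | add P Q ihP ihQ =>
    obtain ⟨e, he, h1⟩ := ihP
    obtain ⟨e', he', h2⟩ := ihQ
    refine ⟨fun j => e j + e' j, fun j => O.add_mem (he j) (he' j), ?_⟩
    simp only [add_mul, Finset.sum_add_distrib]
    rw [← h1, ← h2]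
    simp only [map_add]
    ring
  | mul_X P i ih =>
    obtain ⟨e, he, h1⟩ := ih
    obtain ⟨⟨e', he', h2⟩, -⟩ := hd i
    obtain ⟨hP, -⟩ := MAX_ev h P
    refine ⟨fun j => algebraMap k K (ζs i) * e j + aeval ζ P * e' j,
      fun j => O.add_mem (O.mul_mem (O.algebraMap_mem _) (he j)) (O.mul_mem hP (he' j)), ?_⟩
    simp only [add_mul, Finset.sum_add_distrib, mul_assoc, ← Finset.mul_sum]
    rw [← h1, ← h2]
    simp only [map_mul, aeval_X]
    ring

theorem params_of_dep {K N : Type} [Field K] [Algebra k K] {ζ : N → K} {ζs : N → k}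
    {O : Subalgebra k K} {ev : O →ₐ[k] k} (h : AR ζ ζs O ev) {n : ℕ} (v : Fin n → K)
    (vs : Fin n → k) (hv : ∀ j, Val O ev (v j) (vs j)) (hd : ∀ i, Dep O v vs (ζ i) (ζs i)) :
    Params O ev n := by
  refine ⟨fun j => v j - algebraMap k K (vs j), fun j => ?_, fun f hf => ?_⟩
  · obtain ⟨hm, he⟩ := hv j
    refine ⟨O.sub_mem hm (O.algebraMap_mem _), ?_⟩
    have e : (⟨v j - algebraMap k K (vs j), O.sub_mem hm (O.algebraMap_mem _)⟩ : O) =
        ⟨v j, hm⟩ - algebraMap k O (vs j) := Subtype.ext rfl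
    rw [e, map_sub, he, AlgHom.commutes]
    simp
  · obtain ⟨P, Q, hQ, hfPQ⟩ := h.gen f f.2
    obtain ⟨hQm, hQv⟩ := MAX_ev h Q
    obtain ⟨hPm, hPv⟩ := MAX_ev h P
    have h0 : aeval ζs P = 0 := by
      rw [← hPv]
      have e : (⟨aeval ζ P, hPm⟩ : O) = f * ⟨aeval ζ Q, hQm⟩ := Subtype.ext hfPQ.symm
      rw [e, map_mul, hf, zero_mul]
    have hinv : (aeval ζ Q)⁻¹ ∈ O := by
      have := h.inv ⟨aeval ζ Q, hQm⟩ (by rw [hQv]; exact hQ)
      exact this
    have hQ0 : aeval ζ Q ≠ 0 := by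
      intro h00
      apply hQ
      rw [← hQv]
      have e : (⟨aeval ζ Q, hQm⟩ : O) = 0 := Subtype.ext h00
      rw [e, map_zero]
    obtain ⟨e, he, h1⟩ := MAX_ideal h v vs hd P
    rw [h0, map_zero, sub_zero] at h1
    refine ⟨fun j => (aeval ζ Q)⁻¹ * e j, fun j => O.mul_mem hinv (he j), ?_⟩
    simp only [mul_assoc, ← Finset.mul_sum]
    rw [← h1, ← hfPQ]
    field_simp

end Pool.Agent.H56.KN
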