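import Pool.Agent.H56.KN.Ex
import Pool.Agent.H56.KN.SCL
import Pool.Agent.H56.KN.VAL
import Pool.Agent.H56.KN.TLS
import Pool.Agent.H56.KN.MAX
import Pool.Agent.H56.KN.GEN
import Pool.Agent.H56.KN.LE
import Pool.Agent.H56.KN.LP1
import Pool.Agent.H56.KN.LP2
import Pool.Agent.H56.KN.LP3

/-!
Part LX. Assembly at a point of `X`. `part_P1`, `part_P2`, `part_P3` according to the cases (if `Ws = 0` then `P* = 0` as `R* ≠ 0`, and
`Q* = us² P* = 0`; if `Ws ≠ 0` and `us = 0` then `Q* = 0`) give `v1`, `v2`, and `part_E` gives `s`; replace `a` by `s` in the `Dep` statements (`Dep` is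
transitive), parameters `![v1, v2, s]`. `dd k ![v1, v2, a] = (b R ε') • dd k ![v1, v2, s]`, so
`W⁻¹ • etX = (b R)⁻¹ ε • dd k ![v1, v2, a] = ε ε' • dd k ![v1, v2, s]`; nonzero because `dd k ![x, y, a] ≠ 0`.
-/

set_option autoImplicit false

namespace Pool.Agent.H56.KN

open MvPolynomial

variable {k : Type} [Field k]

theorem LX_self {K : Type} [Field K] [Algebra k K] {O : Subalgebra k K} {n : ℕ} (v : Fin n → K)
    (vs : Fin n → k) (j : Fin n) : Dep O v vs (v j) (vs j) := by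
  classical
  refine ⟨⟨Pi.single j 1, ?_, ?_⟩, ⟨Pi.single j 1, ?_, ?_⟩⟩
  · intro i
    by_cases h : i = j
    · subst h; rw [Pi.single_eq_same]; exact O.one_mem
    · rw [Pi.single_eq_of_ne h]; exact O.zero_mem
  · rw [Finset.sum_eq_single j]
    · rw [Pi.single_eq_same, one_mul]
    · intro i _ h
      rw [Pi.single_eq_of_ne h, zero_mul]
    · intro h; exact absurd (Finset.mem_univ j) h
  · intro i
    by_cases h : i = j
    · subst h; rw [Pi.single_eq_same]; exact O.one_mem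
    · rw [Pi.single_eq_of_ne h]; exact O.zero_mem
  · rw [Finset.sum_eq_single j]
    · rw [Pi.single_eq_same, one_smul]
    · intro i _ h
      rw [Pi.single_eq_of_ne h, zero_smul]
    · intro h; exact absurd (Finset.mem_univ j) h

theorem LX_trans {K : Type} [Field K] [Algebra k K] {O : Subalgebra k K} {n m : ℕ}
    {v : Fin n → K} {vs : Fin n → k} {w : Fin m → K} {ws : Fin m → k} {z : K} {zs : k}
    (h : Dep O w ws z zs) (hw : ∀ j, Dep O v vs (w j) (ws j)) : Dep O v vs z zs := by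
  obtain ⟨⟨e, he, hz⟩, ⟨f, hf, hdz⟩⟩ := h
  have h1 : ∀ j, ∃ e : Fin n → K, (∀ i, e i ∈ O) ∧
      w j - algebraMap k K (ws j) = ∑ i, e i * (v i - algebraMap k K (vs i)) := fun j => (hw j).1
  have h2 : ∀ j, ∃ e : Fin n → K, (∀ i, e i ∈ O) ∧
      KaehlerDifferential.D k K (w j) = ∑ i, e i • KaehlerDifferential.D k K (v i) :=
    fun j => (hw j).2
  choose A hA hA' using h1
  choose B hB hB' using h2
  refine ⟨⟨fun i => ∑ j, e j * A j i, ?_, ?_⟩, ⟨fun i => ∑ j, f j * B j i, ?_, ?_⟩⟩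
  · intro i
    exact O.sum_mem fun j _ => O.mul_mem (he j) (hA j i)
  · rw [hz]
    simp_rw [Finset.sum_mul]
    rw [Finset.sum_comm]
    refine Finset.sum_congr rfl fun j _ => ?_
    rw [hA' j, Finset.mul_sum]
    exact Finset.sum_congr rfl fun i _ => by ring
  · intro i
    exact O.sum_mem fun j _ => O.mul_mem (hf j) (hB j i)
  · rw [hdz]
    simp_rw [Finset.sum_smul]
    rw [Finset.sum_comm]
    refine Finset.sum_congr rfl fun j _ => ?_
    rw [hB' j, Finset.smul_sum]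
    exact Finset.sum_congr rfl fun i _ => by rw [mul_smul]

theorem LX_dd {K : Type} [Field K] [Algebra k K] {v1 v2 a s c : K}
    (h : KaehlerDifferential.D k K a = c • KaehlerDifferential.D k K s) :
    dd k ![v1, v2, a] = c • dd k ![v1, v2, s] := by
  unfold dd
  have h1 : (fun j => KaehlerDifferential.D k K (![v1, v2, a] j)) =
      Function.update (fun j => KaehlerDifferential.D k K (![v1, v2, s] j)) 2
        (c • KaehlerDifferential.D k K s) := by
    funext j
    fin_cases j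
    · simp [Function.update]
    · simp [Function.update]
    · simp [Function.update, h]
  have h2 : (fun j => KaehlerDifferential.D k K (![v1, v2, s] j)) =
      Function.update (fun j => KaehlerDifferential.D k K (![v1, v2, s] j)) 2
        (KaehlerDifferential.D k K s) := by
    funext j
    fin_cases j
    · simp [Function.update]
    · simp [Function.update]
    · simp [Function.update]
  rw [h1, AlternatingMap.map_update_smul, ← h2]

theorem loc_param_X {K : Type} [Field K] [Algebra k K] {O : Subalgebra k K} {ev : O →ₐ[k] k}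
    (h2 : (2 : k) ≠ 0) (cp cq : Fin 2 → Fin 2 → ℤ) (cr cr' : Fin 2 → ℤ)
    {x y u a b W : K} {xs ys us as bs Ws : k}
    (hAR : AR ![x, y, u, a, b, W] ![xs, ys, us, as, bs, Ws] O ev)
    (hQ : u ^ 2 * Bq cp x y = Bq cq x y) (hQs : us ^ 2 * Bq cp xs ys = Bq cq xs ys)
    (hW : W ^ 2 = Bq cp x y * Rq cr a) (hWs : Ws ^ 2 = Bq cp xs ys * Rq cr as)
    (hr : b ^ 2 * Rq cr a = Rq cr' a) (hrs : bs ^ 2 * Rq cr as = Rq cr' as)
    (hR : Rq cr as ≠ 0) (hab : bs = 0 → as ≠ 0) (hc : ((cr' 1 : ℤ) : k) ≠ 0) (hb0 : b ≠ 0)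
    (hW0 : W ≠ 0) (hu0 : u ≠ 0) (hnz : dd k ![x, y, a] ≠ 0)
    (N1 : Bq cq xs ys = 0 → (ys ≠ 0 ∧ (cq 0 1 : k) + (cq 1 1 : k) * xs ^ 2 ≠ 0) ∨
      (xs ≠ 0 ∧ (cq 1 0 : k) + (cq 1 1 : k) * ys ^ 2 ≠ 0))
    (N3 : Bq cp xs ys = 0 → Bq cq xs ys = 0 → xs ≠ 0 ∧ ys ≠ 0 ∧
      ((cp 1 0 : k) + (cp 1 1 : k) * ys ^ 2) * ((cq 0 1 : k) + (cq 1 1 : k) * xs ^ 2) -
      ((cp 0 1 : k) + (cp 1 1 : k) * xs ^ 2) * ((cq 1 0 : k) + (cq 1 1 : k) * ys ^ 2) ≠ 0) :
    Params O ev 3 ∧ IsGen k (O : Set K) 3 (W⁻¹ • etX k cp cr x y u a b) := by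
  have vx : Val O ev x xs := hAR.mem 0
  have vy : Val O ev y ys := hAR.mem 1
  have vu : Val O ev u us := hAR.mem 2
  have va : Val O ev a as := hAR.mem 3
  have vb : Val O ev b bs := hAR.mem 4
  have vW : Val O ev W Ws := hAR.mem 5
  have hW2 : W ^ 2 ≠ 0 := pow_ne_zero 2 hW0
  have hP0 : Bq cp x y ≠ 0 := by
    intro h; rw [hW, h, zero_mul] at hW2; exact hW2 rfl
  have hRa : Rq cr a ≠ 0 := by
    intro h; rw [hW, h, mul_zero] at hW2; exact hW2 rfl
  have main : ∃ (v1 v2 : K) (s1 s2 : k) (ε : K), Val O ev v1 s1 ∧ Val O ev v2 s2 ∧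
      Dep O ![v1, v2, a] ![s1, s2, as] x xs ∧ Dep O ![v1, v2, a] ![s1, s2, as] y ys ∧
      Dep O ![v1, v2, a] ![s1, s2, as] u us ∧ Dep O ![v1, v2, a] ![s1, s2, as] W Ws ∧
      Un O ε ∧ (W * (u * Bq cp x y))⁻¹ • dd k ![x, y, a] = ε • dd k ![v1, v2, a] := by
    by_cases c1 : Ws = 0
    · have hPs : Bq cp xs ys = 0 := by
        rw [c1] at hWs
        have h3 : Bq cp xs ys * Rq cr as = 0 := by rw [← hWs]; ring
        rcases mul_eq_zero.mp h3 with h | h
        · exact h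
        · exact absurd h hR
      have hQs0 : Bq cq xs ys = 0 := by rw [← hQs, hPs, mul_zero]
      exact part_P3 hAR.inv h2 cp cq cr vx vy vu va vW hQ hQs hW hWs hR hW0 hu0 c1
        (N3 hPs hQs0)
    · by_cases c2 : us = 0
      · have hQs0 : Bq cq xs ys = 0 := by rw [← hQs, c2]; ring
        exact part_P2 hAR.inv h2 cp cq cr vx vy vu va vW hQ hQs hW hWs hR hW0 hu0 c1 c2
          (N1 hQs0)
      · exact part_P1 hAR.inv h2 cp cq cr vx vy vu va vW hQ hQs hW hWs hR hW0 hu0 c1 c2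
  obtain ⟨v1, v2, s1, s2, ε, hv1, hv2, dx, dy, du, dW, hε, hform⟩ := main
  obtain ⟨s, ss, ε', hs, da, db, hε', hDa⟩ :=
    part_E hAR.inv h2 cr cr' va vb hr hrs hR hab hc hb0
  have hs1 : ∀ j : Fin 1, Dep O ![v1, v2, s] ![s1, s2, ss] (![s] j) (![ss] j) := by
    intro j
    fin_cases j
    exact LX_self ![v1, v2, s] ![s1, s2, ss] 2
  have da' : Dep O ![v1, v2, s] ![s1, s2, ss] a as := LX_trans da hs1
  have db' : Dep O ![v1, v2, s] ![s1, s2, ss] b bs := LX_trans db hs1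
  have hs3 : ∀ j : Fin 3, Dep O ![v1, v2, s] ![s1, s2, ss] (![v1, v2, a] j) (![s1, s2, as] j) := by
    intro j
    fin_cases j
    · exact LX_self ![v1, v2, s] ![s1, s2, ss] 0
    · exact LX_self ![v1, v2, s] ![s1, s2, ss] 1
    · exact da'
  have hv : ∀ j, Val O ev (![v1, v2, s] j) (![s1, s2, ss] j) := by
    intro j
    fin_cases j
    · exact hv1
    · exact hv2
    · exact hs
  have hd : ∀ i, Dep O ![v1, v2, s] ![s1, s2, ss] (![x, y, u, a, b, W] i)
      (![xs, ys, us, as, bs, Ws] i) := by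
    intro i
    fin_cases i
    · exact LX_trans dx hs3
    · exact LX_trans dy hs3
    · exact LX_trans du hs3
    · exact da'
    · exact db'
    · exact LX_trans dW hs3
  have hdd := LX_dd (k := k) (v1 := v1) (v2 := v2) hDa
  rw [hdd] at hform
  have h0 : dd k ![v1, v2, s] ≠ 0 := by
    intro h
    rw [h, smul_zero, smul_zero] at hform
    rcases smul_eq_zero.mp hform with h3 | h3
    · exact (inv_ne_zero (mul_ne_zero hW0 (mul_ne_zero hu0 hP0))) h3
    · exact hnz h3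
  refine ⟨params_of_dep hAR _ _ hv hd, ?_⟩
  have hg := (gen_of_dep hAR _ _ hv hd h0).smul (hε.mul hε')
  have he : W⁻¹ • etX k cp cr x y u a b = (ε * ε') • dd k ![v1, v2, s] := by
    have e1 : W⁻¹ • etX k cp cr x y u a b =
        (b * Rq cr a)⁻¹ • ((W * (u * Bq cp x y))⁻¹ • dd k ![x, y, a]) := by
      unfold etX
      rw [smul_smul, smul_smul]
      congr 1
      field_simp
    rw [e1, hform, smul_smul, smul_smul]
    congr 1
    field_simp
  rw [he]
  exact hg

end Pool.Agent.H56.KN
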