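import Pool.Agent.H56.KN.Ex
import Pool.Agent.H56.KN.SCL
import Pool.Agent.H56.KN.VAL

/-!
Part NUM. Facts on the numbers, `2 ≠ 0` in `k`. In the chart `(0, 0)`: `g₀ = -1 - X - Y + X Y`, `g₁ = 1 - X - Y - X Y` with `X = x²`, `Y = y²`; the other
charts have permuted coefficients. `num1`: if both `y (q₀₁ + q₁₁ x²)` and `x (q₁₀ + q₁₁ y²)` vanish then `q₀₀ = 0`, or `q₀₀ q₁₁ = q₁₀ q₀₁`, but it differs by `± 2`
(all coefficients are `± 1`). `num3`: the common zeros have `X Y = ± 1`, and the determinant is `± 4 X` or so. `fin_cases` on `p i j`, then `simp [Bq, sh, g]` and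
algebra (`linear_combination`).
-/

set_option autoImplicit false

namespace Pool.Agent.H56.KN

open MvPolynomial

variable {k : Type} [Field k]

theorem NUM_sq (p i j a b : Fin 2) : ((sh (g p) i j a b : ℤ) : k) ^ 2 = 1 := by
  have h : (sh (g p) i j a b : ℤ) ^ 2 = 1 := by revert p i j a b; decide
  exact_mod_cast congrArg (Int.cast : ℤ → k) h

theorem NUM_ne (p i j a b : Fin 2) : ((sh (g p) i j a b : ℤ) : k) ≠ 0 := by
  intro h
  have := NUM_sq (k := k) p i j a b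
  rw [h] at this
  simp at this

theorem NUM_det (p i j : Fin 2) : ((sh (g p) i j 0 0 : ℤ) : k) * (sh (g p) i j 1 1 : ℤ) =
    -((sh (g p) i j 1 0 : ℤ) * (sh (g p) i j 0 1 : ℤ)) := by
  have h : (sh (g p) i j 0 0 : ℤ) * (sh (g p) i j 1 1 : ℤ) =
    -((sh (g p) i j 1 0 : ℤ) * (sh (g p) i j 0 1 : ℤ)) := by revert p i j; decide
  exact_mod_cast congrArg (Int.cast : ℤ → k) h

theorem NUM_rel (p i j : Fin 2) :
    ((sh (g (p + 1)) i j 0 0 = -sh (g p) i j 0 0 ∧ sh (g (p + 1)) i j 1 1 = -sh (g p) i j 1 1 ∧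
      sh (g (p + 1)) i j 1 0 = sh (g p) i j 1 0 ∧ sh (g (p + 1)) i j 0 1 = sh (g p) i j 0 1) ∨
    (sh (g (p + 1)) i j 0 0 = sh (g p) i j 0 0 ∧ sh (g (p + 1)) i j 1 1 = sh (g p) i j 1 1 ∧
      sh (g (p + 1)) i j 1 0 = -sh (g p) i j 1 0 ∧
      sh (g (p + 1)) i j 0 1 = -sh (g p) i j 0 1)) := by
  revert p i j; decide

theorem num1 (h2 : (2 : k) ≠ 0) (p i j : Fin 2) (xs ys : k)
    (h : Bq (sh (g p) i j) xs ys = 0) :
    (ys ≠ 0 ∧ (sh (g p) i j 0 1 : k) + (sh (g p) i j 1 1 : k) * xs ^ 2 ≠ 0) ∨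
      (xs ≠ 0 ∧ (sh (g p) i j 1 0 : k) + (sh (g p) i j 1 1 : k) * ys ^ 2 ≠ 0) := by
  have n00 := NUM_ne (k := k) p i j 0 0
  have n01 := NUM_ne (k := k) p i j 0 1
  have n10 := NUM_ne (k := k) p i j 1 0
  have hdet := NUM_det (k := k) p i j
  unfold Bq at h
  generalize ((sh (g p) i j 0 0 : ℤ) : k) = q00 at *
  generalize ((sh (g p) i j 0 1 : ℤ) : k) = q01 at *
  generalize ((sh (g p) i j 1 0 : ℤ) : k) = q10 at *
  generalize ((sh (g p) i j 1 1 : ℤ) : k) = q11 at *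
  by_contra hc
  push Not at hc
  obtain ⟨hc1, hc2⟩ := hc
  by_cases hx : xs = 0
  · by_cases hy : ys = 0
    · apply n00
      rw [hx, hy] at h
      linear_combination h
    · apply n01
      have := hc1 hy
      rw [hx] at this
      linear_combination this
  · by_cases hy : ys = 0
    · apply n10
      have := hc2 hx
      rw [hy] at this
      linear_combination this
    · have e1 := hc1 hy
      have e2 := hc2 hx
      have e3 : q00 + q10 * xs ^ 2 = 0 := by linear_combination h - ys ^ 2 * e1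
      have e4 : q01 * q10 - q11 * q00 = 0 := by linear_combination q10 * e1 - q11 * e3
      have e5 : 2 * (q01 * q10) = 0 := by linear_combination e4 + hdet
      rcases mul_eq_zero.mp e5 with h' | h'
      · exact h2 h'
      · exact mul_ne_zero n01 n10 h'

theorem num3 (h2 : (2 : k) ≠ 0) (p i j : Fin 2) (xs ys : k)
    (h : Bq (sh (g p) i j) xs ys = 0) (h' : Bq (sh (g (p + 1)) i j) xs ys = 0) :
    xs ≠ 0 ∧ ys ≠ 0 ∧
      ((sh (g p) i j 1 0 : k) + (sh (g p) i j 1 1 : k) * ys ^ 2) *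
        ((sh (g (p + 1)) i j 0 1 : k) + (sh (g (p + 1)) i j 1 1 : k) * xs ^ 2) -
      ((sh (g p) i j 0 1 : k) + (sh (g p) i j 1 1 : k) * xs ^ 2) *
        ((sh (g (p + 1)) i j 1 0 : k) + (sh (g (p + 1)) i j 1 1 : k) * ys ^ 2) ≠ 0 := by
  have n00 := NUM_ne (k := k) p i j 0 0
  have n01 := NUM_ne (k := k) p i j 0 1
  have n11 := NUM_ne (k := k) p i j 1 1
  have hrel := NUM_rel p i j
  unfold Bq at h h'
  -- the common zeros
  have key : ∀ q00 q01 q10 q11 : k, q00 ≠ 0 → 2 * (q00 + q11 * xs ^ 2 * ys ^ 2) = 0 →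
      xs ≠ 0 ∧ ys ≠ 0 := by
    intro q00 q01 q10 q11 hq hh
    have h3 : q00 + q11 * xs ^ 2 * ys ^ 2 = 0 := (mul_eq_zero.mp hh).resolve_left h2
    constructor
    · rintro rfl
      apply hq
      linear_combination h3
    · rintro rfl
      apply hq
      linear_combination h3
  rcases hrel with ⟨r1, r2, r3, r4⟩ | ⟨r1, r2, r3, r4⟩
  · rw [r1, r2, r3, r4] at h'
    rw [r2, r3, r4]
    push_cast at h' ⊢
    generalize ((sh (g p) i j 0 0 : ℤ) : k) = q00 at *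
    generalize ((sh (g p) i j 0 1 : ℤ) : k) = q01 at *
    generalize ((sh (g p) i j 1 0 : ℤ) : k) = q10 at *
    generalize ((sh (g p) i j 1 1 : ℤ) : k) = q11 at *
    have s1 : 2 * (q00 + q11 * xs ^ 2 * ys ^ 2) = 0 := by linear_combination h - h'
    have s2 : 2 * (q10 * xs ^ 2 + q01 * ys ^ 2) = 0 := by linear_combination h + h'
    obtain ⟨hx, hy⟩ := key q00 q01 q10 q11 n00 s1
    refine ⟨hx, hy, ?_⟩
    intro h0
    have s3 : 2 * (2 * (q11 * q01 * ys ^ 2)) = 0 := by linear_combination h0 + q11 * s2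
    have := (mul_eq_zero.mp ((mul_eq_zero.mp s3).resolve_left h2)).resolve_left h2
    exact mul_ne_zero (mul_ne_zero n11 n01) (pow_ne_zero 2 hy) this
  · rw [r1, r2, r3, r4] at h'
    rw [r2, r3, r4]
    push_cast at h' ⊢
    generalize ((sh (g p) i j 0 0 : ℤ) : k) = q00 at *
    generalize ((sh (g p) i j 0 1 : ℤ) : k) = q01 at *
    generalize ((sh (g p) i j 1 0 : ℤ) : k) = q10 at *
    generalize ((sh (g p) i j 1 1 : ℤ) : k) = q11 at *
    have s1 : 2 * (q00 + q11 * xs ^ 2 * ys ^ 2) = 0 := by linear_combination h + h'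
    have s2 : 2 * (q10 * xs ^ 2 + q01 * ys ^ 2) = 0 := by linear_combination h - h'
    obtain ⟨hx, hy⟩ := key q00 q01 q10 q11 n00 s1
    refine ⟨hx, hy, ?_⟩
    intro h0
    have s3 : 2 * (2 * (q11 * q01 * ys ^ 2)) = 0 := by linear_combination q11 * s2 - h0
    have := (mul_eq_zero.mp ((mul_eq_zero.mp s3).resolve_left h2)).resolve_left h2
    exact mul_ne_zero (mul_ne_zero n11 n01) (pow_ne_zero 2 hy) this

theorem NUM_rsq (q i a : Fin 2) : (shr (rho q) i a : ℤ) ^ 2 = 1 := by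
  revert q i a; decide

theorem NUM_rdet (q i : Fin 2) : ((shr (rho q) i 0 : ℤ) * (shr (rho (q + 1)) i 1 : ℤ) -
      (shr (rho q) i 1 : ℤ) * (shr (rho (q + 1)) i 0 : ℤ)) ^ 2 = 2 * 2 := by
  revert q i; decide

theorem NUM_rne (q i a : Fin 2) : ((shr (rho q) i a : ℤ) : k) ≠ 0 := by
  intro h
  have h1 := NUM_rsq q i a
  have h2 : ((shr (rho q) i a : ℤ) : k) ^ 2 = 1 := by
    exact_mod_cast congrArg (Int.cast : ℤ → k) h1
  rw [h] at h2
  simp at h2

theorem num2 (h2 : (2 : k) ≠ 0) (q i : Fin 2) (as bs : k)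
    (h : bs ^ 2 * Rq (shr (rho q) i) as = Rq (shr (rho (q + 1)) i) as) :
    Rq (shr (rho q) i) as ≠ 0 ∧ (bs = 0 → as ≠ 0) ∧
      ((shr (rho (q + 1)) i 1 : ℤ) : k) ≠ 0 := by
  have n0 := NUM_rne (k := k) (q + 1) i 0
  have n1 := NUM_rne (k := k) (q + 1) i 1
  have hdet : (((shr (rho q) i 0 : ℤ) : k) * (shr (rho (q + 1)) i 1 : ℤ) -
      (shr (rho q) i 1 : ℤ) * (shr (rho (q + 1)) i 0 : ℤ)) ^ 2 = 2 * 2 := by
    have h1 := NUM_rdet q i
    exact_mod_cast congrArg (Int.cast : ℤ → k) h1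
  refine ⟨?_, ?_, n1⟩
  · intro h0
    rw [h0, mul_zero] at h
    unfold Rq at h h0
    have e : ((shr (rho q) i 0 : ℤ) : k) * (shr (rho (q + 1)) i 1 : ℤ) -
      (shr (rho q) i 1 : ℤ) * (shr (rho (q + 1)) i 0 : ℤ) = 0 := by
      linear_combination ((shr (rho (q + 1)) i 1 : ℤ) : k) * h0 + ((shr (rho q) i 1 : ℤ) : k) * h
    rw [e] at hdet
    apply mul_ne_zero h2 h2
    rw [← hdet]; ring
  · rintro rfl rfl
    apply n0
    unfold Rq at h
    linear_combination -h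

end Pool.Agent.H56.KN
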