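import Pool.Agent.H56.KN.Ex
import Pool.Agent.H56.KN.SCL
import Pool.Agent.H56.KN.VAL
import Pool.Agent.H56.KN.NEX

/-!
Part NZX. `dx ∧ dy ∧ da ≠ 0` in the forms of `K / k`, also in characteristic `p > 2`. `K` is obtained from `k(x, y, a)` by adjoining square roots, so it is
separable algebraic over `F₀ = k(x, y, a)`; then `Ω[K/k] = K ⊗ Ω[F₀/k]` (formally etale, `KaehlerDifferential.tensorKaehlerEquivOfFormallyEtale` or so) and `dx, dy, da` is a basis.
-/

set_option autoImplicit false

namespace Pool.Agent.H56.KN

open MvPolynomial TensorProduct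

variable {k : Type} [Field k]

theorem NZX_basis {K : Type} [Field K] [Algebra k K] {n : ℕ}
    (v : Fin n → K) (b : Module.Basis (Fin n) K (KaehlerDifferential k K))
    (hb : ∀ i, b i = KaehlerDifferential.D k K (v i)) : dd k v ≠ 0 := by
  have hF : b.det (fun i => KaehlerDifferential.D k K (v i)) = 1 := by
    have : (fun i => KaehlerDifferential.D k K (v i)) = b := by
      funext i; rw [hb]
    rw [this, Module.Basis.det_self]
  intro h0
  have h2 := congrArg (ExteriorAlgebra.liftAlternating (R := K)
    (M := KaehlerDifferential k K) (N := K) (Function.update 0 n b.det)) h0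
  unfold dd at h2
  rw [ExteriorAlgebra.liftAlternating_apply_ιMulti, map_zero, Function.update_self, hF] at h2
  exact one_ne_zero h2

theorem NZX_gen {K : Type} [Field K] [Algebra k K] (h2 : (2 : k) ≠ 0) {n : ℕ}
    (v : Fin n → K) (hv : AlgebraicIndependent k v) (S : Set K)
    (hS : IntermediateField.adjoin k S = ⊤)
    (h : ∀ z ∈ S, z ∈ IntermediateField.adjoin k (Set.range v) ∨
      (z ≠ 0 ∧ z ^ 2 ∈ IntermediateField.adjoin k (Set.range v))) : dd k v ≠ 0 := by
  have h2K : (2 : IntermediateField.adjoin k (Set.range v)) ≠ 0 := by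
    intro h0
    apply h2
    apply (algebraMap k (IntermediateField.adjoin k (Set.range v))).injective
    rw [map_zero, ← h0, map_ofNat]
  have hsep : Algebra.IsSeparable (IntermediateField.adjoin k (Set.range v)) K := by
    constructor
    intro z
    rw [← mem_separableClosure_iff]
    have h1 : IntermediateField.adjoin k S ≤
        (separableClosure (IntermediateField.adjoin k (Set.range v)) K).restrictScalars k := by
      rw [IntermediateField.adjoin_le_iff]
      intro z hz
      show z ∈ (separableClosure (IntermediateField.adjoin k (Set.range v)) K).restrictScalars k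
      rw [IntermediateField.mem_restrictScalars, mem_separableClosure_iff]
      rcases h z hz with hz | ⟨hz0, hz⟩
      · exact isSeparable_algebraMap (F := IntermediateField.adjoin k (Set.range v)) (K := K) ⟨z, hz⟩
      · have hc : (⟨z ^ 2, hz⟩ : IntermediateField.adjoin k (Set.range v)) ≠ 0 := by
          intro h0
          exact pow_ne_zero 2 hz0 (congrArg Subtype.val h0)
        have hp := Polynomial.separable_X_pow_sub_C (n := 2)
          (⟨z ^ 2, hz⟩ : IntermediateField.adjoin k (Set.range v)) (by exact_mod_cast h2K) hc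
        refine Polynomial.Separable.of_dvd hp (minpoly.dvd _ _ ?_)
        rw [map_sub, map_pow, Polynomial.aeval_X, Polynomial.aeval_C]
        exact sub_self _
    rw [hS] at h1
    exact (IntermediateField.mem_restrictScalars k).1 (h1 (IntermediateField.mem_top))
  -- the algebra structures
  let F := IntermediateField.adjoin k (Set.range v)
  let v' : Fin n → F := fun i => ⟨v i, IntermediateField.subset_adjoin k _ ⟨i, rfl⟩⟩
  let iF : Algebra (MvPolynomial (Fin n) k) F := (aeval (R := k) v').toRingHom.toAlgebra
  let iK : Algebra (MvPolynomial (Fin n) k) K := (aeval (R := k) v).toRingHom.toAlgebra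
  have t1 : IsScalarTower k (MvPolynomial (Fin n) k) F :=
    IsScalarTower.of_algebraMap_eq' (RingHom.ext fun r => ((aeval (R := k) v').commutes r).symm)
  have t2 : IsScalarTower k (MvPolynomial (Fin n) k) K :=
    IsScalarTower.of_algebraMap_eq' (RingHom.ext fun r => ((aeval (R := k) v).commutes r).symm)
  have hval : ∀ P : MvPolynomial (Fin n) k, ((aeval v' P : F) : K) = aeval v P := by
    intro P
    exact (SCL_aeval_hom F.val v' P).symm
  have t3 : IsScalarTower (MvPolynomial (Fin n) k) F K :=
    IsScalarTower.of_algebraMap_eq' (RingHom.ext fun r => (hval r).symm)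
  have fr : IsFractionRing (MvPolynomial (Fin n) k) F := by
    have hinj : Function.Injective (algebraMap (MvPolynomial (Fin n) k) F) := by
      intro P Q hPQ
      apply hv
      show aeval v P = aeval v Q
      rw [← hval, ← hval]
      exact congrArg Subtype.val hPQ
    have : FaithfulSMul (MvPolynomial (Fin n) k) F :=
      (faithfulSMul_iff_algebraMap_injective _ _).2 hinj
    refine IsFractionRing.of_field _ _ fun z => ?_
    obtain ⟨r, s, hrs⟩ := (IntermediateField.mem_adjoin_range_iff k v (z : K)).1 z.2
    refine ⟨r, s, ?_⟩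
    apply Subtype.ext
    show (z : K) = ((aeval v' r / aeval v' s : F) : K)
    rw [IntermediateField.coe_div, hval, hval]
    exact hrs
  have e1 : Algebra.FormallyEtale (MvPolynomial (Fin n) k) F :=
    Algebra.FormallyEtale.of_isLocalization (nonZeroDivisors (MvPolynomial (Fin n) k))
  have e2 : Algebra.FormallyEtale F K := Algebra.FormallyEtale.of_isSeparable F K
  have e3 : Algebra.FormallyEtale (MvPolynomial (Fin n) k) K :=
    Algebra.FormallyEtale.comp (MvPolynomial (Fin n) k) F K
  let e := KaehlerDifferential.tensorKaehlerEquivOfFormallyEtale k (MvPolynomial (Fin n) k) K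
  let b := ((KaehlerDifferential.mvPolynomialBasis k (Fin n)).baseChange K).map e
  refine NZX_basis v b fun i => ?_
  show e (((KaehlerDifferential.mvPolynomialBasis k (Fin n)).baseChange K) i) = _
  rw [Module.Basis.baseChange_apply, KaehlerDifferential.mvPolynomialBasis_apply]
  show KaehlerDifferential.tensorKaehlerEquivOfFormallyEtale k (MvPolynomial (Fin n) k) K _ = _
  rw [KaehlerDifferential.tensorKaehlerEquivOfFormallyEtale_apply,
    KaehlerDifferential.mapBaseChange_tmul, one_smul, KaehlerDifferential.map_D]
  congr 1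
  exact aeval_X v i

theorem nz_X {K : Type} [Field K] [Algebra k K] (h2 : (2 : k) ≠ 0) {x y u a b w : K}
    (hD : Dat k x y u a b w) : dd k ![x, y, a] ≠ 0 := by
  obtain ⟨hx, hy, hu, ha, hb, hw, hg0, hg1, ha1, ha2⟩ := ne_X hD
  have mx : x ∈ IntermediateField.adjoin k (Set.range ![x, y, a]) :=
    IntermediateField.subset_adjoin k _ ⟨0, rfl⟩
  have my : y ∈ IntermediateField.adjoin k (Set.range ![x, y, a]) :=
    IntermediateField.subset_adjoin k _ ⟨1, rfl⟩
  have ma : a ∈ IntermediateField.adjoin k (Set.range ![x, y, a]) :=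
    IntermediateField.subset_adjoin k _ ⟨2, rfl⟩
  have mB : ∀ c : Fin 2 → Fin 2 → ℤ, Bq c x y ∈
      IntermediateField.adjoin k (Set.range ![x, y, a]) := by
    intro c
    unfold Bq
    exact add_mem (add_mem (add_mem (intCast_mem _ _) (mul_mem (intCast_mem _ _) (pow_mem mx 2)))
      (mul_mem (intCast_mem _ _) (pow_mem my 2)))
      (mul_mem (mul_mem (intCast_mem _ _) (pow_mem mx 2)) (pow_mem my 2))
  have m1 : 1 + a ^ 2 ∈ IntermediateField.adjoin k (Set.range ![x, y, a]) :=
    add_mem (one_mem _) (pow_mem ma 2)
  have m2 : 1 - a ^ 2 ∈ IntermediateField.adjoin k (Set.range ![x, y, a]) :=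
    sub_mem (one_mem _) (pow_mem ma 2)
  refine NZX_gen h2 _ hD.ind _ hD.gen ?_
  intro z hz
  simp only [Set.mem_insert_iff, Set.mem_singleton_iff] at hz
  rcases hz with rfl | rfl | rfl | rfl | rfl | rfl
  · exact Or.inl mx
  · exact Or.inl my
  · refine Or.inr ⟨hu, ?_⟩
    have : z ^ 2 = Bq (g 1) x y / Bq (g 0) x y := by
      rw [eq_div_iff hg0]; exact hD.hu
    rw [this]
    exact div_mem (mB _) (mB _)
  · exact Or.inl ma
  · refine Or.inr ⟨hb, ?_⟩
    have : z ^ 2 = (1 - a ^ 2) / (1 + a ^ 2) := by
      rw [eq_div_iff ha1]; exact hD.hb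
    rw [this]
    exact div_mem m2 m1
  · refine Or.inr ⟨hw, ?_⟩
    rw [hD.hw]
    exact mul_mem (mB _) m1

end Pool.Agent.H56.KN
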