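import Pool.Agent.H56.KN.Ex
import Pool.Agent.H56.KN.SCL
import Pool.Agent.H56.KN.VAL
import Pool.Agent.H56.KN.AFF
import Pool.Agent.H56.KN.TLS
import Pool.Agent.H56.KN.LX
import Pool.Agent.H56.KN.NUM
import Pool.Agent.H56.KN.CHK
import Pool.Agent.H56.KN.REL
import Pool.Agent.H56.KN.CLX
import Pool.Agent.H56.KN.NEX
import Pool.Agent.H56.KN.NZX
import Pool.Agent.H56.KN.ETX

/-!
Part SMX. The local rings of `X`. Let `z` be a point and `i` a chart with `z (inl (m, i m)) ≠ 0`. `cls_X` gives `c, w', μ`; `exists_AR` with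
`s0 (some m) = inl (m, i m)`, `s0 none = inr (inl (i 0, i 1, i 3))`, `N = Fin 6`, `t = ![inl (0, i 0 + 1), …, inl (4, i 4 + 1), inr (inr (i 2, i 4))]` and the obvious polynomials `p` (products of variables: a coordinate `x_i' y_j' a_l' / (x_i y_j a_l)`
is a product of local coordinates, `w u_p b_q / (x_i y_j a_l)` is the variable `5` times local coordinates `u`, `b`). The coordinates are `lc (cc …) i 0, …, lc (cc …) i 4, lw (cc …) w i`, the values `lc c i m`, `lw c w' i`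
(`μ` cancels). Relations: `chk_P`, `chk_E`, `chk_W` for `cc` (`hrel_gen`) and for `c`; numbers: `num1` (with `p = i 2 + 1`), `num3` (with `p = i 2`; note `i 2 + 1 + 1 = i 2`), `num2`. `dd k ![…] ≠ 0` in the chart by `etC_eq` and `nz_X`, `ne_X`.
Then `loc_param_X`; `Params` gives `SmoothAt` by `LR`. `Loc = O` by `LR.mem`. `lR` is a unit by `num2`.
-/

set_option autoImplicit false

namespace Pool.Agent.H56.KN

open MvPolynomial

variable {k : Type} [Field k]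

theorem SMX_smooth {σ β K : Type} [Field K] [Algebra k K] {bl : σ → β} {y : σ → K} {x : σ → k}
    {O : Subalgebra k K} {ev : O →ₐ[k] k} {n : ℕ} (hO : LR bl y x O ev) (hP : Params O ev n) :
    SmoothAt bl y n x := by
  obtain ⟨v, hv, hgen⟩ := hP
  refine ⟨v, fun j => ?_, fun f hf => ?_⟩
  · obtain ⟨h, h'⟩ := hv j
    exact (hO.zero ⟨v j, h⟩).1 h'
  · have hfL : f ∈ Loc bl y x := by
      obtain ⟨d, P, Q, hP, hQ, hQx, _, h⟩ := hf
      exact ⟨d, P, Q, hP, hQ, hQx, h⟩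
    have hfO : f ∈ O := (hO.mem f).2 hfL
    obtain ⟨e, he, hsum⟩ := hgen ⟨f, hfO⟩ ((hO.zero ⟨f, hfO⟩).2 hf)
    exact ⟨e, fun j => (hO.mem _).1 (he j), hsum⟩

theorem SMX_fin2 (i j : Fin 2) (h : j ≠ i) : j = i + 1 := by
  fin_cases i <;> fin_cases j <;> simp_all

/-- the coordinate `j` of the factor `m` in the chart `i` -/
noncomputable def SMX_q (k : Type) [Field k] (i : Fin 5 → Fin 2) (m : Fin 5) (j : Fin 2) :
    MvPolynomial (Fin 6) k := if j = i m then 1 else X (Fin.castSucc m)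

/-- the polynomials -/
noncomputable def SMX_p (k : Type) [Field k] (i : Fin 5 → Fin 2) : Sg → MvPolynomial (Fin 6) k
  | Sum.inl (m, j) => SMX_q k i m j
  | Sum.inr (Sum.inl (a', b', l')) => SMX_q k i 0 a' * SMX_q k i 1 b' * SMX_q k i 3 l'
  | Sum.inr (Sum.inr (p', q')) => X (Fin.last 5) * SMX_q k i 2 p' * SMX_q k i 4 q'

/-- the base coordinates -/
def SMX_s (i : Fin 5 → Fin 2) : Option (Fin 5) → Sg
  | some m => Sum.inl (m, i m)
  | none => Sum.inr (Sum.inl (i 0, i 1, i 3))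

/-- the local coordinates -/
def SMX_t (i : Fin 5 → Fin 2) : Fin 6 → Sg :=
  Fin.snoc (α := fun _ => Sg) (fun m : Fin 5 => Sum.inl (m, i m + 1)) (Sum.inr (Sum.inr (i 2, i 4)))

theorem SMX_bs (i : Fin 5 → Fin 2) (b : Option (Fin 5)) : bX (SMX_s i b) = b := by
  cases b <;> rfl

theorem SMX_loc {F : Type} [Field F] (i : Fin 5 → Fin 2) (c : Fin 5 → Fin 2 → F) (w μ : F)
    (hμ : μ ≠ 0) (v : Sg → F) (h1 : ∀ m i, v (Sum.inl (m, i)) = c m i)
    (h2 : ∀ s, v (Sum.inr s) = μ * pt c w (Sum.inr s)) :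
    (fun n => v (SMX_t i n) / v (SMX_s i (bX (SMX_t i n)))) =
      ![lc c i 0, lc c i 1, lc c i 2, lc c i 3, lc c i 4, lw c w i] := by
  have hm : ∀ m : Fin 5, v (SMX_t i (Fin.castSucc m)) / v (SMX_s i (bX (SMX_t i (Fin.castSucc m))))
      = lc c i m := by
    intro m
    have e : SMX_t i (Fin.castSucc m) = Sum.inl (m, i m + 1) := by
      simp [SMX_t, Fin.snoc_castSucc]
    rw [e]
    show v (Sum.inl (m, i m + 1)) / v (Sum.inl (m, i m)) = _
    rw [h1, h1]; rfl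
  have hl : v (SMX_t i (Fin.last 5)) / v (SMX_s i (bX (SMX_t i (Fin.last 5)))) = lw c w i := by
    have e : SMX_t i (Fin.last 5) = Sum.inr (Sum.inr (i 2, i 4)) := by
      unfold SMX_t
      exact Fin.snoc_last _ _
    rw [e]
    show v (Sum.inr (Sum.inr (i 2, i 4))) / v (Sum.inr (Sum.inl (i 0, i 1, i 3))) = _
    rw [h2, h2]
    show μ * (w * c 2 (i 2) * c 4 (i 4)) / (μ * (c 0 (i 0) * c 1 (i 1) * c 3 (i 3))) = _
    rw [mul_div_mul_left _ _ hμ]
    rfl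
  funext n
  fin_cases n
  · exact hm 0
  · exact hm 1
  · exact hm 2
  · exact hm 3
  · exact hm 4
  · exact hl

theorem SMX_ev {K : Type} [Field K] [Algebra k K] (i : Fin 5 → Fin 2) (c : Fin 5 → Fin 2 → K)
    (hc : ∀ m i, c m i ≠ 0) (ζ : Fin 6 → K) (hζ : ∀ m : Fin 5, ζ (Fin.castSucc m) = lc c i m)
    (m : Fin 5) (j : Fin 2) : aeval ζ (SMX_q k i m j) = c m j / c m (i m) := by
  unfold SMX_q
  by_cases h : j = i m
  · rw [if_pos h, map_one, h, div_self (hc _ _)]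
  · rw [if_neg h, aeval_X, hζ, SMX_fin2 (i m) j h]; rfl

theorem SMX_hp {K : Type} [Field K] [Algebra k K] (i : Fin 5 → Fin 2) (c : Fin 5 → Fin 2 → K)
    (w : K) (hc : ∀ m i, c m i ≠ 0) (s : Sg) :
    pt c w s / pt c w (SMX_s i (bX s)) =
      aeval (fun n => pt c w (SMX_t i n) / pt c w (SMX_s i (bX (SMX_t i n)))) (SMX_p k i s) := by
  have hz := SMX_loc i c w 1 one_ne_zero (pt c w) (fun m i => rfl) (fun s => (one_mul _).symm)
  rw [hz]
  have hζ : ∀ m : Fin 5, (![lc c i 0, lc c i 1, lc c i 2, lc c i 3, lc c i 4, lw c w i] : Fin 6 → K)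
      (Fin.castSucc m) = lc c i m := by
    intro m; fin_cases m <;> rfl
  have hl : (![lc c i 0, lc c i 1, lc c i 2, lc c i 3, lc c i 4, lw c w i] : Fin 6 → K)
      (Fin.last 5) = lw c w i := rfl
  rcases s with ⟨m, j⟩ | ⟨a', b', l'⟩ | ⟨p', q'⟩
  · show c m j / c m (i m) = aeval _ (SMX_q k i m j)
    rw [SMX_ev i c hc _ hζ]
  · show c 0 a' * c 1 b' * c 3 l' / (c 0 (i 0) * c 1 (i 1) * c 3 (i 3)) =
      aeval _ (SMX_q k i 0 a' * SMX_q k i 1 b' * SMX_q k i 3 l')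
    rw [map_mul, map_mul, SMX_ev i c hc _ hζ, SMX_ev i c hc _ hζ, SMX_ev i c hc _ hζ,
      div_mul_div_comm, div_mul_div_comm]
  · show w * c 2 p' * c 4 q' / (c 0 (i 0) * c 1 (i 1) * c 3 (i 3)) =
      aeval _ (X (Fin.last 5) * SMX_q k i 2 p' * SMX_q k i 4 q')
    rw [map_mul, map_mul, SMX_ev i c hc _ hζ, SMX_ev i c hc _ hζ, aeval_X, hl]
    unfold lw
    have h0 := hc 0 (i 0)
    have h1 := hc 1 (i 1)
    have h2 := hc 2 (i 2)
    have h3 := hc 3 (i 3)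
    have h4 := hc 4 (i 4)
    field_simp

theorem SMX_cc {K : Type} [Field K] {x y u a b : K} (hx : x ≠ 0) (hy : y ≠ 0) (hu : u ≠ 0)
    (ha : a ≠ 0) (hb : b ≠ 0) (m : Fin 5) (i : Fin 2) : cc x y u a b m i ≠ 0 := by
  fin_cases m <;> fin_cases i <;> simp [cc, hx, hy, hu, ha, hb]

theorem SMX_nz {K : Type} [Field K] [Algebra k K] (h2 : (2 : k) ≠ 0) {x y u a b w : K}
    (hD : Dat k x y u a b w) (i : Fin 5 → Fin 2) :
    dd k ![lc (cc x y u a b) i 0, lc (cc x y u a b) i 1, lc (cc x y u a b) i 3] ≠ 0 := by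
  intro h0
  obtain ⟨hx, hy, hu, ha, hb, hw, hg0, hg1, hr0, hr1⟩ := ne_X hD
  have e1 : etC k (cc x y u a b) i = 0 := by
    unfold etC etX
    rw [h0, smul_zero]
  have e2 : etX k (g 0) (rho 0) x y u a b = 0 := by
    rcases etC_eq hD i with h | h
    · rw [← h, e1]
    · rw [e1] at h
      exact neg_eq_zero.1 h.symm
  have hR : Rq (rho 0) a ≠ 0 := by
    have : Rq (rho 0) a = 1 + a ^ 2 := by simp [Rq, rho]
    rw [this]; exact hr0
  unfold etX at e2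
  rcases smul_eq_zero.1 e2 with h | h
  · rw [inv_eq_zero] at h
    exact mul_ne_zero (mul_ne_zero hu hg0) (mul_ne_zero hb hR) h
  · exact nz_X h2 hD h

theorem loc_X {K : Type} [Field K] [Algebra k K] (h2 : (2 : k) ≠ 0) {x y u a b w : K}
    (hD : Dat k x y u a b w) {z : Sg → k} (hz : z ∈ Var k bX (yX x y u a b w))
    (i : Fin 5 → Fin 2) (hi : ∀ m, z (Sum.inl (m, i m)) ≠ 0) :
    SmoothAt bX (yX x y u a b w) 3 z ∧
      IsGen k (Loc bX (yX x y u a b w) z) 3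
        ((lw (cc x y u a b) w i)⁻¹ • etC k (cc x y u a b) i) ∧
      lR (cc x y u a b) i ∈ Loc bX (yX x y u a b w) z ∧
      (lR (cc x y u a b) i)⁻¹ ∈ Loc bX (yX x y u a b w) z := by
  obtain ⟨hx, hy, hu, ha, hb, hw, hg0, hg1, hr0, hr1⟩ := ne_X hD
  obtain ⟨c, w', μ, hμ, hne, hrel, hz1, hz2⟩ := cls_X hD hz
  have hci : ∀ m, c m (i m) ≠ 0 := fun m => by rw [← hz1]; exact hi m
  have hcc := SMX_cc (x := x) (y := y) (u := u) (a := a) (b := b) hx hy hu ha hb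
  have h0 : ∀ b', z (SMX_s i b') ≠ 0 := by
    intro b'
    cases b' with
    | none =>
      show z (Sum.inr (Sum.inl (i 0, i 1, i 3))) ≠ 0
      rw [hz2]
      exact mul_ne_zero hμ (mul_ne_zero (mul_ne_zero (hci 0) (hci 1)) (hci 3))
    | some m => exact hi m
  obtain ⟨O, ev, hO, hA⟩ := exists_AR hz (SMX_s i) (SMX_bs i) h0 (SMX_t i) (SMX_p k i)
    (SMX_hp i (cc x y u a b) w hcc)
  have e1 := SMX_loc i (cc x y u a b) w 1 one_ne_zero (yX x y u a b w) (fun m i => rfl)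
    (fun s => (one_mul _).symm)
  have e2 := SMX_loc i c w' μ hμ z hz1 hz2
  rw [e1, e2] at hA
  have hrg := hrel_gen hD
  have hrs := chk_E (c 3) (c 4) hrel.hE (i 3) (i 4) (hci 3) (hci 4)
  obtain ⟨n1, n2, n3⟩ := num2 h2 (i 4) (i 3) (lc c i 3) (lc c i 4) hrs
  have hW0 : lw (cc x y u a b) w i ≠ 0 :=
    div_ne_zero (mul_ne_zero (mul_ne_zero hw (hcc _ _)) (hcc _ _))
      (mul_ne_zero (mul_ne_zero (hcc _ _) (hcc _ _)) (hcc _ _))
  obtain ⟨hP, hG⟩ := loc_param_X h2 (sh (g (i 2)) (i 0) (i 1)) (sh (g (i 2 + 1)) (i 0) (i 1))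
    (shr (rho (i 4)) (i 3)) (shr (rho (i 4 + 1)) (i 3)) hA
    (chk_P _ _ _ hrg.hU (i 0) (i 1) (i 2) (hcc _ _) (hcc _ _) (hcc _ _))
    (chk_P _ _ _ hrel.hU (i 0) (i 1) (i 2) (hci 0) (hci 1) (hci 2))
    (chk_W _ _ hrg i (fun m => hcc _ _)) (chk_W _ _ hrel i hci)
    (chk_E _ _ hrg.hE (i 3) (i 4) (hcc _ _) (hcc _ _)) hrs n1 n2 n3
    (div_ne_zero (hcc _ _) (hcc _ _)) hW0 (div_ne_zero (hcc _ _) (hcc _ _))
    (SMX_nz h2 hD i) (num1 h2 (i 2 + 1) (i 0) (i 1) _ _) (num3 h2 (i 2) (i 0) (i 1) _ _)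
  have hOL : (O : Set K) = Loc bX (yX x y u a b w) z := Set.ext hO.mem
  have hU : Un O (lR (cc x y u a b) i) :=
    (Val.Rq (shr (rho (i 4)) (i 3)) (hA.mem 3)).un hA.inv n1
  refine ⟨SMX_smooth hO hP, ?_, (hO.mem _).1 hU.1, (hO.mem _).1 hU.2.1⟩
  rw [← hOL]
  exact hG

end Pool.Agent.H56.KN
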