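import Pool.Agent.H56.KN.Ex
import Pool.Agent.H56.KN.SCL
import Pool.Agent.H56.KN.VAL
import Pool.Agent.H56.KN.SMX
import Pool.Agent.H56.KN.ETX
import Pool.Agent.H56.KN.NEX

/-!
Part DEG. The degree. `ω = (lw … i)⁻¹ • etC … i` with `i = 0` (all charts zero), `ω' = ± (lw … i')⁻¹ • etC … i'` with `i' = ![0, 0, 1, 0, 0]`; `lw … 0 = w`, `lw … i' = w u`, so with the right sign `ω = u • ω'` (`etC_eq` twice). `P = X (inl (2, 1))`,
`Q = X (inl (2, 0))`, `r = 1`. `loc_X` at the points of the curve: the coordinates `inl (0, 0)`, `inl (1, 0)`, `inl (3, 0)`, `inl (4, 0)` of `crv` are `1`. `IsGen` of the negative of a generator is easy.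
-/

set_option autoImplicit false

namespace Pool.Agent.H56.KN

open MvPolynomial

variable {k : Type} [Field k]

theorem DEG_neg {σ β K : Type} [Field K] [Algebra k K] {bl : σ → β} {y : σ → K} {x : σ → k}
    {p : ℕ} {ω : Om k K} (h : IsGen k (Loc bl y x) p ω) : IsGen k (Loc bl y x) p (-ω) := by
  obtain ⟨h1, h2, h3⟩ := h
  refine ⟨neg_ne_zero.2 h1, neg_mem h2, fun θ hθ => ?_⟩
  obtain ⟨a, ⟨d, P, Q, hP, hQ, hQx, ha⟩, hh⟩ := h3 θ hθ
  refine ⟨-a, ⟨d, C (-1) * P, Q, hP.C_mul (-1), hQ, hQx, ?_⟩, ?_⟩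
  · rw [map_mul, ← ha, map_neg, map_neg, map_one, map_one]
    ring
  · rw [hh, neg_smul_neg]

theorem degree_X {K : Type} [Field K] [Algebra k K] (h2 : (2 : k) ≠ 0) {x y u a b w : K}
    (hD : Dat k x y u a b w) {xs ys bs : k}
    (hc : IsRatCurve k bX (yX x y u a b w) (crv xs ys bs)) :
    HasCanonicalDegreeNeg k bX (yX x y u a b w) 3 (crv xs ys bs) 1 := by
  obtain ⟨hx, hy, hu, ha, hb, hw, -, -, -, -⟩ := ne_X hD
  have l0 : lw (cc x y u a b) w 0 = w := by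
    unfold lw cc
    simp
  have l1 : lw (cc x y u a b) w ![0, 0, 1, 0, 0] = w * u := by
    unfold lw cc
    simp
  have g0 : ∀ t : Fin 2 → k, t 0 ≠ 0 →
      IsGen k (Loc bX (yX x y u a b w) (at' (crv xs ys bs) t)) 3
        (w⁻¹ • etC k (cc x y u a b) 0) := by
    intro t ht
    have hm := hc.mem t (fun h => ht (by rw [h]; rfl))
    have := (loc_X h2 hD hm 0 (by
      intro m
      fin_cases m <;> simp [at', crv, ht])).2.1
    rw [l0] at this
    exact this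
  have g1 : ∀ t : Fin 2 → k, t ≠ 0 → t 0 = 0 →
      IsGen k (Loc bX (yX x y u a b w) (at' (crv xs ys bs) t)) 3
        ((w * u)⁻¹ • etC k (cc x y u a b) ![0, 0, 1, 0, 0]) := by
    intro t ht ht0
    have hm := hc.mem t ht
    have ht1 : t 1 ≠ 0 := by
      intro h1
      apply ht
      funext i
      fin_cases i
      · exact ht0
      · exact h1
    have := (loc_X h2 hD hm ![0, 0, 1, 0, 0] (by
      intro m
      fin_cases m <;> simp [at', crv, ht1])).2.1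
    rw [l1] at this
    exact this
  have key : ∃ ω' : Om k K, w⁻¹ • etC k (cc x y u a b) 0 = u • ω' ∧
      ∀ t : Fin 2 → k, t ≠ 0 → t 0 = 0 →
      IsGen k (Loc bX (yX x y u a b w) (at' (crv xs ys bs) t)) 3 ω' := by
    have hinv : u * (w * u)⁻¹ = w⁻¹ := by
      field_simp
    rcases etC_eq hD 0 with e0 | e0 <;> rcases etC_eq hD ![0, 0, 1, 0, 0] with e1 | e1
    · refine ⟨(w * u)⁻¹ • etC k (cc x y u a b) ![0, 0, 1, 0, 0], ?_, g1⟩
      rw [e0, e1, smul_smul, hinv]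
    · refine ⟨-((w * u)⁻¹ • etC k (cc x y u a b) ![0, 0, 1, 0, 0]), ?_,
        fun t ht ht0 => DEG_neg (g1 t ht ht0)⟩
      rw [e0, e1]
      simp only [smul_neg, neg_neg, smul_smul, hinv]
    · refine ⟨-((w * u)⁻¹ • etC k (cc x y u a b) ![0, 0, 1, 0, 0]), ?_,
        fun t ht ht0 => DEG_neg (g1 t ht ht0)⟩
      rw [e0, e1, smul_neg, smul_neg, smul_smul, hinv]
    · refine ⟨(w * u)⁻¹ • etC k (cc x y u a b) ![0, 0, 1, 0, 0], ?_, g1⟩
      rw [e0, e1, smul_neg, smul_neg, smul_neg, smul_smul, hinv]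
  obtain ⟨ω', hω, hg⟩ := key
  refine ⟨w⁻¹ • etC k (cc x y u a b) 0, ω', Finsupp.single (some 2) 1, X (Sum.inl (2, 1)),
    X (Sum.inl (2, 0)), MHom.X bX (Sum.inl (2, 1)), MHom.X bX (Sum.inl (2, 0)), ?_, ?_, ?_,
    g0, hg⟩
  · have e1 : aeval (yX x y u a b w) (X (Sum.inl (2, 0)) : MvPolynomial Sg k) = 1 := by
      rw [aeval_X]; simp [yX, pt, cc]
    have e2 : aeval (yX x y u a b w) (X (Sum.inl (2, 1)) : MvPolynomial Sg k) = u := by
      rw [aeval_X]; simp [yX, pt, cc]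
    rw [e1, e2, one_smul]
    exact hω
  · rw [aeval_X]
    simp [crv]
  · rw [aeval_X, aeval_X]
    simp [crv]
    ring

end Pool.Agent.H56.KN
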