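import Mathlib

/-!
MP_be60d3: definitions for the statement.

Varieties are closed irreducible subsets of products of projective spaces over `k`, described by
(multi)homogeneous coordinates `σ`, sorted into blocks by `bl : σ → β` (one projective space for
each block), through their generic points `y : σ → K`, `K` the function field.
-/

set_option autoImplicit false

namespace Pool.Agent.H56.KN

open MvPolynomial

/-- `P` is homogeneous of degree `d b` in the variables of the block `b`, for every block `b` -/
def MHom {k σ β : Type} [Field k] (bl : σ → β) (d : β →₀ ℕ) (P : MvPolynomial σ k) : Prop :=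
  ∀ m ∈ P.support, Finsupp.mapDomain bl m = d

/-- `x` are the coordinates of a point of the product of the projective spaces of the blocks -/
def IsPt {σ β K : Type} [Zero K] (bl : σ → β) (x : σ → K) : Prop :=
  ∀ b, ∃ s, bl s = b ∧ x s ≠ 0

/-- `x` and `x'` are coordinates of the same point -/
def SamePt {k σ β : Type} [Field k] (bl : σ → β) (x x' : σ → k) : Prop :=
  ∀ s s', bl s = bl s' → x s * x' s' = x' s * x s'

/-- the irreducible closed subvariety (its set of `k`-points, given by coordinates) with
generic point `y`: the common zeros of the multihomogeneous polynomials vanishing at `y` -/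
def Var {σ β K : Type} (k : Type) [Field k] [Field K] [Algebra k K] (bl : σ → β) (y : σ → K) :
    Set (σ → k) :=
  {x | IsPt bl x ∧ ∀ (d : β →₀ ℕ) (P : MvPolynomial σ k), MHom bl d P → aeval y P = 0 →
    aeval x P = 0}

/-- `y` is a point over `K` and `K` is the function field of the variety with generic point `y` -/
def IsFF {σ β K : Type} (k : Type) [Field k] [Field K] [Algebra k K] (bl : σ → β) (y : σ → K) :
    Prop :=
  IsPt bl y ∧ ∀ f : K, ∃ (d : β →₀ ℕ) (P Q : MvPolynomial σ k), MHom bl d P ∧ MHom bl d Q ∧
    aeval y Q ≠ 0 ∧ f * aeval y Q = aeval y P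

/-- the local ring of the variety with generic point `y` at the point `x` -/
def Loc {k σ β K : Type} [Field k] [Field K] [Algebra k K] (bl : σ → β) (y : σ → K)
    (x : σ → k) : Set K :=
  {f | ∃ (d : β →₀ ℕ) (P Q : MvPolynomial σ k), MHom bl d P ∧ MHom bl d Q ∧
    aeval x Q ≠ 0 ∧ f * aeval y Q = aeval y P}

/-- the maximal ideal of the local ring at `x` -/
def MaxId {k σ β K : Type} [Field k] [Field K] [Algebra k K] (bl : σ → β) (y : σ → K)
    (x : σ → k) : Set K :=
  {f | ∃ (d : β →₀ ℕ) (P Q : MvPolynomial σ k), MHom bl d P ∧ MHom bl d Q ∧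
    aeval x Q ≠ 0 ∧ aeval x P = 0 ∧ f * aeval y Q = aeval y P}

/-- the maximal ideal of the local ring at `x` is generated by `n` elements -/
def SmoothAt {k σ β K : Type} [Field k] [Field K] [Algebra k K] (bl : σ → β) (y : σ → K) (n : ℕ)
    (x : σ → k) : Prop :=
  ∃ u : Fin n → K, (∀ j, u j ∈ MaxId bl y x) ∧ ∀ f ∈ MaxId bl y x,
    ∃ a : Fin n → K, (∀ j, a j ∈ Loc bl y x) ∧ f = ∑ j, a j * u j

/-- the variety with generic point `y` is smooth of dimension `n`, with function field `K` -/
def IsSmoothVariety {σ β K : Type} (k : Type) [Field k] [Field K] [Algebra k K] (bl : σ → β)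
    (y : σ → K) (n : ℕ) : Prop :=
  IsFF k bl y ∧ Algebra.trdeg k K = n ∧ ∀ x ∈ Var k bl y, SmoothAt bl y n x

/-- rational differential forms -/
abbrev Om (k K : Type) [Field k] [Field K] [Algebra k K] : Type :=
  ExteriorAlgebra K (KaehlerDifferential k K)

/-- the form `du₁ ∧ ⋯ ∧ du_p` -/
noncomputable def dd (k : Type) {K : Type} [Field k] [Field K] [Algebra k K] {p : ℕ}
    (u : Fin p → K) : Om k K :=
  ExteriorAlgebra.ιMulti K p (fun j => KaehlerDifferential.D k K (u j))

/-- the sums of rational differential `p`-forms `a du₁ ∧ ⋯ ∧ du_p` with `a, u₁, …, u_p` in `L`;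
if `L` is the local ring of a point, these are the `p`-forms which are regular at the point -/
noncomputable def formsOn (k : Type) {K : Type} [Field k] [Field K] [Algebra k K] (L : Set K)
    (p : ℕ) : AddSubgroup (Om k K) :=
  AddSubgroup.closure {ω | ∃ a ∈ L, ∃ u : Fin p → K, (∀ j, u j ∈ L) ∧ ω = a • dd k u}

/-- the form `ω` generates the module of the `p`-forms regular at the point with local ring `L` -/
def IsGen (k : Type) {K : Type} [Field k] [Field K] [Algebra k K] (L : Set K) (p : ℕ)
    (ω : Om k K) : Prop :=
  ω ≠ 0 ∧ ω ∈ formsOn k L p ∧ ∀ θ ∈ formsOn k L p, ∃ a ∈ L, θ = a • ω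

/-- the canonical bundle of the variety (of dimension `n`) is trivial: some rational `n`-form
generates the regular forms at every point -/
def TrivialCanonical {σ β K : Type} (k : Type) [Field k] [Field K] [Algebra k K] (bl : σ → β)
    (y : σ → K) (n : ℕ) : Prop :=
  ∃ η : Om k K, ∀ x ∈ Var k bl y, IsGen k (Loc bl y x) n η

/-- The projection `x ↦ x ∘ j` to some of the factors (the coordinates `j s`, which make up full
blocks) is a morphism from the variety with generic point `y` onto the variety with generic
point `z`, the function field `L` of which is algebraically closed in the function field `K`. -/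
structure IsFibration {σ β τ γ K : Type} (k : Type) [Field k] [Field K] [Algebra k K]
    (bl : σ → β) (y : σ → K) (L : IntermediateField k K) (bt : τ → γ) (z : τ → L)
    (j : τ → σ) : Prop where
  blocks : ∀ s s', bt s = bt s' ↔ bl (j s) = bl (j s')
  full : ∀ s t, bl t = bl (j s) → ∃ s', t = j s'
  generic : ∀ s, y (j s) = z s
  connected : ∀ f : K, IsAlgebraic L f → f ∈ L

/-- The square of the canonical bundle of the source (of dimension `n`) of the projection
`x ↦ x ∘ j` is trivial near each fibre: for every point `t` of the target there are a rational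
`n`-form `η` and a rational function `h` such that `η ^ 2 / h` generates it at every point
over `t` (`e η` is a generator of the canonical bundle, and `e ^ 2 h` is a unit). -/
def SquareTrivialOnFibres {σ β τ γ K : Type} (k : Type) [Field k] [Field K] [Algebra k K]
    (bl : σ → β) (y : σ → K) (n : ℕ) (L : IntermediateField k K) (bt : τ → γ) (z : τ → L)
    (j : τ → σ) : Prop :=
  ∀ t ∈ Var k bt z, ∃ (η : Om k K) (h : K), h ≠ 0 ∧ ∀ x ∈ Var k bl y, SamePt bt (x ∘ j) t →
    ∃ e : K, IsGen k (Loc bl y x) n (e • η) ∧ e ^ 2 * h ∈ Loc bl y x ∧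
      (e ^ 2 * h)⁻¹ ∈ Loc bl y x

/-- the value of the coordinates `c` at the point `t` of `P¹` -/
noncomputable def at' {k σ : Type} [Field k] (c : σ → MvPolynomial (Fin 2) k) (t : Fin 2 → k) :
    σ → k :=
  fun s => aeval t (c s)

/-- `c` is a nonconstant morphism from `P¹` (with coordinates `X 0`, `X 1`) to the variety with
generic point `y` -/
structure IsRatCurve {σ β K : Type} (k : Type) [Field k] [Field K] [Algebra k K] (bl : σ → β)
    (y : σ → K) (c : σ → MvPolynomial (Fin 2) k) : Prop where
  homog : ∃ m : β → ℕ, ∀ s, (c s).IsHomogeneous (m (bl s))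
  mem : ∀ t : Fin 2 → k, t ≠ 0 → at' c t ∈ Var k bl y
  nonconst : ¬ SamePt bl (at' c ![1, 0]) (at' c ![0, 1])

/-- The pull back of the canonical bundle to `P¹` has degree `-r`: there are rational `n`-forms `ω`,
`ω'` which generate the regular forms at the points of the curve with `t₀ ≠ 0`, respectively
at the point `t₀ = 0`, and `ω = (P / Q) ω'`, where `P / Q` restricts to `(t₁ / t₀) ^ r`. -/
def HasCanonicalDegreeNeg {σ β K : Type} (k : Type) [Field k] [Field K] [Algebra k K]
    (bl : σ → β) (y : σ → K) (n : ℕ) (c : σ → MvPolynomial (Fin 2) k) (r : ℕ) : Prop :=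
  ∃ (ω ω' : Om k K) (d : β →₀ ℕ) (P Q : MvPolynomial σ k), MHom bl d P ∧ MHom bl d Q ∧
    aeval y Q • ω = aeval y P • ω' ∧ aeval c Q ≠ 0 ∧
    aeval c P * X 0 ^ r = aeval c Q * X 1 ^ r ∧
    (∀ t : Fin 2 → k, t 0 ≠ 0 → IsGen k (Loc bl y (at' c t)) n ω) ∧
    ∀ t : Fin 2 → k, t ≠ 0 → t 0 = 0 → IsGen k (Loc bl y (at' c t)) n ω'

end Pool.Agent.H56.KN
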