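import Pool.Agent.H56.KN.Ex
import Pool.Agent.H56.KN.SCL
import Pool.Agent.H56.KN.VAL
import Pool.Agent.H56.KN.NEX

/-!
Part ETY. The same for `Y`, see part ETX.
-/

set_option autoImplicit false

namespace Pool.Agent.H56.KN

open MvPolynomial

variable {k : Type} [Field k]

theorem ETY_dd {L : Type} [Field L] [Algebra k L] (x y : L) : dd k ![x, y] =
    ExteriorAlgebra.ι L (KaehlerDifferential.D k L x) *
      ExteriorAlgebra.ι L (KaehlerDifferential.D k L y) := by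
  unfold dd
  rw [ExteriorAlgebra.ιMulti_apply]
  simp [List.ofFn_succ]

theorem ETY_D {L : Type} [Field L] [Algebra k L] (x : L) :
    KaehlerDifferential.D k L x⁻¹ = (-x⁻¹ ^ 2) • KaehlerDifferential.D k L x :=
  Derivation.leibniz_inv _ _

theorem ETY_x {L : Type} [Field L] [Algebra k L] (c : Fin 2 → Fin 2 → ℤ) (x y u : L)
    (hx : x ≠ 0) : thY k (sh c 1 0) x⁻¹ y u = -thY k c x y u := by
  unfold thY
  have e : Bq (sh c 1 0) x⁻¹ y = x⁻¹ ^ 2 * Bq c x y := by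
    have : x⁻¹ * x = 1 := inv_mul_cancel₀ hx
    simp only [Bq, sh]
    simp only [Fin.isValue, add_zero, zero_add, Fin.reduceAdd]
    have h2 : x⁻¹ ^ 2 * x ^ 2 = 1 := by rw [← mul_pow, this, one_pow]
    linear_combination (-(c 1 0 : L) - (c 1 1 : L) * y ^ 2) * h2
  rw [e, ETY_dd, ETY_dd, ETY_D, map_smul, smul_mul_assoc, smul_smul, ← neg_smul]
  congr 1
  rw [mul_inv, mul_inv, mul_inv]
  have hx' : x⁻¹ ^ 2 ≠ 0 := pow_ne_zero 2 (inv_ne_zero hx)
  field_simp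

theorem ETY_y {L : Type} [Field L] [Algebra k L] (c : Fin 2 → Fin 2 → ℤ) (x y u : L)
    (hy : y ≠ 0) : thY k (sh c 0 1) x y⁻¹ u = -thY k c x y u := by
  unfold thY
  have e : Bq (sh c 0 1) x y⁻¹ = y⁻¹ ^ 2 * Bq c x y := by
    have : y⁻¹ * y = 1 := inv_mul_cancel₀ hy
    simp only [Bq, sh]
    simp only [Fin.isValue, add_zero, zero_add, Fin.reduceAdd]
    have h2 : y⁻¹ ^ 2 * y ^ 2 = 1 := by rw [← mul_pow, this, one_pow]
    linear_combination (-(c 0 1 : L) - (c 1 1 : L) * x ^ 2) * h2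
  rw [e, ETY_dd, ETY_dd, ETY_D, map_smul, mul_smul_comm, smul_smul, ← neg_smul]
  congr 1
  rw [mul_inv, mul_inv, mul_inv]
  have hy' : y⁻¹ ^ 2 ≠ 0 := pow_ne_zero 2 (inv_ne_zero hy)
  field_simp

theorem ETY_sh (c : Fin 2 → Fin 2 → ℤ) (i j i' j' : Fin 2) :
    sh (sh c i j) i' j' = sh c (i + i') (j + j') := by
  funext a b
  simp only [sh, add_assoc]

theorem ETY_sh0 (c : Fin 2 → Fin 2 → ℤ) : sh c 0 0 = c := by
  funext a b
  simp only [sh, zero_add]

theorem thC_eq {L : Type} [Field L] [Algebra k L] {x y u : L} (hD : DatY k x y u)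
    (i : Fin 3 → Fin 2) : thC k (c3 x y u) i = thY k (g 0) x y u ∨
      thC k (c3 x y u) i = -thY k (g 0) x y u := by
  obtain ⟨hx, hy, hu, h0, h1⟩ := ne_Y hD
  -- the third coordinate
  have hU : thY k (g 1) x y u⁻¹ = thY k (g 0) x y u := by
    unfold thY
    congr 2
    rw [← hD.hu]
    field_simp
  have l0 : ∀ (m : Fin 3) (t : L), ![x, y, u] m = t → i m = 0 → lc (c3 x y u) i m = t := by
    intro m t ht hm
    unfold lc c3
    rw [hm, ht]
    simp
  have l1 : ∀ (m : Fin 3) (t : L), ![x, y, u] m = t → i m = 1 → lc (c3 x y u) i m = t⁻¹ := by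
    intro m t ht hm
    unfold lc c3
    rw [hm, ht]
    simp
  have two : ∀ t : Fin 2, t = 0 ∨ t = 1 := by decide
  have hx' := inv_ne_zero hx
  have hy' := inv_ne_zero hy
  have gen : ∀ (c : Fin 2 → Fin 2 → ℤ) (v : L),
      thY k (sh c (i 0) (i 1)) (lc (c3 x y u) i 0) (lc (c3 x y u) i 1) v = thY k c x y v ∨
      thY k (sh c (i 0) (i 1)) (lc (c3 x y u) i 0) (lc (c3 x y u) i 1) v = -thY k c x y v := by
    intro c v
    rcases two (i 0) with e0 | e0 <;> rcases two (i 1) with e1 | e1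
    · rw [l0 0 x rfl e0, l0 1 y rfl e1, e0, e1, ETY_sh0]
      exact Or.inl rfl
    · rw [l0 0 x rfl e0, l1 1 y rfl e1, e0, e1, ETY_y _ _ _ _ hy]
      exact Or.inr rfl
    · rw [l1 0 x rfl e0, l0 1 y rfl e1, e0, e1, ETY_x _ _ _ _ hx]
      exact Or.inr rfl
    · rw [l1 0 x rfl e0, l1 1 y rfl e1, e0, e1]
      have e : sh c 1 1 = sh (sh c 1 0) 0 1 := by rw [ETY_sh]; rfl
      rw [e, ETY_y _ _ _ _ hy, ETY_x _ _ _ _ hx, neg_neg]
      exact Or.inl rfl
  unfold thC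
  rcases two (i 2) with e2 | e2
  · rw [l0 2 u rfl e2, e2]
    exact gen (g 0) u
  · rw [l1 2 u rfl e2, e2, ← hU]
    exact gen (g 1) u⁻¹

end Pool.Agent.H56.KN
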