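import Pool.Agent.H56.KN.Ex
import Pool.Agent.H56.KN.SCL
import Pool.Agent.H56.KN.VAL

/-!
Part EXI. Existence: in the algebraic closure of `FractionRing (MvPolynomial (Fin 3) k)` take the variables `x, y, a` and square roots `u` of `g₁ / g₀`, `b` of `(1 - a²) / (1 + a²)`,
`w` of `g₀ (1 + a²)`; `K` is the subfield generated by them over `k`.
-/

set_option autoImplicit false

namespace Pool.Agent.H56.KN

open MvPolynomial

variable {k : Type} [Field k]

/-- a subfield generated by elements is generated by them over itself -/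
theorem EXI_gen {K : Type} [Field K] [Algebra k K] (L : IntermediateField k K) (S : Set L)
    (h : IntermediateField.adjoin k (Subtype.val '' S) = L) :
    IntermediateField.adjoin k S = ⊤ := by
  apply IntermediateField.lift_injective L
  rw [IntermediateField.lift_adjoin, IntermediateField.lift_top]
  exact h

theorem exists_Dat (k : Type) [Field k] : ∃ (K : Type) (_ : Field K) (_ : Algebra k K)
    (x y u a b w : K), Dat k x y u a b w := by
  let R := MvPolynomial (Fin 3) k
  let Ω := AlgebraicClosure (FractionRing R)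
  -- the variables
  let v : Fin 3 → Ω := fun i => algebraMap (FractionRing R) Ω (algebraMap R (FractionRing R) (X i))
  have hinj : Function.Injective (algebraMap R Ω) := by
    rw [IsScalarTower.algebraMap_eq R (FractionRing R) Ω]
    exact (algebraMap (FractionRing R) Ω).injective.comp (IsFractionRing.injective R _)
  have hv : v = fun i => algebraMap R Ω (X i) := by
    funext i
    exact (IsScalarTower.algebraMap_apply R (FractionRing R) Ω (X i)).symm
  have haev : ∀ p : R, aeval v p = algebraMap R Ω p := by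
    intro p
    rw [hv]
    have h := MvPolynomial.comp_aeval_apply (f := (X : Fin 3 → R)) (IsScalarTower.toAlgHom k R Ω) p
    rw [MvPolynomial.aeval_X_left_apply] at h
    exact h.symm
  have hind : AlgebraicIndependent k v := by
    rw [algebraicIndependent_iff_injective_aeval]
    intro p q h
    rw [haev, haev] at h
    exact hinj h
  have hne : ∀ p : R, aeval (fun _ => (0 : k)) p ≠ 0 → aeval v p ≠ 0 := by
    intro p hp h
    rw [haev] at h
    have : p = 0 := by
      apply hinj
      rw [h, map_zero]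
    rw [this, map_zero] at hp
    exact hp rfl
  have hG : Bq (g 0) (v 0) (v 1) ≠ 0 := by
    have h := hne (-1 - X 0 ^ 2 - X 1 ^ 2 + X 0 ^ 2 * X 1 ^ 2) (by simp)
    have e : Bq (g 0) (v 0) (v 1) =
        aeval v ((-1 - X 0 ^ 2 - X 1 ^ 2 + X 0 ^ 2 * X 1 ^ 2 : R)) := by
      simp [Bq, g]
      ring
    rw [e]
    exact h
  have hA : (1 + v 2 ^ 2) ≠ 0 := by
    have h := hne (1 + X 2 ^ 2) (by simp)
    simpa using h
  obtain ⟨u, hu⟩ := IsAlgClosed.exists_pow_nat_eq (Bq (g 1) (v 0) (v 1) / Bq (g 0) (v 0) (v 1))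
    (n := 2) two_pos
  obtain ⟨b, hb⟩ := IsAlgClosed.exists_pow_nat_eq ((1 - v 2 ^ 2) / (1 + v 2 ^ 2))
    (n := 2) two_pos
  obtain ⟨w, hw⟩ := IsAlgClosed.exists_pow_nat_eq (Bq (g 0) (v 0) (v 1) * (1 + v 2 ^ 2))
    (n := 2) two_pos
  have hu' : u ^ 2 * Bq (g 0) (v 0) (v 1) = Bq (g 1) (v 0) (v 1) := by
    rw [hu]; exact div_mul_cancel₀ _ hG
  have hb' : b ^ 2 * (1 + v 2 ^ 2) = 1 - v 2 ^ 2 := by
    rw [hb]; exact div_mul_cancel₀ _ hA
  let S : Set Ω := {v 0, v 1, u, v 2, b, w}
  let L : IntermediateField k Ω := IntermediateField.adjoin k S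
  have hS : S ⊆ L := IntermediateField.subset_adjoin k S
  have m0 : v 0 ∈ L := hS (by simp [S])
  have m1 : v 1 ∈ L := hS (by simp [S])
  have m2 : v 2 ∈ L := hS (by simp [S])
  have mu : u ∈ L := hS (by simp [S])
  have mb : b ∈ L := hS (by simp [S])
  have mw : w ∈ L := hS (by simp [S])
  refine ⟨L, inferInstance, inferInstance, ⟨v 0, m0⟩, ⟨v 1, m1⟩, ⟨u, mu⟩, ⟨v 2, m2⟩, ⟨b, mb⟩,
    ⟨w, mw⟩, ?_, ?_, ?_, ?_, ?_⟩
  · apply AlgebraicIndependent.of_comp L.val
    have e : (⇑L.val ∘ (![⟨v 0, m0⟩, ⟨v 1, m1⟩, ⟨v 2, m2⟩] : Fin 3 → L)) = v := by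
      funext i
      fin_cases i <;> rfl
    rw [e]
    exact hind
  · apply Subtype.ext
    unfold Bq at hu' ⊢
    push_cast
    exact hu'
  · apply Subtype.ext
    push_cast
    exact hb'
  · apply Subtype.ext
    unfold Bq at hw ⊢
    push_cast
    exact hw
  · apply EXI_gen
    show _ = IntermediateField.adjoin k S
    congr 1
    ext z
    simp only [S, Set.mem_image, Set.mem_insert_iff, Set.mem_singleton_iff]
    constructor
    · rintro ⟨t, rfl | rfl | rfl | rfl | rfl | rfl, rfl⟩ <;> simp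
    · rintro (rfl | rfl | rfl | rfl | rfl | rfl)
      · exact ⟨_, Or.inl rfl, rfl⟩
      · exact ⟨_, Or.inr (Or.inl rfl), rfl⟩
      · exact ⟨_, Or.inr (Or.inr (Or.inl rfl)), rfl⟩
      · exact ⟨_, Or.inr (Or.inr (Or.inr (Or.inl rfl))), rfl⟩
      · exact ⟨_, Or.inr (Or.inr (Or.inr (Or.inr (Or.inl rfl)))), rfl⟩
      · exact ⟨_, Or.inr (Or.inr (Or.inr (Or.inr (Or.inr rfl)))), rfl⟩

end Pool.Agent.H56.KN
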