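import Pool.Agent.H56.KN.Defs

/-!
The example.

`Y ⊂ (P¹)³` (coordinates `x`, `y`, `u`): `u₀² g₁(x, y) = u₁² g₀(x, y)`, a K3 surface, where `g₀`, `g₁` are
forms of bidegree `(2, 2)`, in affine coordinates (`x₀ = y₀ = 1`)
`g₀ = -1 - x² - y² + x² y²`, `g₁ = 1 - x² - y² - x² y²`.
They have 8 common zeros, so `Y` contains 8 disjoint (-2)-curves `N = point × P¹`. There is a
section `G` with `g_p = u_p² G`, zero divisor the sum of the 8 curves.
`E' ⊂ (P¹)²` (coordinates `a`, `b`, factors number 3 and 4): `b₀² ρ₁(a) = b₁² ρ₀(a)`,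
`ρ₀ = a₀² + a₁²`, `ρ₁ = a₀² - a₁²`, an elliptic curve; `ρ_q = b_q² H`.
`X` is the double cover `w² = G H` of `Y × E'`, embedded by the coordinates `x_i y_j a_l`, `w u_p b_q`.
-/

set_option autoImplicit false

namespace Pool.Agent.H56.KN

open MvPolynomial

/-- coordinates of `(P¹)⁵ × P¹¹` -/
abbrev Sg := (Fin 5 × Fin 2) ⊕ ((Fin 2 × Fin 2 × Fin 2) ⊕ (Fin 2 × Fin 2))

/-- the blocks -/
def bX : Sg → Option (Fin 5)
  | Sum.inl p => some p.1
  | Sum.inr _ => none

/-- coordinates of `(P¹)³` -/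
abbrev Tg := Fin 3 × Fin 2

/-- the blocks -/
def bY : Tg → Fin 3 := Prod.fst

/-- the projection to the first three factors -/
def jj : Tg → Sg := fun p => Sum.inl (Fin.castLE (by norm_num) p.1, p.2)

section

variable {R : Type} [CommRing R]

/-- the point with coordinates `c` in `(P¹)⁵` and double cover coordinate `w` -/
def pt (c : Fin 5 → Fin 2 → R) (w : R) : Sg → R
  | Sum.inl (m, i) => c m i
  | Sum.inr (Sum.inl (i, j, l)) => c 0 i * c 1 j * c 3 l
  | Sum.inr (Sum.inr (p, q)) => w * c 2 p * c 4 q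

/-- coefficients of `g₀` and `g₁` -/
def g (p a b : Fin 2) : ℤ :=
  if p = 0 then (if a = 1 ∧ b = 1 then 1 else -1) else (if a = 0 ∧ b = 0 then 1 else -1)

/-- coefficients of `ρ₀` and `ρ₁` -/
def rho (q a : Fin 2) : ℤ := if q = 1 ∧ a = 1 then -1 else 1

/-- the form of bidegree `(2, 2)` with coefficients `c` -/
def Bh (c : Fin 2 → Fin 2 → ℤ) (x y : Fin 2 → R) : R := ∑ a, ∑ b, (c a b : R) * x a ^ 2 * y b ^ 2

/-- the form of degree 2 with coefficients `c` -/
def Rh (c : Fin 2 → ℤ) (x : Fin 2 → R) : R := ∑ a, (c a : R) * x a ^ 2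

/-- affine version -/
def Bq (c : Fin 2 → Fin 2 → ℤ) (x y : R) : R :=
  (c 0 0 : R) + (c 1 0 : R) * x ^ 2 + (c 0 1 : R) * y ^ 2 + (c 1 1 : R) * x ^ 2 * y ^ 2

/-- affine version -/
def Rq (c : Fin 2 → ℤ) (a : R) : R := (c 0 : R) + (c 1 : R) * a ^ 2

/-- shifted coefficients -/
def sh (c : Fin 2 → Fin 2 → ℤ) (i j : Fin 2) : Fin 2 → Fin 2 → ℤ := fun a b => c (i + a) (j + b)

/-- shifted coefficients -/
def shr (c : Fin 2 → ℤ) (i : Fin 2) : Fin 2 → ℤ := fun a => c (i + a)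

/-- generic coordinates -/
def cc (x y u a b : R) : Fin 5 → Fin 2 → R := fun m => ![1, ![x, y, u, a, b] m]

/-- generic coordinates -/
def c3 (x y u : R) : Fin 3 → Fin 2 → R := fun m => ![1, ![x, y, u] m]

/-- the generic point of `X` -/
def yX (x y u a b w : R) : Sg → R := pt (cc x y u a b) w

/-- the generic point of `Y` -/
def yY (x y u : R) : Tg → R := fun p => c3 x y u p.1 p.2

/-- the homogeneous relations -/
structure HRel (c : Fin 5 → Fin 2 → R) (w : R) : Prop where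
  hU : c 2 0 ^ 2 * Bh (g 1) (c 0) (c 1) = c 2 1 ^ 2 * Bh (g 0) (c 0) (c 1)
  hE : c 4 0 ^ 2 * Rh (rho 1) (c 3) = c 4 1 ^ 2 * Rh (rho 0) (c 3)
  hW : ∀ p q, (w * c 2 p * c 4 q) ^ 2 = Bh (g p) (c 0) (c 1) * Rh (rho q) (c 3)

end

section

variable {F : Type} [Field F]

/-- the local coordinates in the chart `i` -/
def lc {n : ℕ} (c : Fin n → Fin 2 → F) (i : Fin n → Fin 2) (m : Fin n) : F :=
  c m (i m + 1) / c m (i m)

/-- the local double cover coordinate in the chart `i` -/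
def lw (c : Fin 5 → Fin 2 → F) (w : F) (i : Fin 5 → Fin 2) : F :=
  w * c 2 (i 2) * c 4 (i 4) / (c 0 (i 0) * c 1 (i 1) * c 3 (i 3))

/-- the form `P` in the chart `i` -/
def lP (c : Fin 5 → Fin 2 → F) (i : Fin 5 → Fin 2) : F :=
  Bq (sh (g (i 2)) (i 0) (i 1)) (lc c i 0) (lc c i 1)

/-- the form `R` in the chart `i` -/
def lR (c : Fin 5 → Fin 2 → F) (i : Fin 5 → Fin 2) : F := Rq (shr (rho (i 4)) (i 3)) (lc c i 3)

/-- the function field data for `X` -/
structure Dat (k : Type) {K : Type} [Field k] [Field K] [Algebra k K] (x y u a b w : K) :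
    Prop where
  ind : AlgebraicIndependent k ![x, y, a]
  hu : u ^ 2 * Bq (g 0) x y = Bq (g 1) x y
  hb : b ^ 2 * (1 + a ^ 2) = 1 - a ^ 2
  hw : w ^ 2 = Bq (g 0) x y * (1 + a ^ 2)
  gen : IntermediateField.adjoin k {x, y, u, a, b, w} = ⊤

/-- the function field data for `Y` -/
structure DatY (k : Type) {L : Type} [Field k] [Field L] [Algebra k L] (x y u : L) : Prop where
  ind : AlgebraicIndependent k ![x, y]
  hu : u ^ 2 * Bq (g 0) x y = Bq (g 1) x y
  gen : IntermediateField.adjoin k {x, y, u} = ⊤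

/-- the local generator of the canonical bundle of `Y` in the chart with coordinates `x`, `y`, `u` and
coefficients `cp` -/
noncomputable def thY (k : Type) {K : Type} [Field k] [Field K] [Algebra k K]
    (cp : Fin 2 → Fin 2 → ℤ) (x y u : K) : Om k K := (u * Bq cp x y)⁻¹ • dd k ![x, y]

/-- the generator of the canonical bundle of `Y × E'` -/
noncomputable def etX (k : Type) {K : Type} [Field k] [Field K] [Algebra k K]
    (cp : Fin 2 → Fin 2 → ℤ) (cr : Fin 2 → ℤ) (x y u a b : K) : Om k K :=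
  (u * Bq cp x y * (b * Rq cr a))⁻¹ • dd k ![x, y, a]

/-- `thY` in the chart `i` -/
noncomputable def thC (k : Type) {K : Type} [Field k] [Field K] [Algebra k K]
    (c : Fin 3 → Fin 2 → K) (i : Fin 3 → Fin 2) : Om k K :=
  thY k (sh (g (i 2)) (i 0) (i 1)) (lc c i 0) (lc c i 1) (lc c i 2)

/-- `etX` in the chart `i` -/
noncomputable def etC (k : Type) {K : Type} [Field k] [Field K] [Algebra k K]
    (c : Fin 5 → Fin 2 → K) (i : Fin 5 → Fin 2) : Om k K :=
  etX k (sh (g (i 2)) (i 0) (i 1)) (shr (rho (i 4)) (i 3)) (lc c i 0) (lc c i 1) (lc c i 2)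
    (lc c i 3) (lc c i 4)

end

/-! Local rings. -/

section

variable {k K : Type} [Field k] [Field K] [Algebra k K]

/-- `O` is the local ring at `x`, with evaluation `ev` -/
structure LR {σ β : Type} (bl : σ → β) (y : σ → K) (x : σ → k)
    (O : Subalgebra k K) (ev : O →ₐ[k] k) : Prop where
  mem : ∀ f, f ∈ O ↔ f ∈ Loc bl y x
  zero : ∀ f : O, ev f = 0 ↔ (f : K) ∈ MaxId bl y x
  inv : ∀ f : O, ev f ≠ 0 → (f : K)⁻¹ ∈ O
  val : ∀ (d : β →₀ ℕ) (P Q : MvPolynomial σ k), MHom bl d P → MHom bl d Q → aeval x Q ≠ 0 →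
    ∀ f : O, (f : K) * aeval y Q = aeval y P → ev f = aeval x P / aeval x Q

/-- `z` is in the local ring `O`, with value `zs` -/
def Val (O : Subalgebra k K) (ev : O →ₐ[k] k) (z : K) (zs : k) : Prop :=
  ∃ h : z ∈ O, ev ⟨z, h⟩ = zs

/-- `O` is the local ring at `ζs` of the affine variety with generic point `ζ` -/
structure AR {N : Type} (ζ : N → K) (ζs : N → k) (O : Subalgebra k K) (ev : O →ₐ[k] k) :
    Prop where
  mem : ∀ n, Val O ev (ζ n) (ζs n)
  inv : ∀ f : O, ev f ≠ 0 → (f : K)⁻¹ ∈ O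
  gen : ∀ f ∈ O, ∃ P Q : MvPolynomial N k, aeval ζs Q ≠ 0 ∧ f * aeval ζ Q = aeval ζ P

/-- `z - zs` is in the ideal generated by the `v j - vs j`, and `dz` is a combination of the
`d(v j)` with coefficients in `O` -/
def Dep {n : ℕ} (O : Subalgebra k K) (v : Fin n → K) (vs : Fin n → k) (z : K) (zs : k) : Prop :=
  (∃ e : Fin n → K, (∀ j, e j ∈ O) ∧
    z - algebraMap k K zs = ∑ j, e j * (v j - algebraMap k K (vs j))) ∧
  ∃ e : Fin n → K, (∀ j, e j ∈ O) ∧
    KaehlerDifferential.D k K z = ∑ j, e j • KaehlerDifferential.D k K (v j)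

/-- the maximal ideal is generated by `n` elements -/
def Params (O : Subalgebra k K) (ev : O →ₐ[k] k) (n : ℕ) : Prop :=
  ∃ v : Fin n → K, (∀ j, Val O ev (v j) 0) ∧
    ∀ f : O, ev f = 0 → ∃ e : Fin n → K, (∀ j, e j ∈ O) ∧ (f : K) = ∑ j, e j * v j

/-- `ε` is a unit of `O` -/
def Un (O : Subalgebra k K) (ε : K) : Prop := ε ∈ O ∧ ε⁻¹ ∈ O ∧ ε ≠ 0

end

/-- the curve: the point `(xs, ys)` times `P¹` times a point of `E'` -/
noncomputable def crv {k : Type} [Field k] (xs ys bs : k) : Sg → MvPolynomial (Fin 2) k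
  | Sum.inl (m, i) => if m = 2 then X i
      else C (![![1, xs], ![1, ys], ![0, 0], ![1, 0], ![1, bs]] m i)
  | Sum.inr (Sum.inl (i, j, l)) => C (![1, xs] i * ![1, ys] j * ![1, 0] l)
  | Sum.inr (Sum.inr _) => 0

end Pool.Agent.H56.KN
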