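import Pool.Agent.H56.KN.Ex
import Pool.Agent.H56.KN.SCL
import Pool.Agent.H56.KN.VAL

/-!
Part HOM. If in every block some coordinate of `y` is `1` and the coordinates generate the field
`K`, then `K` is the function field. Port of `Pool/Agent/H56/TC/HOM.lean` (there over `ℂ`): multiply a
polynomial by powers of the coordinates equal to `1` to make it multihomogeneous of a given large degree.
`IntermediateField.mem_adjoin_range_iff`.
-/

set_option autoImplicit false

namespace Pool.Agent.H56.KN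

open MvPolynomial

variable {k : Type} [Field k]

theorem HOM_one {σ β K : Type} {bl : σ → β} [Field K] [Algebra k K] (y : σ → K)
    (hc : ∀ b, ∃ s, bl s = b ∧ y s = 1) (d : β →₀ ℕ) :
    ∃ P : MvPolynomial σ k, MHom bl d P ∧ aeval y P = 1 := by
  classical
  induction d using Finsupp.induction_linear with
  | zero =>
    refine ⟨MvPolynomial.C 1, MHom.C bl 1, ?_⟩
    simp
  | add d e hd he =>
    obtain ⟨P, h1, h2⟩ := hd
    obtain ⟨Q, h3, h4⟩ := he
    exact ⟨P * Q, h1.mul h3, by rw [map_mul, h2, h4, one_mul]⟩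
  | single b n =>
    obtain ⟨s, rfl, hs⟩ := hc b
    refine ⟨(MvPolynomial.X s) ^ n, ?_, ?_⟩
    · have h1 := (MHom.X (k := k) bl s).pow n
      have h2 : n • Finsupp.single (bl s) 1 = Finsupp.single (bl s) n := by
        rw [Finsupp.smul_single, smul_eq_mul, mul_one]
      rwa [h2] at h1
    · rw [map_pow, aeval_X, hs, one_pow]

theorem HOM_homog {σ β K : Type} {bl : σ → β} [Field K] [Algebra k K] (y : σ → K)
    (hc : ∀ b, ∃ s, bl s = b ∧ y s = 1)
    (p : MvPolynomial σ k) :
    ∃ D : β →₀ ℕ, ∀ d, D ≤ d → ∃ P : MvPolynomial σ k, MHom bl d P ∧ aeval y P = aeval y p := by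
  classical
  induction p using MvPolynomial.induction_on with
  | C a =>
    refine ⟨0, fun d _ => ?_⟩
    obtain ⟨P, h1, h2⟩ := HOM_one (k := k) y hc d
    exact ⟨MvPolynomial.C a * P, h1.C_mul a, by rw [map_mul, h2, mul_one]⟩
  | add p q hp hq =>
    obtain ⟨D, hD⟩ := hp
    obtain ⟨E, hE⟩ := hq
    refine ⟨D + E, fun d hd => ?_⟩
    obtain ⟨P, h1, h2⟩ := hD d (le_trans (le_add_of_nonneg_right zero_le) hd)
    obtain ⟨Q, h3, h4⟩ := hE d (le_trans (le_add_of_nonneg_left zero_le) hd)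
    exact ⟨P + Q, h1.add h3, by rw [map_add, map_add, h2, h4]⟩
  | mul_X p n hp =>
    obtain ⟨D, hD⟩ := hp
    refine ⟨D + Finsupp.single (bl n) 1, fun d hd => ?_⟩
    have h0 : Finsupp.single (bl n) 1 ≤ d := le_trans (le_add_of_nonneg_left zero_le) hd
    obtain ⟨P, h1, h2⟩ := hD (d - Finsupp.single (bl n) 1) (le_tsub_of_add_le_right hd)
    refine ⟨P * MvPolynomial.X n, ?_, by rw [map_mul, map_mul, h2]⟩
    have h3 := h1.mul (MHom.X bl n)
    rwa [tsub_add_cancel_of_le h0] at h3

theorem isFF_of_one {σ β K : Type} [Field K] [Algebra k K] {bl : σ → β} (y : σ → K)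
    (hc : ∀ b, ∃ s, bl s = b ∧ y s = 1)
    (hgen : IntermediateField.adjoin k (Set.range y) = ⊤) : IsFF k bl y := by
  refine ⟨fun b => ?_, fun f => ?_⟩
  · obtain ⟨s, hs, hy⟩ := hc b
    exact ⟨s, hs, by rw [hy]; exact one_ne_zero⟩
  · have hf : f ∈ IntermediateField.adjoin k (Set.range y) := by rw [hgen]; trivial
    obtain ⟨p, q, hpq⟩ := (IntermediateField.mem_adjoin_range_iff k y f).1 hf
    by_cases hq : aeval y q = 0
    · obtain ⟨P, h1, h2⟩ := HOM_one (k := k) y hc 0
      refine ⟨0, 0, P, MHom.zero bl 0, h1, ?_, ?_⟩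
      · rw [h2]; exact one_ne_zero
      · rw [hpq, hq, div_zero, zero_mul, map_zero]
    · obtain ⟨D, hD⟩ := HOM_homog (k := k) y hc p
      obtain ⟨E, hE⟩ := HOM_homog (k := k) y hc q
      obtain ⟨P, h1, h2⟩ := hD (D + E) (le_add_of_nonneg_right zero_le)
      obtain ⟨Q, h3, h4⟩ := hE (D + E) (le_add_of_nonneg_left zero_le)
      refine ⟨D + E, P, Q, h1, h3, ?_, ?_⟩
      · rw [h4]; exact hq
      · rw [h2, h4, hpq]
        field_simp

end Pool.Agent.H56.KN
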