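import Pool.Agent.H56.KN.Ex
import Pool.Agent.H56.KN.SCL
import Pool.Agent.H56.KN.VAL
import Pool.Agent.H56.KN.HOM

/-!
Part FFS. The function fields, from `isFF_of_one`.
-/

set_option autoImplicit false

namespace Pool.Agent.H56.KN

open MvPolynomial

variable {k : Type} [Field k]

theorem isFF_X {K : Type} [Field K] [Algebra k K] {x y u a b w : K}
    (hD : Dat k x y u a b w) : IsFF k bX (yX x y u a b w) := by
  refine isFF_of_one _ ?_ ?_
  · intro bb
    rcases bb with _ | m
    · refine ⟨Sum.inr (Sum.inl (0, 0, 0)), rfl, ?_⟩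
      show cc x y u a b 0 0 * cc x y u a b 1 0 * cc x y u a b 3 0 = 1
      simp [cc]
    · refine ⟨Sum.inl (m, 0), rfl, ?_⟩
      show cc x y u a b m 0 = 1
      simp [cc]
  · rw [eq_top_iff, ← hD.gen, IntermediateField.adjoin_le_iff]
    have key : ∀ s, yX x y u a b w s ∈
        IntermediateField.adjoin k (Set.range (yX x y u a b w)) := fun s =>
      IntermediateField.subset_adjoin _ _ ⟨s, rfl⟩
    intro z hz
    simp only [Set.mem_insert_iff, Set.mem_singleton_iff] at hz
    rcases hz with rfl | rfl | rfl | rfl | rfl | rfl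
    · exact key (Sum.inl (0, 1))
    · exact key (Sum.inl (1, 1))
    · exact key (Sum.inl (2, 1))
    · exact key (Sum.inl (3, 1))
    · exact key (Sum.inl (4, 1))
    · have h := key (Sum.inr (Sum.inr (0, 0)))
      have h2 : yX x y u a b z (Sum.inr (Sum.inr (0, 0))) = z := by
        show z * cc x y u a b 2 0 * cc x y u a b 4 0 = z
        simp [cc]
      rwa [h2] at h

theorem isFF_Y {L : Type} [Field L] [Algebra k L] {x y u : L} (hD : DatY k x y u) :
    IsFF k bY (yY x y u) := by
  refine isFF_of_one _ ?_ ?_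
  · intro m
    refine ⟨(m, 0), rfl, ?_⟩
    show c3 x y u m 0 = 1
    simp [c3]
  · rw [eq_top_iff, ← hD.gen, IntermediateField.adjoin_le_iff]
    have key : ∀ s, yY x y u s ∈
        IntermediateField.adjoin k (Set.range (yY x y u)) := fun s =>
      IntermediateField.subset_adjoin _ _ ⟨s, rfl⟩
    intro z hz
    simp only [Set.mem_insert_iff, Set.mem_singleton_iff] at hz
    rcases hz with rfl | rfl | rfl
    · exact key (0, 1)
    · exact key (1, 1)
    · exact key (2, 1)

end Pool.Agent.H56.KN
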