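import Pool.Agent.H56.KN.Ex
import Pool.Agent.H56.KN.SCL
import Pool.Agent.H56.KN.VAL
import Pool.Agent.H56.KN.SMX
import Pool.Agent.H56.KN.ETX
import Pool.Agent.H56.KN.CHK
import Pool.Agent.H56.KN.NEX
import Pool.Agent.H56.KN.REL
import Pool.Agent.H56.KN.CLX

/-!
Part FIB. `2 K_X` is trivial near the fibres. Let `t` be a point of `Y` (here only a point of `(P¹)³` is used) with nonzero coordinates `t (m, i m)`, `m < 3`. Take `η = etX …`,
`h = lP (cc …) i` (it depends only on `i 0, i 1, i 2`; extend `i` arbitrarily). For `z` over `t`: `z (inl (m, i m)) ≠ 0` for `m < 3` (`SamePt` with `z ∘ jj`, and `IsPt`), choose `i 3, i 4` for `z`; `e = ± (lw …)⁻¹` by `etC_eq`, and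
`e² h = (lR …)⁻¹` by `chk_W`.
-/

set_option autoImplicit false

namespace Pool.Agent.H56.KN

open MvPolynomial

variable {k : Type} [Field k]

theorem FIB_pt {v : Sg → k} (hv : IsPt bX v) (m : Fin 5) : ∃ j, v (Sum.inl (m, j)) ≠ 0 := by
  obtain ⟨s, hs, hne⟩ := hv (some m)
  rcases s with ⟨m', j⟩ | s
  · simp only [bX, Option.some.injEq] at hs
    exact ⟨j, by rw [← hs]; exact hne⟩
  · simp [bX] at hs

theorem FIB_ne {v : Sg → k} (hv : IsPt bX v) {t : Tg → k} (hs : SamePt bY (v ∘ jj) t)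
    (m : Fin 3) (j : Fin 2) (hj : t (m, j) ≠ 0) : v (jj (m, j)) ≠ 0 := by
  obtain ⟨j', hj'⟩ := FIB_pt hv (Fin.castLE (by norm_num) m)
  intro h0
  have h1 : v (jj (m, j')) * t (m, j) = t (m, j') * v (jj (m, j)) :=
    hs (m, j') (m, j) rfl
  rw [h0, mul_zero] at h1
  exact mul_ne_zero hj' hj h1

theorem square_X {K : Type} [Field K] [Algebra k K] (h2 : (2 : k) ≠ 0) {x y u a b w : K}
    (hD : Dat k x y u a b w) (L : IntermediateField k K) (z : Tg → L) :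
    SquareTrivialOnFibres k bX (yX x y u a b w) 3 L bY z jj := by
  intro t ht
  obtain ⟨hx, hy, hu, ha, hb, hw, hg0, hg1, hr0, hr1⟩ := ne_X hD
  have hcc := SMX_cc (x := x) (y := y) (u := u) (a := a) (b := b) hx hy hu ha hb
  have hex : ∀ m : Fin 3, ∃ j, t (m, j) ≠ 0 := by
    intro m
    obtain ⟨⟨m', j⟩, hs, hne⟩ := ht.1 m
    exact ⟨j, by rw [← hs]; exact hne⟩
  choose i hi using hex
  have hlw : ∀ i' : Fin 5 → Fin 2, lw (cc x y u a b) w i' ≠ 0 := fun i' =>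
    div_ne_zero (mul_ne_zero (mul_ne_zero hw (hcc _ _)) (hcc _ _))
      (mul_ne_zero (mul_ne_zero (hcc _ _) (hcc _ _)) (hcc _ _))
  have hW : ∀ i' : Fin 5 → Fin 2, lw (cc x y u a b) w i' ^ 2 =
      lP (cc x y u a b) i' * lR (cc x y u a b) i' := fun i' =>
    chk_W _ _ (hrel_gen hD) i' (fun m => hcc _ _)
  have hPR : ∀ i' : Fin 5 → Fin 2, lP (cc x y u a b) i' ≠ 0 ∧ lR (cc x y u a b) i' ≠ 0 := by
    intro i'
    have h1 : lP (cc x y u a b) i' * lR (cc x y u a b) i' ≠ 0 := by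
      rw [← hW]; exact pow_ne_zero 2 (hlw i')
    exact ⟨left_ne_zero_of_mul h1, right_ne_zero_of_mul h1⟩
  refine ⟨etX k (g 0) (rho 0) x y u a b, lP (cc x y u a b) ![i 0, i 1, i 2, 0, 0],
    (hPR _).1, fun v hv hs => ?_⟩
  obtain ⟨j3, hj3⟩ := FIB_pt hv.1 3
  obtain ⟨j4, hj4⟩ := FIB_pt hv.1 4
  have hi' : ∀ m, v (Sum.inl (m, (![i 0, i 1, i 2, j3, j4] : Fin 5 → Fin 2) m)) ≠ 0 := by
    intro m
    fin_cases m
    · exact FIB_ne hv.1 hs 0 (i 0) (hi 0)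
    · exact FIB_ne hv.1 hs 1 (i 1) (hi 1)
    · exact FIB_ne hv.1 hs 2 (i 2) (hi 2)
    · exact hj3
    · exact hj4
  obtain ⟨_, hG, hR, hR'⟩ := loc_X h2 hD hv _ hi'
  have hl : lP (cc x y u a b) ![i 0, i 1, i 2, 0, 0] =
      lP (cc x y u a b) ![i 0, i 1, i 2, j3, j4] := rfl
  have hsq : ∀ e : K, e ^ 2 = ((lw (cc x y u a b) w ![i 0, i 1, i 2, j3, j4])⁻¹) ^ 2 →
      e ^ 2 * lP (cc x y u a b) ![i 0, i 1, i 2, 0, 0] =
        (lR (cc x y u a b) ![i 0, i 1, i 2, j3, j4])⁻¹ := by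
    intro e he
    rw [he, inv_pow, hW, hl]
    have h1 := (hPR ![i 0, i 1, i 2, j3, j4]).1
    have h2 := (hPR ![i 0, i 1, i 2, j3, j4]).2
    field_simp
  rcases etC_eq hD ![i 0, i 1, i 2, j3, j4] with h | h
  · refine ⟨(lw (cc x y u a b) w ![i 0, i 1, i 2, j3, j4])⁻¹, ?_, ?_, ?_⟩
    · rw [h] at hG; exact hG
    · rw [hsq _ rfl]; exact hR'
    · rw [hsq _ rfl, inv_inv]; exact hR
  · refine ⟨-(lw (cc x y u a b) w ![i 0, i 1, i 2, j3, j4])⁻¹, ?_, ?_, ?_⟩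
    · rw [h, smul_neg] at hG
      rw [neg_smul]; exact hG
    · rw [hsq _ (by rw [neg_sq])]; exact hR'
    · rw [hsq _ (by rw [neg_sq]), inv_inv]; exact hR

end Pool.Agent.H56.KN
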