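import Pool.Agent.H56.KN.Ex
import Pool.Agent.H56.KN.SCL
import Pool.Agent.H56.KN.VAL
import Pool.Agent.H56.KN.TLS
import Pool.Agent.H56.KN.MAX
import Pool.Agent.H56.KN.GEN

/-!
Part LY. A point of `Y`. `P = Bq cp x y`, `Q = Bq cq x y = u² P`. Three cases, see parts LP1, LP2, LP3 for the formulas (here
without `W` and `a`): `P* ≠ 0`, `us ≠ 0`: parameters `x`, `y`, and `u P` is a unit. `P* ≠ 0`, `us = 0`: `Q* = 0`, `N1`: parameters `x`, `u` (or `y`, `u`),
`(u P)⁻¹ dx∧dy = 2 (Q_y - u² P_y)⁻¹ dx∧du`. `P* = 0`: `Q* = 0`, `N3`: parameters `P`, `u`, `(u P)⁻¹ dx∧dy = 2 J⁻¹ dP∧du`.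
-/

set_option autoImplicit false

namespace Pool.Agent.H56.KN

open MvPolynomial

variable {k : Type} [Field k]

section LYaux

variable {K : Type} [Field K] [Algebra k K]

theorem LY_dB (c : Fin 2 → Fin 2 → ℤ) (x y : K) :
    KaehlerDifferential.D k K (Bq c x y) =
      (2 * x * ((c 1 0 : K) + (c 1 1 : K) * y ^ 2)) • KaehlerDifferential.D k K x +
      (2 * y * ((c 0 1 : K) + (c 1 1 : K) * x ^ 2)) • KaehlerDifferential.D k K y := by
  have h : ∀ n : ℤ, KaehlerDifferential.D k K ((n : K)) = 0 := fun n =>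
    Derivation.map_intCast (KaehlerDifferential.D k K) n
  unfold Bq
  rw [map_add, map_add, map_add, pow_two, pow_two]
  simp only [Derivation.leibniz, h, smul_add, smul_zero, add_zero, zero_add]
  module

theorem LY_rel (cp cq : Fin 2 → Fin 2 → ℤ) {x y u : K}
    (hQ : u ^ 2 * Bq cp x y = Bq cq x y) :
    (2 * u * Bq cp x y) • KaehlerDifferential.D k K u =
      KaehlerDifferential.D k K (Bq cq x y) - u ^ 2 • KaehlerDifferential.D k K (Bq cp x y) := by
  rw [← hQ, pow_two]
  simp only [Derivation.leibniz, smul_add]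
  module

theorem LY_dd {x y p q α β γ δ : K}
    (hx : KaehlerDifferential.D k K x = α • KaehlerDifferential.D k K p +
      β • KaehlerDifferential.D k K q)
    (hy : KaehlerDifferential.D k K y = γ • KaehlerDifferential.D k K p +
      δ • KaehlerDifferential.D k K q) :
    dd k ![x, y] = (α * δ - β * γ) • dd k ![p, q] := by
  unfold dd
  rw [ExteriorAlgebra.ιMulti_apply, ExteriorAlgebra.ιMulti_apply]
  simp only [List.ofFn_succ, List.ofFn_zero, List.prod_cons, List.prod_nil, mul_one,
    Matrix.cons_val_zero, Matrix.cons_val_succ]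
  rw [hx, hy]
  set P := KaehlerDifferential.D k K p
  set Q := KaehlerDifferential.D k K q
  have h1 : ExteriorAlgebra.ι K Q * ExteriorAlgebra.ι K P =
      - (ExteriorAlgebra.ι K P * ExteriorAlgebra.ι K Q) :=
    eq_neg_of_add_eq_zero_left (ExteriorAlgebra.ι_add_mul_swap Q P)
  rw [map_add, map_add, map_smul, map_smul, map_smul, map_smul, add_mul, mul_add, mul_add]
  simp only [smul_mul_smul_comm, ExteriorAlgebra.ι_sq_zero, h1, smul_zero, smul_neg]
  module

theorem LY_mapB (c : Fin 2 → Fin 2 → ℤ) (xs ys : k) :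
    algebraMap k K (Bq c xs ys) = Bq c (algebraMap k K xs) (algebraMap k K ys) := by
  simp [Bq]

theorem LY_mk {O : Subalgebra k K} {p q z : K} {ps qs zs : k} (e1 e2 f1 f2 : K) (he1 : e1 ∈ O)
    (he2 : e2 ∈ O) (hf1 : f1 ∈ O) (hf2 : f2 ∈ O)
    (h1 : z - algebraMap k K zs = e1 * (p - algebraMap k K ps) + e2 * (q - algebraMap k K qs))
    (h2 : KaehlerDifferential.D k K z = f1 • KaehlerDifferential.D k K p +
      f2 • KaehlerDifferential.D k K q) : Dep O ![p, q] ![ps, qs] z zs := by
  refine ⟨⟨![e1, e2], ?_, ?_⟩, ⟨![f1, f2], ?_, ?_⟩⟩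
  · intro j; fin_cases j
    · exact he1
    · exact he2
  · rw [Fin.sum_univ_two]; exact h1
  · intro j; fin_cases j
    · exact hf1
    · exact hf2
  · rw [Fin.sum_univ_two]; exact h2

theorem LY_fin {O : Subalgebra k K} {ev : O →ₐ[k] k} {x y u p q c : K} {xs ys us ps qs : k}
    (hAR : AR ![x, y, u] ![xs, ys, us] O ev) (cp : Fin 2 → Fin 2 → ℤ) (hp : Val O ev p ps)
    (hq : Val O ev q qs) (dx : Dep O ![p, q] ![ps, qs] x xs)
    (dy : Dep O ![p, q] ![ps, qs] y ys) (du : Dep O ![p, q] ![ps, qs] u us)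
    (hd : dd k ![x, y] = c • dd k ![p, q]) (hnz : dd k ![x, y] ≠ 0)
    (hun : Un O ((u * Bq cp x y)⁻¹ * c)) :
    Params O ev 2 ∧ IsGen k (O : Set K) 2 (thY k cp x y u) := by
  have hv : ∀ j, Val O ev (![p, q] j) (![ps, qs] j) := by
    intro j; fin_cases j
    · exact hp
    · exact hq
  have hdd : ∀ i, Dep O ![p, q] ![ps, qs] (![x, y, u] i) (![xs, ys, us] i) := by
    intro i; fin_cases i
    · exact dx
    · exact dy
    · exact du
  have h0 : dd k ![p, q] ≠ 0 := by
    intro h; rw [h, smul_zero] at hd; exact hnz hd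
  refine ⟨params_of_dep hAR _ _ hv hdd, ?_⟩
  have hg := (gen_of_dep hAR _ _ hv hdd h0).smul hun
  unfold thY
  rw [hd, smul_smul]
  exact hg

theorem LY_solve {N a1 a2 p q z : K} (hN : N ≠ 0) (h : N * z = a1 * p + a2 * q) :
    z = N⁻¹ * a1 * p + N⁻¹ * a2 * q := by
  calc z = N⁻¹ * (N * z) := (inv_mul_cancel_left₀ hN z).symm
    _ = _ := by rw [h]; ring

end LYaux

theorem loc_param_Y {K : Type} [Field K] [Algebra k K] {O : Subalgebra k K} {ev : O →ₐ[k] k}
    (h2 : (2 : k) ≠ 0) (cp cq : Fin 2 → Fin 2 → ℤ) {x y u : K} {xs ys us : k}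
    (hAR : AR ![x, y, u] ![xs, ys, us] O ev)
    (hQ : u ^ 2 * Bq cp x y = Bq cq x y) (hQs : us ^ 2 * Bq cp xs ys = Bq cq xs ys)
    (hP0 : Bq cp x y ≠ 0) (hu0 : u ≠ 0) (hnz : dd k ![x, y] ≠ 0)
    (N1 : Bq cq xs ys = 0 → (ys ≠ 0 ∧ (cq 0 1 : k) + (cq 1 1 : k) * xs ^ 2 ≠ 0) ∨
      (xs ≠ 0 ∧ (cq 1 0 : k) + (cq 1 1 : k) * ys ^ 2 ≠ 0))
    (N3 : Bq cp xs ys = 0 → Bq cq xs ys = 0 → xs ≠ 0 ∧ ys ≠ 0 ∧
      ((cp 1 0 : k) + (cp 1 1 : k) * ys ^ 2) * ((cq 0 1 : k) + (cq 1 1 : k) * xs ^ 2) -
      ((cp 0 1 : k) + (cp 1 1 : k) * xs ^ 2) * ((cq 1 0 : k) + (cq 1 1 : k) * ys ^ 2) ≠ 0) :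
    Params O ev 2 ∧ IsGen k (O : Set K) 2 (thY k cp x y u) := by
  have vx : Val O ev x xs := hAR.mem 0
  have vy : Val O ev y ys := hAR.mem 1
  have vu : Val O ev u us := hAR.mem 2
  have vP : Val O ev (Bq cp x y) (Bq cp xs ys) := Val.Bq cp vx vy
  have vQ : Val O ev (Bq cq x y) (Bq cq xs ys) := Val.Bq cq vx vy
  have kx := Val.const O ev xs
  have ky := Val.const O ev ys
  have ku := Val.const O ev us
  have kP := Val.const O ev (Bq cp xs ys)
  have kQ := Val.const O ev (Bq cq xs ys)
  have v2 : Val O ev (2 : K) (2 : k) := by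
    have := Val.int O ev 2
    simpa using this
  -- coefficients
  have vc : ∀ (n m : ℤ) {z : K} {zs : k}, Val O ev z zs →
      Val O ev ((n : K) + (m : K) * z ^ 2) ((n : k) + (m : k) * zs ^ 2) := fun n m z zs hz =>
    (Val.int O ev n).add ((Val.int O ev m).mul (hz.pow 2))
  have hDP := LY_dB (k := k) cp x y
  have hDQ := LY_dB (k := k) cq x y
  have hDu := LY_rel (k := k) cp cq hQ
  have hQS : algebraMap k K us ^ 2 * Bq cp (algebraMap k K xs) (algebraMap k K ys) =
      Bq cq (algebraMap k K xs) (algebraMap k K ys) := by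
    rw [← LY_mapB, ← LY_mapB, ← map_pow, ← map_mul, hQs]
  have one := O.one_mem
  have zero := O.zero_mem
  have self1 : ∀ {p q : K} {ps qs : k}, Dep O ![p, q] ![ps, qs] p ps := fun {p q ps qs} =>
    LY_mk 1 0 1 0 one zero one zero (by ring) (by module)
  have self2 : ∀ {p q : K} {ps qs : k}, Dep O ![p, q] ![ps, qs] q qs := fun {p q ps qs} =>
    LY_mk 0 1 0 1 zero one zero one (by ring) (by module)
  by_cases c1 : Bq cp xs ys = 0
  · -- case 3
    have hQ0 : Bq cq xs ys = 0 := by rw [← hQs, c1, mul_zero]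
    obtain ⟨nx, ny, hdet⟩ := N3 c1 hQ0
    have vA := vc (cp 1 0) (cp 1 1) vy
    have vB := vc (cp 0 1) (cp 1 1) kx
    have vC := vc (cq 1 0) (cq 1 1) vy
    have vD := vc (cq 0 1) (cq 1 1) kx
    have vB' := vc (cp 0 1) (cp 1 1) vx
    have vD' := vc (cq 0 1) (cq 1 1) vx
    set A := (cp 1 0 : K) + (cp 1 1 : K) * y ^ 2 with hA
    set B := (cp 0 1 : K) + (cp 1 1 : K) * algebraMap k K xs ^ 2 with hB
    set C := (cq 1 0 : K) + (cq 1 1 : K) * y ^ 2 with hC
    set D := (cq 0 1 : K) + (cq 1 1 : K) * algebraMap k K xs ^ 2 with hD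
    set B' := (cp 0 1 : K) + (cp 1 1 : K) * x ^ 2 with hB'
    set D' := (cq 0 1 : K) + (cq 1 1 : K) * x ^ 2 with hD'
    have vΔ := (vA.mul vD).sub (vB.mul vC)
    have uΔ := vΔ.un hAR.inv hdet
    have uX : Un O (x + algebraMap k K xs) := (vx.add kx).un hAR.inv (by
      intro h; rw [← two_mul] at h
      rcases mul_eq_zero.mp h with h | h
      · exact h2 h
      · exact nx h)
    have uY : Un O (y + algebraMap k K ys) := (vy.add ky).un hAR.inv (by
      intro h; rw [← two_mul] at h
      rcases mul_eq_zero.mp h with h | h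
      · exact h2 h
      · exact ny h)
    have vJ := (((v2.mul vx).mul vA).mul ((v2.mul vy).mul vD')).sub
      (((v2.mul vy).mul vB').mul ((v2.mul vx).mul vC))
    have uJ := vJ.un hAR.inv (by
      intro h
      have h4 : (2 * xs) * (2 * ys) * (((cp 1 0 : k) + (cp 1 1 : k) * ys ^ 2) *
          ((cq 0 1 : k) + (cq 1 1 : k) * xs ^ 2) -
          ((cp 0 1 : k) + (cp 1 1 : k) * xs ^ 2) * ((cq 1 0 : k) + (cq 1 1 : k) * ys ^ 2)) = 0 := by
        rw [← h]; ring
      exact (mul_ne_zero (mul_ne_zero (mul_ne_zero h2 nx) (mul_ne_zero h2 ny)) hdet) h4)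
    set J := 2 * x * A * (2 * y * D') - 2 * y * B' * (2 * x * C) with hJ
    have hPS : Bq cp (algebraMap k K xs) (algebraMap k K ys) = 0 := by
      rw [← LY_mapB, c1, map_zero]
    have hQS0 : Bq cq (algebraMap k K xs) (algebraMap k K ys) = 0 := by
      rw [← hQS, hPS, mul_zero]
    have e1 : (x ^ 2 - algebraMap k K xs ^ 2) * A + (y ^ 2 - algebraMap k K ys ^ 2) * B =
        Bq cp x y := by
      have : (x ^ 2 - algebraMap k K xs ^ 2) * A + (y ^ 2 - algebraMap k K ys ^ 2) * B =
        Bq cp x y - Bq cp (algebraMap k K xs) (algebraMap k K ys) := by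
        rw [hA, hB]; unfold Bq; ring
      rw [this, hPS, sub_zero]
    have e2 : (x ^ 2 - algebraMap k K xs ^ 2) * C + (y ^ 2 - algebraMap k K ys ^ 2) * D =
        u ^ 2 * Bq cp x y := by
      have : (x ^ 2 - algebraMap k K xs ^ 2) * C + (y ^ 2 - algebraMap k K ys ^ 2) * D =
        Bq cq x y - Bq cq (algebraMap k K xs) (algebraMap k K ys) := by
        rw [hC, hD]; unfold Bq; ring
      rw [this, hQS0, sub_zero, hQ]
    have mu2 : u ^ 2 ∈ O := O.pow_mem vu.mem 2
    have hDx : KaehlerDifferential.D k K x =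
        (J⁻¹ * (2 * y * D' - u ^ 2 * (2 * y * B'))) • KaehlerDifferential.D k K (Bq cp x y) +
        (J⁻¹ * (-(2 * u * Bq cp x y * (2 * y * B')))) • KaehlerDifferential.D k K u := by
      have h5 : J • KaehlerDifferential.D k K x =
          (2 * y * D' - u ^ 2 * (2 * y * B')) • KaehlerDifferential.D k K (Bq cp x y) -
          (2 * y * B') • ((2 * u * Bq cp x y) • KaehlerDifferential.D k K u) := by
        rw [hDu, hDQ, hDP, hJ]
        module
      calc KaehlerDifferential.D k K x = J⁻¹ • (J • KaehlerDifferential.D k K x) := by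
            rw [inv_smul_smul₀ uJ.2.2]
        _ = _ := by rw [h5]; module
    have hDy : KaehlerDifferential.D k K y =
        (J⁻¹ * (u ^ 2 * (2 * x * A) - 2 * x * C)) • KaehlerDifferential.D k K (Bq cp x y) +
        (J⁻¹ * (2 * u * Bq cp x y * (2 * x * A))) • KaehlerDifferential.D k K u := by
      have h5 : J • KaehlerDifferential.D k K y =
          (u ^ 2 * (2 * x * A) - 2 * x * C) • KaehlerDifferential.D k K (Bq cp x y) +
          (2 * x * A) • ((2 * u * Bq cp x y) • KaehlerDifferential.D k K u) := by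
        rw [hDu, hDQ, hDP, hJ]
        module
      calc KaehlerDifferential.D k K y = J⁻¹ • (J • KaehlerDifferential.D k K y) := by
            rw [inv_smul_smul₀ uJ.2.2]
        _ = _ := by rw [h5]; module
    have m2 : (2 : K) ∈ O := v2.mem
    have mA := vA.mem
    have mB := vB.mem
    have mC := vC.mem
    have mD := vD.mem
    have mB' := vB'.mem
    have mD' := vD'.mem
    have mx := vx.mem
    have my := vy.mem
    have mu := vu.mem
    have mP := vP.mem
    have dx : Dep O ![Bq cp x y, u] ![Bq cp xs ys, us] x xs := by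
      refine LY_mk ((x + algebraMap k K xs)⁻¹ * (A * D - B * C)⁻¹ * (D - u ^ 2 * B)) 0 _ _
        (O.mul_mem (O.mul_mem uX.2.1 uΔ.2.1) (O.sub_mem mD (O.mul_mem mu2 mB))) zero ?_ ?_ ?_ hDx
      · exact O.mul_mem uJ.2.1 (O.sub_mem (O.mul_mem (O.mul_mem m2 my) mD')
          (O.mul_mem mu2 (O.mul_mem (O.mul_mem m2 my) mB')))
      · exact O.mul_mem uJ.2.1 (O.neg_mem (O.mul_mem (O.mul_mem (O.mul_mem m2 mu) mP)
          (O.mul_mem (O.mul_mem m2 my) mB')))
      · rw [c1, map_zero, sub_zero, zero_mul, add_zero]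
        have h6 : ((x + algebraMap k K xs) * (A * D - B * C)) * (x - algebraMap k K xs) =
            (D - u ^ 2 * B) * Bq cp x y := by
          linear_combination D * e1 - B * e2
        have h7 := mul_ne_zero uX.2.2 uΔ.2.2
        rw [← mul_inv, mul_assoc, ← h6, inv_mul_cancel_left₀ h7]
    have dy : Dep O ![Bq cp x y, u] ![Bq cp xs ys, us] y ys := by
      refine LY_mk ((y + algebraMap k K ys)⁻¹ * (A * D - B * C)⁻¹ * (A * u ^ 2 - C)) 0 _ _
        (O.mul_mem (O.mul_mem uY.2.1 uΔ.2.1) (O.sub_mem (O.mul_mem mA mu2) mC)) zero ?_ ?_ ?_ hDy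
      · exact O.mul_mem uJ.2.1 (O.sub_mem (O.mul_mem mu2 (O.mul_mem (O.mul_mem m2 mx) mA))
          (O.mul_mem (O.mul_mem m2 mx) mC))
      · exact O.mul_mem uJ.2.1 (O.mul_mem (O.mul_mem (O.mul_mem m2 mu) mP)
          (O.mul_mem (O.mul_mem m2 mx) mA))
      · rw [c1, map_zero, sub_zero, zero_mul, add_zero]
        have h6 : ((y + algebraMap k K ys) * (A * D - B * C)) * (y - algebraMap k K ys) =
            (A * u ^ 2 - C) * Bq cp x y := by
          linear_combination A * e2 - C * e1
        have h7 := mul_ne_zero uY.2.2 uΔ.2.2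
        rw [← mul_inv, mul_assoc, ← h6, inv_mul_cancel_left₀ h7]
    have hd := LY_dd hDx hDy
    refine LY_fin hAR cp vP vu dx dy self2 hd hnz ?_
    have h8 : (u * Bq cp x y)⁻¹ * (J⁻¹ * (2 * y * D' - u ^ 2 * (2 * y * B')) *
        (J⁻¹ * (2 * u * Bq cp x y * (2 * x * A))) -
        J⁻¹ * -(2 * u * Bq cp x y * (2 * y * B')) *
        (J⁻¹ * (u ^ 2 * (2 * x * A) - 2 * x * C))) = 2 * J⁻¹ := by
      have hJ0 := uJ.2.2
      have h9 : J⁻¹ * (2 * y * D' - u ^ 2 * (2 * y * B')) *
        (J⁻¹ * (2 * u * Bq cp x y * (2 * x * A))) -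
        J⁻¹ * -(2 * u * Bq cp x y * (2 * y * B')) *
        (J⁻¹ * (u ^ 2 * (2 * x * A) - 2 * x * C)) = (u * Bq cp x y) * (2 * (J⁻¹ * (J⁻¹ * J))) := by
        conv_rhs => rw [hJ]
        rw [← hJ]
        ring
      rw [h9, inv_mul_cancel_left₀ (mul_ne_zero hu0 hP0), inv_mul_cancel₀ hJ0, mul_one]
    rw [h8]
    have u2 : Un O (2 : K) := v2.un hAR.inv h2
    exact u2.mul uJ.inv
  · have mu2 : u ^ 2 ∈ O := O.pow_mem vu.mem 2
    have m2 : (2 : K) ∈ O := v2.mem
    have mx := vx.mem
    have my := vy.mem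
    have mu := vu.mem
    have mP := vP.mem
    have u2 : Un O (2 : K) := v2.un hAR.inv h2
    have vA := vc (cp 1 0) (cp 1 1) vy
    have vB := vc (cp 0 1) (cp 1 1) kx
    have vC := vc (cq 1 0) (cq 1 1) vy
    have vD := vc (cq 0 1) (cq 1 1) kx
    have vB' := vc (cp 0 1) (cp 1 1) vx
    have vD' := vc (cq 0 1) (cq 1 1) vx
    have vC' := vc (cq 1 0) (cq 1 1) ky
    set A := (cp 1 0 : K) + (cp 1 1 : K) * y ^ 2 with hA
    set B := (cp 0 1 : K) + (cp 1 1 : K) * algebraMap k K xs ^ 2 with hB
    set C := (cq 1 0 : K) + (cq 1 1 : K) * y ^ 2 with hC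
    set D := (cq 0 1 : K) + (cq 1 1 : K) * algebraMap k K xs ^ 2 with hD
    set B' := (cp 0 1 : K) + (cp 1 1 : K) * x ^ 2 with hB'
    set D' := (cq 0 1 : K) + (cq 1 1 : K) * x ^ 2 with hD'
    set C' := (cq 1 0 : K) + (cq 1 1 : K) * algebraMap k K ys ^ 2 with hC'
    have mA := vA.mem
    have mB := vB.mem
    have mC := vC.mem
    have mD := vD.mem
    have mB' := vB'.mem
    have mD' := vD'.mem
    have mC' := vC'.mem
    have mxs := kx.mem
    have mys := ky.mem
    have mPs := kP.mem
    have mQs := kQ.mem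
    by_cases c2 : us = 0
    · have hQ0 : Bq cq xs ys = 0 := by rw [← hQs, c2]; ring
      have hQS0 : Bq cq (algebraMap k K xs) (algebraMap k K ys) = 0 := by
        rw [← LY_mapB, hQ0, map_zero]
      have huS : algebraMap k K us = 0 := by rw [c2, map_zero]
      rcases N1 hQ0 with ⟨ny, nD⟩ | ⟨nx, nC⟩
      · -- case 2a
        have vM := (vy.add ky).mul vD
        have uM := vM.un hAR.inv (by
          intro h; rw [← two_mul] at h
          exact mul_ne_zero (mul_ne_zero h2 ny) nD h)
        have vJ := ((v2.mul vy).mul vD').sub ((vu.pow 2).mul ((v2.mul vy).mul vB'))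
        have uJ := vJ.un hAR.inv (by
          intro h
          rw [c2] at h
          apply mul_ne_zero (mul_ne_zero h2 ny) nD
          rw [← h]; ring)
        set J := 2 * y * D' - u ^ 2 * (2 * y * B') with hJ
        have hDx : KaehlerDifferential.D k K x = (1 : K) • KaehlerDifferential.D k K x +
            (0 : K) • KaehlerDifferential.D k K u := by module
        have hDy : KaehlerDifferential.D k K y =
            (J⁻¹ * (u ^ 2 * (2 * x * A) - 2 * x * C)) • KaehlerDifferential.D k K x +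
            (J⁻¹ * (2 * u * Bq cp x y)) • KaehlerDifferential.D k K u := by
          have h5 : J • KaehlerDifferential.D k K y =
              (u ^ 2 * (2 * x * A) - 2 * x * C) • KaehlerDifferential.D k K x +
              (2 * u * Bq cp x y) • KaehlerDifferential.D k K u := by
            rw [hDu, hDQ, hDP, hJ]
            module
          calc KaehlerDifferential.D k K y = J⁻¹ • (J • KaehlerDifferential.D k K y) := by
                rw [inv_smul_smul₀ uJ.2.2]
            _ = _ := by rw [h5]; module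
        have dy : Dep O ![x, u] ![xs, us] y ys := by
          refine LY_mk (((y + algebraMap k K ys) * D)⁻¹ * (-((x + algebraMap k K xs) * C)))
            (((y + algebraMap k K ys) * D)⁻¹ * (u * Bq cp x y)) _ _
            (O.mul_mem uM.2.1 (O.neg_mem (O.mul_mem (O.add_mem mx mxs) mC)))
            (O.mul_mem uM.2.1 (O.mul_mem mu mP)) ?_ ?_ ?_ hDy
          · exact O.mul_mem uJ.2.1 (O.sub_mem (O.mul_mem mu2 (O.mul_mem (O.mul_mem m2 mx) mA))
              (O.mul_mem (O.mul_mem m2 mx) mC))
          · exact O.mul_mem uJ.2.1 (O.mul_mem (O.mul_mem m2 mu) mP)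
          · rw [huS, sub_zero]
            have h6 : ((y + algebraMap k K ys) * D) * (y - algebraMap k K ys) =
                -((x + algebraMap k K xs) * C) * (x - algebraMap k K xs) +
                u * Bq cp x y * u := by
              have h7 : (x ^ 2 - algebraMap k K xs ^ 2) * C +
                  (y ^ 2 - algebraMap k K ys ^ 2) * D =
                  Bq cq x y - Bq cq (algebraMap k K xs) (algebraMap k K ys) := by
                rw [hC, hD]; unfold Bq; ring
              rw [hQS0, sub_zero, ← hQ] at h7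
              linear_combination h7
            exact LY_solve uM.2.2 h6
        have hd := LY_dd hDx hDy
        refine LY_fin hAR cp vx vu self1 dy self2 hd hnz ?_
        have h8 : (u * Bq cp x y)⁻¹ * (1 * (J⁻¹ * (2 * u * Bq cp x y)) -
            0 * (J⁻¹ * (u ^ 2 * (2 * x * A) - 2 * x * C))) = 2 * J⁻¹ := by
          have h9 : 1 * (J⁻¹ * (2 * u * Bq cp x y)) -
            0 * (J⁻¹ * (u ^ 2 * (2 * x * A) - 2 * x * C)) = (u * Bq cp x y) * (2 * J⁻¹) := by ring
          rw [h9, inv_mul_cancel_left₀ (mul_ne_zero hu0 hP0)]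
        rw [h8]
        exact u2.mul uJ.inv
      · -- case 2b
        have vM := (vx.add kx).mul vC'
        have uM := vM.un hAR.inv (by
          intro h; rw [← two_mul] at h
          exact mul_ne_zero (mul_ne_zero h2 nx) nC h)
        have vJ := ((v2.mul vx).mul vC).sub ((vu.pow 2).mul ((v2.mul vx).mul vA))
        have uJ := vJ.un hAR.inv (by
          intro h
          rw [c2] at h
          apply mul_ne_zero (mul_ne_zero h2 nx) nC
          rw [← h]; ring)
        set J := 2 * x * C - u ^ 2 * (2 * x * A) with hJ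
        have hDy : KaehlerDifferential.D k K y = (0 : K) • KaehlerDifferential.D k K u +
            (1 : K) • KaehlerDifferential.D k K y := by module
        have hDx : KaehlerDifferential.D k K x =
            (J⁻¹ * (2 * u * Bq cp x y)) • KaehlerDifferential.D k K u +
            (J⁻¹ * (u ^ 2 * (2 * y * B') - 2 * y * D')) • KaehlerDifferential.D k K y := by
          have h5 : J • KaehlerDifferential.D k K x =
              (2 * u * Bq cp x y) • KaehlerDifferential.D k K u +
              (u ^ 2 * (2 * y * B') - 2 * y * D') • KaehlerDifferential.D k K y := by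
            rw [hDu, hDQ, hDP, hJ]
            module
          calc KaehlerDifferential.D k K x = J⁻¹ • (J • KaehlerDifferential.D k K x) := by
                rw [inv_smul_smul₀ uJ.2.2]
            _ = _ := by rw [h5]; module
        have dx : Dep O ![u, y] ![us, ys] x xs := by
          refine LY_mk (((x + algebraMap k K xs) * C')⁻¹ * (u * Bq cp x y))
            (((x + algebraMap k K xs) * C')⁻¹ * (-((y + algebraMap k K ys) * D'))) _ _
            (O.mul_mem uM.2.1 (O.mul_mem mu mP))
            (O.mul_mem uM.2.1 (O.neg_mem (O.mul_mem (O.add_mem my mys) mD'))) ?_ ?_ ?_ hDx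
          · exact O.mul_mem uJ.2.1 (O.mul_mem (O.mul_mem m2 mu) mP)
          · exact O.mul_mem uJ.2.1 (O.sub_mem (O.mul_mem mu2 (O.mul_mem (O.mul_mem m2 my) mB'))
              (O.mul_mem (O.mul_mem m2 my) mD'))
          · rw [huS, sub_zero]
            have h6 : ((x + algebraMap k K xs) * C') * (x - algebraMap k K xs) =
                u * Bq cp x y * u +
                -((y + algebraMap k K ys) * D') * (y - algebraMap k K ys) := by
              have h7 : (x ^ 2 - algebraMap k K xs ^ 2) * C' +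
                  (y ^ 2 - algebraMap k K ys ^ 2) * D' =
                  Bq cq x y - Bq cq (algebraMap k K xs) (algebraMap k K ys) := by
                rw [hC', hD']; unfold Bq; ring
              rw [hQS0, sub_zero, ← hQ] at h7
              linear_combination h7
            exact LY_solve uM.2.2 h6
        have hd := LY_dd hDx hDy
        refine LY_fin hAR cp vu vy dx self2 self1 hd hnz ?_
        have h8 : (u * Bq cp x y)⁻¹ * (J⁻¹ * (2 * u * Bq cp x y) * 1 -
            J⁻¹ * (u ^ 2 * (2 * y * B') - 2 * y * D') * 0) = 2 * J⁻¹ := by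
          have h9 : J⁻¹ * (2 * u * Bq cp x y) * 1 -
            J⁻¹ * (u ^ 2 * (2 * y * B') - 2 * y * D') * 0 = (u * Bq cp x y) * (2 * J⁻¹) := by ring
          rw [h9, inv_mul_cancel_left₀ (mul_ne_zero hu0 hP0)]
        rw [h8]
        exact u2.mul uJ.inv
    · -- case 1
      have vN := ((vu.add ku).mul vP).mul kP
      have uN := vN.un hAR.inv (by
        intro h; rw [← two_mul] at h
        exact mul_ne_zero (mul_ne_zero (mul_ne_zero h2 c2) c1) c1 h)
      have vJ := (v2.mul vu).mul vP
      have uJ := vJ.un hAR.inv (mul_ne_zero (mul_ne_zero h2 c2) c1)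
      set J := 2 * u * Bq cp x y with hJ
      have hDux : KaehlerDifferential.D k K u =
          (J⁻¹ * (2 * x * C - u ^ 2 * (2 * x * A))) • KaehlerDifferential.D k K x +
          (J⁻¹ * (2 * y * D' - u ^ 2 * (2 * y * B'))) • KaehlerDifferential.D k K y := by
        have h5 : J • KaehlerDifferential.D k K u =
            (2 * x * C - u ^ 2 * (2 * x * A)) • KaehlerDifferential.D k K x +
            (2 * y * D' - u ^ 2 * (2 * y * B')) • KaehlerDifferential.D k K y := by
          rw [hDu, hDQ, hDP]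
          module
        calc KaehlerDifferential.D k K u = J⁻¹ • (J • KaehlerDifferential.D k K u) := by
              rw [inv_smul_smul₀ uJ.2.2]
          _ = _ := by rw [h5]; module
      have du : Dep O ![x, y] ![xs, ys] u us := by
        refine LY_mk (((u + algebraMap k K us) * Bq cp x y * algebraMap k K (Bq cp xs ys))⁻¹ *
            ((x + algebraMap k K xs) * (C * algebraMap k K (Bq cp xs ys) -
              algebraMap k K (Bq cq xs ys) * A)))
          (((u + algebraMap k K us) * Bq cp x y * algebraMap k K (Bq cp xs ys))⁻¹ *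
            ((y + algebraMap k K ys) * (D * algebraMap k K (Bq cp xs ys) -
              algebraMap k K (Bq cq xs ys) * B))) _ _
          (O.mul_mem uN.2.1 (O.mul_mem (O.add_mem mx mxs)
            (O.sub_mem (O.mul_mem mC mPs) (O.mul_mem mQs mA))))
          (O.mul_mem uN.2.1 (O.mul_mem (O.add_mem my mys)
            (O.sub_mem (O.mul_mem mD mPs) (O.mul_mem mQs mB)))) ?_ ?_ ?_ hDux
        · exact O.mul_mem uJ.2.1 (O.sub_mem (O.mul_mem (O.mul_mem m2 mx) mC)
            (O.mul_mem mu2 (O.mul_mem (O.mul_mem m2 mx) mA)))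
        · exact O.mul_mem uJ.2.1 (O.sub_mem (O.mul_mem (O.mul_mem m2 my) mD')
            (O.mul_mem mu2 (O.mul_mem (O.mul_mem m2 my) mB')))
        · have h6 : ((u + algebraMap k K us) * Bq cp x y * algebraMap k K (Bq cp xs ys)) *
              (u - algebraMap k K us) =
              ((x + algebraMap k K xs) * (C * algebraMap k K (Bq cp xs ys) -
                algebraMap k K (Bq cq xs ys) * A)) * (x - algebraMap k K xs) +
              ((y + algebraMap k K ys) * (D * algebraMap k K (Bq cp xs ys) -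
                algebraMap k K (Bq cq xs ys) * B)) * (y - algebraMap k K ys) := by
            have h7 : (x ^ 2 - algebraMap k K xs ^ 2) * C +
                (y ^ 2 - algebraMap k K ys ^ 2) * D =
                Bq cq x y - algebraMap k K (Bq cq xs ys) := by
              rw [hC, hD, LY_mapB]; unfold Bq; ring
            have h8 : (x ^ 2 - algebraMap k K xs ^ 2) * A +
                (y ^ 2 - algebraMap k K ys ^ 2) * B =
                Bq cp x y - algebraMap k K (Bq cp xs ys) := by
              rw [hA, hB, LY_mapB]; unfold Bq; ring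
            have h9 : algebraMap k K us ^ 2 * algebraMap k K (Bq cp xs ys) =
                algebraMap k K (Bq cq xs ys) := by
              rw [← map_pow, ← map_mul, hQs]
            linear_combination (algebraMap k K (Bq cp xs ys)) * hQ - (Bq cp x y) * h9 -
              (algebraMap k K (Bq cp xs ys)) * h7 + (algebraMap k K (Bq cq xs ys)) * h8
          exact LY_solve uN.2.2 h6
      have hd : dd k ![x, y] = (1 : K) • dd k ![x, y] := by rw [one_smul]
      refine LY_fin hAR cp vx vy self1 self2 du hd hnz ?_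
      rw [mul_one]
      exact ((vu.mul vP).un hAR.inv (mul_ne_zero c2 c1)).inv

end Pool.Agent.H56.KN
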