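import Pool.Agent.H56.KN.Ex
import Pool.Agent.H56.KN.SCL
import Pool.Agent.H56.KN.VAL

/-!
Part RES. The subfield `L = k(x, y, u)`. Only `ind` (restrict the index set: `AlgebraicIndependent.comp`, and reflect along the injection `L → K`) and `gen` (a subfield of `L` containing
the generators is everything; `IntermediateField.adjoin` and `lift`/`restrict`).
-/

set_option autoImplicit false

namespace Pool.Agent.H56.KN

open MvPolynomial

variable {k : Type} [Field k]

/-- a subfield generated by elements is generated by them over itself -/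
theorem RES_gen {K : Type} [Field K] [Algebra k K] (L : IntermediateField k K) (S : Set L)
    (h : IntermediateField.adjoin k (Subtype.val '' S) = L) :
    IntermediateField.adjoin k S = ⊤ := by
  apply IntermediateField.lift_injective L
  rw [IntermediateField.lift_adjoin, IntermediateField.lift_top]
  exact h

theorem res_Y {K : Type} [Field K] [Algebra k K] {x y u a b w : K}
    (hD : Dat k x y u a b w) :
    ∃ x' y' u' : ↥(IntermediateField.adjoin k {x, y, u}), (x' : K) = x ∧ (y' : K) = y ∧
      (u' : K) = u ∧ DatY k x' y' u' := by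
  have hx : x ∈ IntermediateField.adjoin k {x, y, u} :=
    IntermediateField.subset_adjoin _ _ (by simp)
  have hy : y ∈ IntermediateField.adjoin k {x, y, u} :=
    IntermediateField.subset_adjoin _ _ (by simp)
  have hu : u ∈ IntermediateField.adjoin k {x, y, u} :=
    IntermediateField.subset_adjoin _ _ (by simp)
  refine ⟨⟨x, hx⟩, ⟨y, hy⟩, ⟨u, hu⟩, rfl, rfl, rfl, ?_, ?_, ?_⟩
  · apply AlgebraicIndependent.of_comp (IntermediateField.adjoin k {x, y, u}).val
    have h := hD.ind.comp (![0, 1] : Fin 2 → Fin 3) (by decide)
    have e : (⇑(IntermediateField.adjoin k {x, y, u}).val ∘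
        (![⟨x, hx⟩, ⟨y, hy⟩] : Fin 2 → ↥(IntermediateField.adjoin k {x, y, u}))) =
        (![x, y, a] : Fin 3 → K) ∘ (![0, 1] : Fin 2 → Fin 3) := by
      funext i
      fin_cases i <;> rfl
    rw [e]
    exact h
  · apply Subtype.ext
    have h := hD.hu
    unfold Bq at h ⊢
    push_cast
    exact h
  · apply RES_gen
    congr 1
    ext z
    simp only [Set.mem_image, Set.mem_insert_iff, Set.mem_singleton_iff]
    constructor
    · rintro ⟨t, rfl | rfl | rfl, rfl⟩ <;> simp
    · rintro (rfl | rfl | rfl)
      · exact ⟨_, Or.inl rfl, rfl⟩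
      · exact ⟨_, Or.inr (Or.inl rfl), rfl⟩
      · exact ⟨_, Or.inr (Or.inr rfl), rfl⟩

end Pool.Agent.H56.KN
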