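import Pool.Agent.H56.KN.Ex
import Pool.Agent.H56.KN.SCL
import Pool.Agent.H56.KN.VAL
import Pool.Agent.H56.KN.NEX
import Pool.Agent.H56.KN.NZX

/-!
Part NZY. `dx ∧ dy ≠ 0` for `L / k` (`L = k(x, y)(u)`, `u² ∈ k(x, y)`). See part NZX.
-/

set_option autoImplicit false

namespace Pool.Agent.H56.KN

open MvPolynomial

variable {k : Type} [Field k]

theorem nz_Y {L : Type} [Field L] [Algebra k L] (h2 : (2 : k) ≠ 0) {x y u : L}
    (hD : DatY k x y u) : dd k ![x, y] ≠ 0 := by
  obtain ⟨hx, hy, hu, hg0, hg1⟩ := ne_Y hD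
  have mx : x ∈ IntermediateField.adjoin k (Set.range ![x, y]) :=
    IntermediateField.subset_adjoin k _ ⟨0, rfl⟩
  have my : y ∈ IntermediateField.adjoin k (Set.range ![x, y]) :=
    IntermediateField.subset_adjoin k _ ⟨1, rfl⟩
  have mB : ∀ c : Fin 2 → Fin 2 → ℤ, Bq c x y ∈
      IntermediateField.adjoin k (Set.range ![x, y]) := by
    intro c
    unfold Bq
    exact add_mem (add_mem (add_mem (intCast_mem _ _) (mul_mem (intCast_mem _ _) (pow_mem mx 2)))
      (mul_mem (intCast_mem _ _) (pow_mem my 2)))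
      (mul_mem (mul_mem (intCast_mem _ _) (pow_mem mx 2)) (pow_mem my 2))
  refine NZX_gen h2 _ hD.ind _ hD.gen ?_
  intro z hz
  simp only [Set.mem_insert_iff, Set.mem_singleton_iff] at hz
  rcases hz with rfl | rfl | rfl
  · exact Or.inl mx
  · exact Or.inl my
  · refine Or.inr ⟨hu, ?_⟩
    have : z ^ 2 = Bq (g 1) x y / Bq (g 0) x y := by
      rw [eq_div_iff hg0]; exact hD.hu
    rw [this]
    exact div_mem (mB _) (mB _)

end Pool.Agent.H56.KN
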