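import Pool.Agent.H56.KN.Ex
import Pool.Agent.H56.KN.SCL
import Pool.Agent.H56.KN.VAL
import Pool.Agent.H56.KN.AFF
import Pool.Agent.H56.KN.TLS
import Pool.Agent.H56.KN.LY
import Pool.Agent.H56.KN.NUM
import Pool.Agent.H56.KN.CHK
import Pool.Agent.H56.KN.CLY
import Pool.Agent.H56.KN.NEX
import Pool.Agent.H56.KN.NZY
import Pool.Agent.H56.KN.ETY

/-!
Part SMY. The local rings of `Y`, see part SMX; `s0 m = (m, i m)`, `N = Fin 3`.
-/

set_option autoImplicit false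

namespace Pool.Agent.H56.KN

open MvPolynomial

variable {k : Type} [Field k]

theorem SMY_smooth {σ β K : Type} [Field K] [Algebra k K] {bl : σ → β} {y : σ → K} {x : σ → k}
    {O : Subalgebra k K} {ev : O →ₐ[k] k} {n : ℕ} (hO : LR bl y x O ev) (hP : Params O ev n) :
    SmoothAt bl y n x := by
  obtain ⟨v, hv, hgen⟩ := hP
  refine ⟨v, fun j => ?_, fun f hf => ?_⟩
  · obtain ⟨h, h'⟩ := hv j
    exact (hO.zero ⟨v j, h⟩).1 h'
  · have hfL : f ∈ Loc bl y x := by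
      obtain ⟨d, P, Q, hP, hQ, hQx, _, h⟩ := hf
      exact ⟨d, P, Q, hP, hQ, hQx, h⟩
    have hfO : f ∈ O := (hO.mem f).2 hfL
    obtain ⟨e, he, hsum⟩ := hgen ⟨f, hfO⟩ ((hO.zero ⟨f, hfO⟩).2 hf)
    exact ⟨e, fun j => (hO.mem _).1 (he j), hsum⟩

theorem SMY_fin2 (i j : Fin 2) (h : j ≠ i) : j = i + 1 := by
  fin_cases i <;> fin_cases j <;> simp_all

theorem SMY_Bh {F : Type} [Field F] (c : Fin 2 → Fin 2 → ℤ) (X Y : Fin 2 → F) (i j : Fin 2)
    (hX : X i ≠ 0) (hY : Y j ≠ 0) :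
    Bh c X Y = X i ^ 2 * Y j ^ 2 * Bq (sh c i j) (X (i + 1) / X i) (Y (j + 1) / Y j) := by
  fin_cases i <;> fin_cases j <;>
    simp [Bh, Bq, sh, Fin.sum_univ_two] at hX hY ⊢ <;> field_simp <;> ring

theorem SMY_Bh3 {F : Type} [Field F] (c : Fin 2 → Fin 2 → ℤ) (x y u : F) :
    Bh c (c3 x y u 0) (c3 x y u 1) = Bq c x y := by
  simp [Bh, Bq, c3, Fin.sum_univ_two]
  ring

/-- the polynomials -/
noncomputable def SMY_p (k : Type) [Field k] (i : Fin 3 → Fin 2) (s : Tg) :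
    MvPolynomial (Fin 3) k := if s.2 = i s.1 then 1 else X s.1

theorem SMY_loc {F : Type} [Field F] (i : Fin 3 → Fin 2) (c : Fin 3 → Fin 2 → F) :
    (fun n : Fin 3 => c n (i n + 1) / c n (i n)) = ![lc c i 0, lc c i 1, lc c i 2] := by
  funext n
  fin_cases n <;> rfl

theorem loc_Y {L : Type} [Field L] [Algebra k L] (h2 : (2 : k) ≠ 0) {x y u : L}
    (hD : DatY k x y u) {z : Tg → k} (hz : z ∈ Var k bY (yY x y u)) (i : Fin 3 → Fin 2)
    (hi : ∀ m, z (m, i m) ≠ 0) : SmoothAt bY (yY x y u) 2 z ∧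
      IsGen k (Loc bY (yY x y u) z) 2 (thC k (c3 x y u) i) := by
  obtain ⟨hx, hy, hu, hg0, hg1⟩ := ne_Y hD
  obtain ⟨hne, hrel⟩ := cls_Y hD hz
  have hcc : ∀ m j, c3 x y u m j ≠ 0 := by
    intro m j
    fin_cases m <;> fin_cases j <;> simp [c3, hx, hy, hu]
  have hp : ∀ s : Tg, yY x y u s / yY x y u (bY s, i (bY s)) =
      aeval (fun n : Fin 3 => yY x y u (n, i n + 1) / yY x y u (bY (n, i n + 1), i (bY (n, i n + 1))))
        (SMY_p k i s) := by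
    rintro ⟨m, j⟩
    show c3 x y u m j / c3 x y u m (i m) = _
    unfold SMY_p
    by_cases h : j = i m
    · rw [if_pos h, map_one, h, div_self (hcc _ _)]
    · rw [if_neg h, aeval_X, SMY_fin2 (i m) j h]; rfl
  obtain ⟨O, ev, hO, hA⟩ := exists_AR hz (fun m => (m, i m)) (fun m => rfl) hi
    (fun n : Fin 3 => (n, i n + 1)) (SMY_p k i) hp
  have e1 : (fun n : Fin 3 => yY x y u (n, i n + 1) / yY x y u (bY (n, i n + 1), i (bY (n, i n + 1))))
      = ![lc (c3 x y u) i 0, lc (c3 x y u) i 1, lc (c3 x y u) i 2] := SMY_loc i (c3 x y u)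
  have e2 : (fun n : Fin 3 => z (n, i n + 1) / z (bY (n, i n + 1), i (bY (n, i n + 1))))
      = ![lc (fun m j => z (m, j)) i 0, lc (fun m j => z (m, j)) i 1,
        lc (fun m j => z (m, j)) i 2] := SMY_loc i (fun m j => z (m, j))
  have hA' : AR ![lc (c3 x y u) i 0, lc (c3 x y u) i 1, lc (c3 x y u) i 2]
      ![lc (fun m j => z (m, j)) i 0, lc (fun m j => z (m, j)) i 1,
        lc (fun m j => z (m, j)) i 2] O ev := by
    rw [← e1, ← e2]; exact hA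
  have hgen : c3 x y u 2 0 ^ 2 * Bh (g 1) (c3 x y u 0) (c3 x y u 1) =
      c3 x y u 2 1 ^ 2 * Bh (g 0) (c3 x y u 0) (c3 x y u 1) := by
    rw [SMY_Bh3, SMY_Bh3, ← hD.hu]
    simp [c3]
  have hg : ∀ p, Bq (g p) x y ≠ 0 := by
    intro p; fin_cases p
    · exact hg0
    · exact hg1
  have hP0 : Bq (sh (g (i 2)) (i 0) (i 1)) (lc (c3 x y u) i 0) (lc (c3 x y u) i 1) ≠ 0 := by
    intro h
    have := SMY_Bh (g (i 2)) (c3 x y u 0) (c3 x y u 1) (i 0) (i 1) (hcc _ _) (hcc _ _)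
    rw [SMY_Bh3] at this
    apply hg (i 2)
    rw [this]
    exact mul_eq_zero_of_right _ h
  have hnz : dd k ![lc (c3 x y u) i 0, lc (c3 x y u) i 1] ≠ 0 := by
    intro h0
    have e1 : thC k (c3 x y u) i = 0 := by
      unfold thC thY
      rw [h0, smul_zero]
    have e2 : thY k (g 0) x y u = 0 := by
      rcases thC_eq hD i with h | h
      · rw [← h, e1]
      · rw [e1] at h
        exact neg_eq_zero.1 h.symm
    unfold thY at e2
    rcases smul_eq_zero.1 e2 with h | h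
    · rw [inv_eq_zero] at h
      exact mul_ne_zero hu hg0 h
    · exact nz_Y h2 hD h
  obtain ⟨hP, hG⟩ := loc_param_Y h2 (sh (g (i 2)) (i 0) (i 1)) (sh (g (i 2 + 1)) (i 0) (i 1)) hA'
    (chk_P _ _ _ hgen (i 0) (i 1) (i 2) (hcc _ _) (hcc _ _) (hcc _ _))
    (chk_P _ _ (fun j => z (2, j)) hrel (i 0) (i 1) (i 2) (hi 0) (hi 1) (hi 2))
    hP0 (div_ne_zero (hcc _ _) (hcc _ _)) hnz
    (num1 h2 (i 2 + 1) (i 0) (i 1) _ _) (num3 h2 (i 2) (i 0) (i 1) _ _)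
  have hOL : (O : Set L) = Loc bY (yY x y u) z := Set.ext hO.mem
  refine ⟨SMY_smooth hO hP, ?_⟩
  rw [← hOL]
  exact hG

end Pool.Agent.H56.KN
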