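import Pool.Agent.H56.KN.Ex
import Pool.Agent.H56.KN.SCL
import Pool.Agent.H56.KN.VAL

/-!
Part TRD. Transcendence degrees: `x, y, a` (`x, y`) is a transcendence basis: `K` is algebraic over `k(x, y, a)` since `u², b², w²` are in it (`g₀ ≠ 0`, `1 + a² ≠ 0`).
-/

set_option autoImplicit false

namespace Pool.Agent.H56.KN

open MvPolynomial

variable {k : Type} [Field k]

theorem TRD_ne {n : ℕ} {K : Type} [Field K] [Algebra k K] {v : Fin n → K}
    (hv : AlgebraicIndependent k v) (P : MvPolynomial (Fin n) k)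
    (h : aeval (0 : Fin n → k) P ≠ 0) : aeval v P ≠ 0 := by
  intro h0
  apply h
  have h1 : P = 0 := hv (by rw [h0, map_zero])
  rw [h1, map_zero]

theorem TRD_Bq {n : ℕ} {K : Type} [Field K] [Algebra k K] {v : Fin (n + 2) → K}
    (hv : AlgebraicIndependent k v) : Bq (g 0) (v 0) (v 1) ≠ 0 := by
  have h1 := TRD_ne hv (Bq (g 0) (X 0) (X 1)) (by simp [Bq, g])
  have h2 : aeval v (Bq (g 0) (X 0) (X 1) : MvPolynomial (Fin (n + 2)) k) =
      Bq (g 0) (v 0) (v 1) := by
    simp [Bq]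
  rwa [h2] at h1

theorem trdeg_X {K : Type} [Field K] [Algebra k K] {x y u a b w : K}
    (hD : Dat k x y u a b w) : Algebra.trdeg k K = ((3 : ℕ) : Cardinal) := by
  have hB : Bq (g 0) x y ≠ 0 := TRD_Bq (n := 1) hD.ind
  have hA : 1 + a ^ 2 ≠ 0 := by
    have h1 := TRD_ne hD.ind (1 + X 2 ^ 2) (by simp)
    have h2 : aeval ![x, y, a] (1 + X 2 ^ 2 : MvPolynomial (Fin 3) k) = 1 + a ^ 2 := by
      simp
    rwa [h2] at h1
  set S := Algebra.adjoin k (Set.range ![x, y, a]) with hS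
  have hmem : ∀ z, z ∈ S → IsAlgebraic S z := fun z hz =>
    isAlgebraic_algebraMap (R := S) (A := K) (⟨z, hz⟩ : S)
  have hint : ∀ c : ℤ, ((c : K)) ∈ S := fun c => intCast_mem S c
  have hx : x ∈ S := Algebra.subset_adjoin ⟨0, rfl⟩
  have hy : y ∈ S := Algebra.subset_adjoin ⟨1, rfl⟩
  have ha : a ∈ S := Algebra.subset_adjoin ⟨2, rfl⟩
  have hBm : ∀ p, Bq (g p) x y ∈ S := by
    intro p
    unfold Bq
    exact S.add_mem (S.add_mem (S.add_mem (hint _) (S.mul_mem (hint _) (S.pow_mem hx 2)))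
      (S.mul_mem (hint _) (S.pow_mem hy 2)))
      (S.mul_mem (S.mul_mem (hint _) (S.pow_mem hx 2)) (S.pow_mem hy 2))
  have hAm : 1 + a ^ 2 ∈ S := S.add_mem S.one_mem (S.pow_mem ha 2)
  have hAm' : 1 - a ^ 2 ∈ S := S.sub_mem S.one_mem (S.pow_mem ha 2)
  have halg : ∀ z : K, IsAlgebraic S z := by
    intro z
    have hz : z ∈ IntermediateField.adjoin k {x, y, u, a, b, w} := by rw [hD.gen]; trivial
    induction hz using IntermediateField.adjoin_induction with
    | mem z hz =>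
      simp only [Set.mem_insert_iff, Set.mem_singleton_iff] at hz
      rcases hz with rfl | rfl | rfl | rfl | rfl | rfl
      · exact hmem _ hx
      · exact hmem _ hy
      · refine IsAlgebraic.of_pow (n := 2) (by norm_num) ?_
        have h1 : z ^ 2 = Bq (g 1) x y * (Bq (g 0) x y)⁻¹ := by
          rw [← hD.hu, mul_assoc, mul_inv_cancel₀ hB, mul_one]
        rw [h1]
        exact (hmem _ (hBm 1)).mul (hmem _ (hBm 0)).inv
      · exact hmem _ ha
      · refine IsAlgebraic.of_pow (n := 2) (by norm_num) ?_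
        have h1 : z ^ 2 = (1 - a ^ 2) * (1 + a ^ 2)⁻¹ := by
          rw [← hD.hb, mul_assoc, mul_inv_cancel₀ hA, mul_one]
        rw [h1]
        exact (hmem _ hAm').mul (hmem _ hAm).inv
      · refine IsAlgebraic.of_pow (n := 2) (by norm_num) ?_
        rw [hD.hw]
        exact (hmem _ (hBm 0)).mul (hmem _ hAm)
    | algebraMap c => exact hmem _ (S.algebraMap_mem c)
    | add z₁ z₂ _ _ h₁ h₂ => exact h₁.add h₂
    | mul z₁ z₂ _ _ h₁ h₂ => exact h₁.mul h₂
    | inv z _ h => exact h.inv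
  have h3 := isTranscendenceBasis_iff_algebraicIndependent_isAlgebraic.2
    ⟨hD.ind, ⟨halg⟩⟩
  rw [← h3.cardinalMk_eq_trdeg]
  simp

theorem trdeg_Y {L : Type} [Field L] [Algebra k L] {x y u : L} (hD : DatY k x y u) :
    Algebra.trdeg k L = ((2 : ℕ) : Cardinal) := by
  have hB : Bq (g 0) x y ≠ 0 := TRD_Bq (n := 0) hD.ind
  set S := Algebra.adjoin k (Set.range ![x, y]) with hS
  have hmem : ∀ z, z ∈ S → IsAlgebraic S z := fun z hz =>
    isAlgebraic_algebraMap (R := S) (A := L) (⟨z, hz⟩ : S)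
  have hint : ∀ c : ℤ, ((c : L)) ∈ S := fun c => intCast_mem S c
  have hx : x ∈ S := Algebra.subset_adjoin ⟨0, rfl⟩
  have hy : y ∈ S := Algebra.subset_adjoin ⟨1, rfl⟩
  have hBm : ∀ p, Bq (g p) x y ∈ S := by
    intro p
    unfold Bq
    exact S.add_mem (S.add_mem (S.add_mem (hint _) (S.mul_mem (hint _) (S.pow_mem hx 2)))
      (S.mul_mem (hint _) (S.pow_mem hy 2)))
      (S.mul_mem (S.mul_mem (hint _) (S.pow_mem hx 2)) (S.pow_mem hy 2))
  have halg : ∀ z : L, IsAlgebraic S z := by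
    intro z
    have hz : z ∈ IntermediateField.adjoin k {x, y, u} := by rw [hD.gen]; trivial
    induction hz using IntermediateField.adjoin_induction with
    | mem z hz =>
      simp only [Set.mem_insert_iff, Set.mem_singleton_iff] at hz
      rcases hz with rfl | rfl | rfl
      · exact hmem _ hx
      · exact hmem _ hy
      · refine IsAlgebraic.of_pow (n := 2) (by norm_num) ?_
        have h1 : z ^ 2 = Bq (g 1) x y * (Bq (g 0) x y)⁻¹ := by
          rw [← hD.hu, mul_assoc, mul_inv_cancel₀ hB, mul_one]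
        rw [h1]
        exact (hmem _ (hBm 1)).mul (hmem _ (hBm 0)).inv
    | algebraMap c => exact hmem _ (S.algebraMap_mem c)
    | add z₁ z₂ _ _ h₁ h₂ => exact h₁.add h₂
    | mul z₁ z₂ _ _ h₁ h₂ => exact h₁.mul h₂
    | inv z _ h => exact h.inv
  have h3 := isTranscendenceBasis_iff_algebraicIndependent_isAlgebraic.2
    ⟨hD.ind, ⟨halg⟩⟩
  rw [← h3.cardinalMk_eq_trdeg]
  simp

end Pool.Agent.H56.KN
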