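import Pool.Agent.H56.KN.SMX
import Pool.Agent.H56.KN.SMY
import Pool.Agent.H56.KN.FIB
import Pool.Agent.H56.KN.CUR
import Pool.Agent.H56.KN.DEG
import Pool.Agent.H56.KN.ALG
import Pool.Agent.H56.KN.RES
import Pool.Agent.H56.KN.TRD
import Pool.Agent.H56.KN.FFS
import Pool.Agent.H56.KN.EXI

/-!
Assembly.
-/

set_option autoImplicit false

namespace Pool.Agent.H56.KN

open MvPolynomial

theorem exists_chart {σ : Type} {n : ℕ} {k : Type} [Field k] (z : Fin n × Fin 2 → k)
    (h : ∀ m, ∃ i, z (m, i) ≠ 0) : ∃ i : Fin n → Fin 2, ∀ m, z (m, i m) ≠ 0 := by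
  choose i hi using h
  exact ⟨i, hi⟩

theorem proj_fib {k K : Type} [Field k] [Field K] [Algebra k K] (h2 : (2 : k) ≠ 0)
    {x y u a b w : K} (hD : Dat k x y u a b w)
    (x' y' u' : ↥(IntermediateField.adjoin k {x, y, u})) (hx : (x' : K) = x)
    (hy : (y' : K) = y) (hu : (u' : K) = u) :
    IsFibration k bX (yX x y u a b w) (IntermediateField.adjoin k {x, y, u}) bY
      (yY x' y' u') jj where
  blocks := by
    rintro ⟨m, i⟩ ⟨m', i'⟩
    simp [bY, bX, jj]
  full := by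
    rintro ⟨m, i⟩ t ht
    rcases t with ⟨m', i'⟩ | t
    · simp only [bX, jj, Option.some.injEq] at ht
      refine ⟨(m, i'), ?_⟩
      simp [jj, ht]
    · simp [bX, jj] at ht
  generic := by
    rintro ⟨m, i⟩
    have h1 : yX x y u a b w (jj (m, i)) =
        (![1, (![x, y, u, a, b] : Fin 5 → K) (Fin.castLE (by norm_num) m)] : Fin 2 → K) i := rfl
    have h3 : yY x' y' u' (m, i) = (![1, (![x', y', u'] : Fin 3 → _) m] : Fin 2 → _) i := rfl
    rw [h1, h3]
    fin_cases m <;> fin_cases i <;> simp [hx, hy, hu]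
  connected := fun f hf => alg_X h2 hD f hf

theorem main (k : Type) [Field k] [IsAlgClosed k] (h2 : (2 : k) ≠ 0) :
    ∃ (σ β τ γ : Type) (_ : Fintype σ) (_ : Fintype β) (_ : Fintype τ) (_ : Fintype γ)
      (bl : σ → β) (bt : τ → γ) (j : τ → σ) (K : Type) (_ : Field K) (_ : Algebra k K)
      (L : IntermediateField k K) (y : σ → K) (z : τ → L) (c : σ → MvPolynomial (Fin 2) k),
      IsSmoothVariety k bl y 3 ∧ IsSmoothVariety k bt z 2 ∧ TrivialCanonical k bt z 2 ∧
      IsFibration k bl y L bt z j ∧ SquareTrivialOnFibres k bl y 3 L bt z j ∧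
      IsRatCurve k bl y c ∧ HasCanonicalDegreeNeg k bl y 3 c 1 := by
  obtain ⟨K, _, _, x, y, u, a, b, w, hD⟩ := exists_Dat k
  obtain ⟨x', y', u', hx, hy, hu, hDY⟩ := res_Y hD
  obtain ⟨xs, ys, bs, hc⟩ := exists_curve h2 hD
  refine ⟨Sg, Option (Fin 5), Tg, Fin 3, inferInstance, inferInstance, inferInstance,
    inferInstance, bX, bY, jj, K, inferInstance, inferInstance,
    IntermediateField.adjoin k {x, y, u}, yX x y u a b w, yY x' y' u', crv xs ys bs,
    ⟨isFF_X hD, trdeg_X hD, fun z hz => ?_⟩, ⟨isFF_Y hDY, trdeg_Y hDY, fun z hz => ?_⟩,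
    ⟨thY k (g 0) x' y' u', fun z hz => ?_⟩, proj_fib h2 hD x' y' u' hx hy hu,
    square_X h2 hD _ _, hc, degree_X h2 hD hc⟩
  · obtain ⟨c, w', μ, _, hne, _, hz1, _⟩ := cls_X hD hz
    choose i hi using hne
    exact (loc_X h2 hD hz i (fun m => by rw [hz1]; exact hi m)).1
  · obtain ⟨hne, _⟩ := cls_Y hDY hz
    choose i hi using hne
    exact (loc_Y h2 hDY hz i hi).1
  · obtain ⟨hne, _⟩ := cls_Y hDY hz
    choose i hi using hne
    have h1 := (loc_Y h2 hDY hz i hi).2
    obtain ⟨O, ev, hO⟩ := exists_LR hz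
    have h3 : (O : Set _) = Loc bY (yY x' y' u') z := Set.ext hO.mem
    rcases thC_eq hDY i with h | h
    · rwa [h] at h1
    · rw [h] at h1
      rw [← h3] at h1 ⊢
      have h4 := h1.smul (ε := -1) ⟨neg_mem (one_mem O), by
        rw [inv_neg, inv_one]; exact neg_mem (one_mem O), by norm_num⟩
      rwa [neg_one_smul, neg_neg] at h4

end Pool.Agent.H56.KN
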